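import Pool.Agent.W600.Alg.Cert

/-!
# Arithmetic hyperbolicity and grouplessness fail for multi-cyclic covers with `K ≤ 0`
-/

set_option autoImplicit false

namespace Pool.Agent.W600.Alg

open MvPolynomial

variable {k : Type} [Field k] {n r g : ℕ}

/-- Every morphism from an elliptic curve to `X` is constant. -/
def Groupless (e : Fin r → ℕ) (X : Set ((Fin (n + 1) → k) × (Fin r → k))) : Prop :=
  ∀ (a b : k) (h : 4 * a ^ 3 + 27 * b ^ 2 ≠ 0) (D : ℕ)
    (f : (Src.ell a b h).Pt → (Fin (n + 1) → k) × (Fin r → k)), IsMor e (Src.ell a b h) D f →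
    (∀ t, f t ∈ X) → ∀ t t', Same e (f t) (f t')

/-- The `A`-points of the model of `X` over the subring `A` that is given by the same equations in
the weighted projective space over `A`: the coordinates are in `A`, and the coordinates
`x 0, …, x n` generate the unit ideal. -/
def APts (A : Subring k) (m : Fin r → ℕ) (F : Fin r → MvPolynomial (Fin (n + 1)) k)
    (G : Fin g → MvPolynomial (Fin (n + 1)) k) : Set ((Fin (n + 1) → k) × (Fin r → k)) :=
  {P | P ∈ Pts m F G 1 ∧ Unim A P.1 ∧ ∀ i, P.2 i ∈ A}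

/-- For every finitely generated subring `A` of `k` which contains the coefficients of the
equations there are only finitely many `A`-points of the model. -/
def ArithHyp (m e : Fin r → ℕ) (F : Fin r → MvPolynomial (Fin (n + 1)) k)
    (G : Fin g → MvPolynomial (Fin (n + 1)) k) : Prop :=
  ∀ s : Finset k, (∀ i, (cf (F i) : Set k) ⊆ Subring.closure (s : Set k)) →
    (∀ j, (cf (G j) : Set k) ⊆ Subring.closure (s : Set k)) →
    ∃ Z : Finset ((Fin (n + 1) → k) × (Fin r → k)),
      ∀ P ∈ APts (Subring.closure (s : Set k)) m F G, ∃ Q ∈ Z, Same e Q P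

/-- parameters are not constant -/
theorem Par.not_const {s : Src k} {D : ℕ} {S T : s.Pt → k} (hPar : Par s D S T) (O : s.Pt)
    (hall : ∀ u, T O * S u - S O * T u = 0) : False := by
  obtain ⟨t, t', ht⟩ := hPar.nc
  apply ht
  have e1 := hall t
  have e2 := hall t'
  rcases hPar.ne O with h3 | h3
  · have : S O * (S t * T t' - S t' * T t) = 0 := by linear_combination S t' * e1 - S t * e2
    exact sub_eq_zero.1 ((mul_eq_zero.1 this).resolve_left h3)
  · have : T O * (S t * T t' - S t' * T t) = 0 := by linear_combination T t' * e1 - T t * e2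
    exact sub_eq_zero.1 ((mul_eq_zero.1 this).resolve_left h3)

/-- the polynomials of the doubling map -/
noncomputable def dblPoly (a : k) : Fin 3 → MvPolynomial (Fin 3) k :=
  ![(3 * X 0 ^ 2 + C a * X 2 ^ 4) ^ 2 - 8 * X 0 * X 1 ^ 2,
    (3 * X 0 ^ 2 + C a * X 2 ^ 4) * (4 * X 0 * X 1 ^ 2 -
      ((3 * X 0 ^ 2 + C a * X 2 ^ 4) ^ 2 - 8 * X 0 * X 1 ^ 2)) - 8 * X 1 ^ 4,
    2 * X 1 * X 2]

theorem eval_dblPoly (a : k) (u : Fin 3 → k) (i : Fin 3) : eval u (dblPoly a i) = dbl3 a u i := by
  fin_cases i <;> simp [dblPoly, dbl3]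

/-- the equation of the cone -/
noncomputable def curvePoly (a b : k) : MvPolynomial (Fin 3) k :=
  X 1 ^ 2 - (X 0 ^ 3 + C a * X 0 * X 2 ^ 4 + C b * X 2 ^ 6)

theorem eval_curvePoly (a b : k) (u : Fin 3 → k) : eval u (curvePoly a b) =
    u 1 ^ 2 - (u 0 ^ 3 + a * u 0 * u 2 ^ 4 + b * u 2 ^ 6) := by
  simp [curvePoly]

/-- the coordinates of the points of a line over a ring -/
theorem unim_line {A : Subring k} {p v : Fin (n + 1) → k} (hp : ∀ j, p j ∈ A) (hv : ∀ j, v j ∈ A)
    {i j : Fin (n + 1)} (hΔ : p i * v j - p j * v i ≠ 0) (hΔA : (p i * v j - p j * v i)⁻¹ ∈ A)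
    {S T : k} (hST : Unim A ![S, T]) : Unim A fun l => S * p l + T * v l := by
  classical
  obtain ⟨hA, c, hc, h1⟩ := hST
  have hS : S ∈ A := hA 0
  have hT : T ∈ A := hA 1
  rw [Fin.sum_univ_two] at h1
  simp only [Matrix.cons_val_zero, Matrix.cons_val_one] at h1
  set Δ := p i * v j - p j * v i with hΔdef
  refine ⟨fun l => add_mem (mul_mem hS (hp l)) (mul_mem hT (hv l)),
    fun l => Δ⁻¹ * (c 0 * ((if l = i then v j else 0) - (if l = j then v i else 0)) +
      c 1 * ((if l = j then p i else 0) - (if l = i then p j else 0))), fun l => ?_, ?_⟩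
  · refine mul_mem hΔA (add_mem (mul_mem (hc 0) (sub_mem ?_ ?_)) (mul_mem (hc 1) (sub_mem ?_ ?_)))
    all_goals split_ifs
    all_goals first | exact hv _ | exact hp _ | exact zero_mem A
  · have e1 : ∀ l, Δ⁻¹ * (c 0 * ((if l = i then v j else 0) - (if l = j then v i else 0)) +
        c 1 * ((if l = j then p i else 0) - (if l = i then p j else 0))) * (S * p l + T * v l) =
        (if l = i then Δ⁻¹ * (c 0 * v j - c 1 * p j) * (S * p l + T * v l) else 0) +
        (if l = j then Δ⁻¹ * (c 1 * p i - c 0 * v i) * (S * p l + T * v l) else 0) := by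
      intro l
      split_ifs <;> ring
    simp_rw [e1]
    rw [Finset.sum_add_distrib, Finset.sum_ite_eq', Finset.sum_ite_eq', if_pos (Finset.mem_univ _),
      if_pos (Finset.mem_univ _)]
    have e2 : Δ⁻¹ * (c 0 * v j - c 1 * p j) * (S * p i + T * v i) +
        Δ⁻¹ * (c 1 * p i - c 0 * v i) * (S * p j + T * v j) =
        Δ⁻¹ * Δ * (c 0 * S + c 1 * T) := by
      rw [hΔdef]
      ring
    rw [e2, h1, inv_mul_cancel₀ hΔ, one_mul]

theorem exists_minor {p v : Fin (n + 1) → k} (hp0 : p ≠ 0)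
    (hv : ∀ a b : k, (fun j => a * p j + b * v j) = 0 → a = 0 ∧ b = 0) :
    ∃ i j, p i * v j - p j * v i ≠ 0 := by
  by_contra hcon
  push Not at hcon
  obtain ⟨i, hi⟩ : ∃ i, p i ≠ 0 := by
    by_contra h
    push Not at h
    exact hp0 (funext h)
  obtain ⟨-, h2⟩ := hv (-v i) (p i) (by
    funext j
    simp only [Pi.zero_apply]
    linear_combination hcon i j)
  exact hi h2

theorem not_arith [IsAlgClosed k] [CharZero k] {m : Fin r → ℕ} (hm : ∀ i, 2 ≤ m i)
    {F : Fin r → MvPolynomial (Fin (n + 1)) k} {e : Fin r → ℕ} (he : ∀ i, 0 < e i)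
    (hF : ∀ i, (F i).IsHomogeneous (m i * e i))
    {G : Fin g → MvPolynomial (Fin (n + 1)) k} {d : Fin g → ℕ} (hG : ∀ i, (G i).IsHomogeneous (d i))
    (hK : ∑ i, (m i - 1) * e i + ∑ j, d j ≤ n + 1)
    (h0 : ∑ i, (m i - 1) * e i + ∑ j, d j = n + 1 →
      (∃ i, 3 ∣ m i ∨ 4 ∣ m i) ∨ 2 ≤ ∑ i with 2 ∣ m i, e i)
    (h0' : ∑ i, (m i - 1) * e i + ∑ j, d j = n → 0 < r)
    (hX : ∃ P ∈ Pts m F G 1, ∀ i, eval P.1 (F i) ≠ 0) :
    ¬ Groupless e (Pts m F G 1) ∧ ¬ ArithHyp m e F G := by
  classical
  obtain ⟨P, hP, hPF⟩ := hX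
  obtain ⟨v, hv, s, D, S, T, hs, hD, hPar, W, hW, hX⟩ := line_closed m hm F e hF G d hG 1 0
    (isHomogeneous_one _ _)
    P.1 hP.1 hPF hP.2.2.1 hP.2.2.2 (fun s => ∃ a b h, s = Src.ell a b h)
    (fun a b h => ⟨a, b, h, rfl⟩) he rfl hK h0 h0'
  obtain ⟨a, b, h, rfl⟩ := hs
  obtain ⟨W', hW', hf, hfX, -⟩ :=
    exists_map' (fun i => by have := hm i; omega) hF hP hPF hv hPar hW hX
  constructor
  · intro hgl
    obtain ⟨t, t', ht⟩ := hPar.nc
    exact ht (not_same hv (hgl a b h D _ hf hfX t t'))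
  · intro hah
    -- polynomials
    obtain ⟨pS, -, hpS⟩ := hPar.hS
    obtain ⟨pT, -, hpT⟩ := hPar.hT
    choose pW hpW hpW' using hW'
    have eS : ∀ t : EPt a b h, S t = eval t.1 pS := hpS
    have eT : ∀ t : EPt a b h, T t = eval t.1 pT := hpT
    have eW : ∀ i, ∀ t : EPt a b h, W' i t = eval t.1 (pW i) := hpW'
    -- certificates
    obtain ⟨M1, C1, hC1⟩ := exists_cert (k := k) (σ := Fin 3) (κ := Option (Fin 2))
      (fun i => Option.elim i (curvePoly a b) ![pS, pT]) (by
        intro u hu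
        by_contra hne
        have h1 := hu none
        have h2 := hu (some 0)
        have h3 := hu (some 1)
        simp only [Option.elim_none, Option.elim_some, Matrix.cons_val_zero,
          Matrix.cons_val_one] at h1 h2 h3
        rw [eval_curvePoly] at h1
        let t : EPt a b h := ⟨u, hne, sub_eq_zero.1 h1⟩
        rcases hPar.ne t with h4 | h4
        · exact h4 ((eS t).trans h2)
        · exact h4 ((eT t).trans h3))
    obtain ⟨M2, C2, hC2⟩ := exists_cert (k := k) (σ := Fin 3) (κ := Option (Fin 3))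
      (fun i => Option.elim i (curvePoly a b) (dblPoly a)) (by
        intro u hu
        by_contra hne
        have h1 := hu none
        simp only [Option.elim_none] at h1
        rw [eval_curvePoly] at h1
        refine dbl3_ne two_ne_zero h hne (sub_eq_zero.1 h1) (funext fun i => ?_)
        have h2 := hu (some i)
        simp only [Option.elim_some] at h2
        rw [eval_dblPoly] at h2
        exact h2)
    obtain ⟨i0, j0, hΔ⟩ := exists_minor hP.1 hv
    obtain ⟨t0, ht0, htz, htinj⟩ := exists_infinite_order a b h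
    -- the ring
    let s : Finset k := (Finset.univ.biUnion fun i => cf (F i)) ∪
      (Finset.univ.biUnion fun j => cf (G j)) ∪ (cf pS ∪ cf pT) ∪
      (Finset.univ.biUnion fun i => cf (pW i)) ∪
      (Finset.univ.biUnion fun ij : Fin 3 × Option (Fin 2) => cf (C1 ij.1 ij.2)) ∪
      (Finset.univ.biUnion fun ij : Fin 3 × Option (Fin 3) => cf (C2 ij.1 ij.2)) ∪
      (Finset.univ.biUnion fun i => cf (dblPoly a i)) ∪
      (Finset.univ.image P.1) ∪ (Finset.univ.image v) ∪
      {(P.1 i0 * v j0 - P.1 j0 * v i0)⁻¹} ∪ (Finset.univ.image t0.1)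
    let A := Subring.closure (s : Set k)
    have hsA : (s : Set k) ⊆ A := Subring.subset_closure
    have m1 : ∀ i, (cf (F i) : Set k) ⊆ A := fun i x hx => hsA (by
      simp only [s, Finset.coe_union, Set.mem_union, Finset.mem_coe, Finset.mem_biUnion,
        Finset.mem_univ, true_and, Finset.mem_image, Finset.mem_singleton]
      exact Or.inl (Or.inl (Or.inl (Or.inl (Or.inl (Or.inl (Or.inl (Or.inl (Or.inl (Or.inl (⟨i, hx⟩)))))))))))
    have m2 : ∀ j, (cf (G j) : Set k) ⊆ A := fun j x hx => hsA (by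
      simp only [s, Finset.coe_union, Set.mem_union, Finset.mem_coe, Finset.mem_biUnion,
        Finset.mem_univ, true_and, Finset.mem_image, Finset.mem_singleton]
      exact Or.inl (Or.inl (Or.inl (Or.inl (Or.inl (Or.inl (Or.inl (Or.inl (Or.inl (Or.inr ⟨j, hx⟩))))))))))
    have m3 : (cf pS : Set k) ⊆ A := fun x hx => hsA (by
      simp only [s, Finset.coe_union, Set.mem_union, Finset.mem_coe, Finset.mem_biUnion,
        Finset.mem_univ, true_and, Finset.mem_image, Finset.mem_singleton]
      exact Or.inl (Or.inl (Or.inl (Or.inl (Or.inl (Or.inl (Or.inl (Or.inl (Or.inr (Or.inl hx))))))))))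
    have m4 : (cf pT : Set k) ⊆ A := fun x hx => hsA (by
      simp only [s, Finset.coe_union, Set.mem_union, Finset.mem_coe, Finset.mem_biUnion,
        Finset.mem_univ, true_and, Finset.mem_image, Finset.mem_singleton]
      exact Or.inl (Or.inl (Or.inl (Or.inl (Or.inl (Or.inl (Or.inl (Or.inl (Or.inr (Or.inr hx))))))))))
    have m5 : ∀ i, (cf (pW i) : Set k) ⊆ A := fun i x hx => hsA (by
      simp only [s, Finset.coe_union, Set.mem_union, Finset.mem_coe, Finset.mem_biUnion,
        Finset.mem_univ, true_and, Finset.mem_image, Finset.mem_singleton]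
      exact Or.inl (Or.inl (Or.inl (Or.inl (Or.inl (Or.inl (Or.inl (Or.inr ⟨i, hx⟩))))))))
    have m6 : ∀ j i, (cf (C1 j i) : Set k) ⊆ A := fun j i x hx => hsA (by
      simp only [s, Finset.coe_union, Set.mem_union, Finset.mem_coe, Finset.mem_biUnion,
        Finset.mem_univ, true_and, Finset.mem_image, Finset.mem_singleton]
      exact Or.inl (Or.inl (Or.inl (Or.inl (Or.inl (Or.inl (Or.inr ⟨(j, i), hx⟩)))))))
    have m7 : ∀ j i, (cf (C2 j i) : Set k) ⊆ A := fun j i x hx => hsA (by
      simp only [s, Finset.coe_union, Set.mem_union, Finset.mem_coe, Finset.mem_biUnion,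
        Finset.mem_univ, true_and, Finset.mem_image, Finset.mem_singleton]
      exact Or.inl (Or.inl (Or.inl (Or.inl (Or.inl (Or.inr ⟨(j, i), hx⟩))))))
    have m8 : ∀ i, (cf (dblPoly a i) : Set k) ⊆ A := fun i x hx => hsA (by
      simp only [s, Finset.coe_union, Set.mem_union, Finset.mem_coe, Finset.mem_biUnion,
        Finset.mem_univ, true_and, Finset.mem_image, Finset.mem_singleton]
      exact Or.inl (Or.inl (Or.inl (Or.inl (Or.inr ⟨i, hx⟩)))))
    have m9 : ∀ j, P.1 j ∈ A := fun j => hsA (by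
      simp only [s, Finset.coe_union, Set.mem_union, Finset.mem_coe, Finset.mem_biUnion,
        Finset.mem_univ, true_and, Finset.mem_image, Finset.mem_singleton]
      exact Or.inl (Or.inl (Or.inl (Or.inr ⟨j, rfl⟩))))
    have m10 : ∀ j, v j ∈ A := fun j => hsA (by
      simp only [s, Finset.coe_union, Set.mem_union, Finset.mem_coe, Finset.mem_biUnion,
        Finset.mem_univ, true_and, Finset.mem_image, Finset.mem_singleton]
      exact Or.inl (Or.inl (Or.inr ⟨j, rfl⟩)))
    have m11 : (P.1 i0 * v j0 - P.1 j0 * v i0)⁻¹ ∈ A :=  hsA (by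
      simp only [s, Finset.coe_union, Set.mem_union, Finset.mem_coe, Finset.mem_biUnion,
        Finset.mem_univ, true_and, Finset.mem_image, Finset.mem_singleton]
      exact Or.inl (Or.inr trivial))
    have m12 : ∀ j, t0.1 j ∈ A := fun j => hsA (by
      simp only [s, Finset.coe_union, Set.mem_union, Finset.mem_coe, Finset.mem_biUnion,
        Finset.mem_univ, true_and, Finset.mem_image, Finset.mem_singleton]
      exact Or.inr ⟨j, rfl⟩)
    -- the orbit
    have horb : ∀ N, Unim A (dbl^[N] t0).1 := by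
      intro N
      induction N with
      | zero =>
        refine ⟨m12, fun i => if i = 2 then 1 else 0, fun i => ?_, ?_⟩
        · show (if i = 2 then (1 : k) else 0) ∈ A
          split_ifs
          exacts [one_mem A, zero_mem A]
        · rw [Fin.sum_univ_three]
          have : (dbl^[0] t0).1 2 = 1 := ht0
          rw [this]
          simp
      | succ N ih =>
        have h1 := unim_eval hC2 m7 m8 ih (by
          rw [eval_curvePoly]
          exact sub_eq_zero.2 (EPt.eq (dbl^[N] t0)))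
        rw [Function.iterate_succ_apply']
        refine (congrArg (Unim A) (funext fun i => ?_)).mp h1
        rw [eval_dblPoly]
        rfl
    have hpts : ∀ N, ((fun j => S (dbl^[N] t0) * P.1 j + T (dbl^[N] t0) * v j,
        fun i => W' i (dbl^[N] t0)) : (Fin (n + 1) → k) × (Fin r → k)) ∈ APts A m F G := by
      intro N
      refine ⟨hfX _, ?_, fun i => ?_⟩
      · refine unim_line m9 m10 hΔ m11 ?_
        have h1 := unim_eval (q := ![pS, pT]) hC1 m6 (by
          intro i
          fin_cases i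
          exacts [m3, m4]) (horb N) (by
          rw [eval_curvePoly]
          exact sub_eq_zero.2 (EPt.eq (dbl^[N] t0)))
        refine (congrArg (Unim A) (funext fun i => ?_)).mp h1
        fin_cases i
        · exact (eS _).symm
        · exact (eT _).symm
      · show W' i (dbl^[N] t0) ∈ A
        rw [eW]
        exact eval_mem (m5 i) (horb N).1
    obtain ⟨Z, hZ⟩ := hah s m1 m2
    choose Q hQZ hQ using fun N => hZ _ (hpts N)
    obtain ⟨⟨Q0, hQ0⟩, hinf⟩ := Finite.exists_infinite_fiber (fun N : ℕ => (⟨Q N, hQZ N⟩ : Z))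
    rw [Set.infinite_coe_iff] at hinf
    obtain ⟨N0, hN0⟩ := hinf.nonempty
    have hNQ : ∀ N ∈ (fun N : ℕ => (⟨Q N, hQZ N⟩ : Z)) ⁻¹' {⟨Q0, hQ0⟩}, Q N = Q0 :=
      fun N hN => congrArg Subtype.val hN
    have hprop : ∀ N ∈ (fun N : ℕ => (⟨Q N, hQZ N⟩ : Z)) ⁻¹' {⟨Q0, hQ0⟩},
        T (dbl^[N0] t0) * S (dbl^[N] t0) - S (dbl^[N0] t0) * T (dbl^[N] t0) = 0 := by
      intro N hN
      have h1 := hQ N
      have h2 := hQ N0
      rw [hNQ N hN] at h1
      rw [hNQ N0 hN0] at h2
      have h3 := not_same hv (h2.symm.trans h1)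
      linear_combination -h3
    refine hPar.not_const (dbl^[N0] t0) ?_
    by_contra hne
    push Not at hne
    obtain ⟨u0, hu0⟩ := hne
    have hreg : (Src.ell a b h).Reg D fun u => T (dbl^[N0] t0) * S u - S (dbl^[N0] t0) * T u :=
      reg_sub (reg_cmul _ hPar.hS) (reg_cmul _ hPar.hT)
    obtain ⟨N, hN, hNz⟩ := finite_zeros hreg hu0
    refine (hinf.image (fun x _ y _ hxy => htinj hxy)) ?_
    refine (Finset.finite_toSet N.roots.toFinset).subset ?_
    rintro _ ⟨l, hl, rfl⟩
    rw [Finset.mem_coe, Multiset.mem_toFinset, Polynomial.mem_roots hN]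
    exact hNz _ (htz l) (hprop l hl)

end Pool.Agent.W600.Alg
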