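import Pool.Agent.W600.Alg.Cover

/-!
# Existence of curves: the cases
-/

set_option autoImplicit false

namespace Pool.Agent.W600.Alg

open MvPolynomial Pool.Agent.H734R3.LV

variable {k : Type*} [Field k]

theorem Par.lin {s : Src k} {D : ℕ} {S T : s.Pt → k} (h : Par s D S T) (c : k) :
    s.Reg D fun z => S z + c * T z := reg_add h.hS (reg_cmul c h.hT)

variable [IsAlgClosed k] [CharZero k]

section

variable {n r g : ℕ} (m : Fin r → ℕ) (hm : ∀ i, 2 ≤ m i)
    (F : Fin r → MvPolynomial (Fin (n + 1)) k) (e : Fin r → ℕ)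
    (hF : ∀ i, (F i).IsHomogeneous (m i * e i))
    (G : Fin g → MvPolynomial (Fin (n + 1)) k) (d : Fin g → ℕ) (hG : ∀ i, (G i).IsHomogeneous (d i))
    (B : MvPolynomial (Fin (n + 1)) k) (δ : ℕ) (hB : B.IsHomogeneous δ)
    (p : Fin (n + 1) → k) (hp0 : p ≠ 0) (hpF : ∀ i, eval p (F i) ≠ 0) (hpG : ∀ i, eval p (G i) = 0)
    (hpB : eval p B ≠ 0) (Q : Src k → Prop)

include hm hF hG hB hp0 hpF hpG hpB

/-- two boundary points -/
theorem case_B2 (hQ : Q Src.gm) (hδ : 2 ≤ δ)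
    (hK : ∑ i, (m i - 1) * e i + δ + ∑ j, d j ≤ n + 1) : LineCurve Q m e F G B p := by
  refine of_pattern Q (q := 0) (β := 2) m (fun i => by have := hm i; omega) F e hF G d hG B δ hB
    Fin.elim0 (Sum.elim (fun j => m j.1) Fin.elim0) ![1, δ - 1] ?_ ?_ (by omega) ?_ ?_ ?_
    p hp0 hpF hpG hpB
  · rintro (j | j)
    · have := hm j.1
      simp only [Sum.elim_inl]
      omega
    · exact j.elim0
  · intro s
    fin_cases s
    · simp
    · simp
      omega
  · intro j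
    simp
  · simp
    omega
  · intro c cB
    obtain ⟨S, T, hP, h1, h2⟩ := gm_two (cB 0) (cB 1)
    refine ⟨_, 1, S, T, hQ, one_pos, hP, fun a => ?_,
      fun j => ⟨_, hP.lin (c (Sum.inl j)), fun z => by simp⟩⟩
    fin_cases a
    exacts [h1, h2]

/-- one boundary point -/
theorem case_B1 (hQ : Q Src.ga) (hδ : 1 ≤ δ) (hK : ∑ i, (m i - 1) * e i + δ + ∑ j, d j ≤ n) :
    LineCurve Q m e F G B p := by
  refine of_pattern Q (q := 0) (β := 1) m (fun i => by have := hm i; omega) F e hF G d hG B δ hB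
    Fin.elim0 (Sum.elim (fun j => m j.1) Fin.elim0) ![δ] ?_ ?_ (by omega) ?_ ?_ ?_
    p hp0 hpF hpG hpB
  · rintro (j | j)
    · have := hm j.1
      simp only [Sum.elim_inl]
      omega
    · exact j.elim0
  · intro s
    fin_cases s
    simp
    omega
  · intro j
    simp
  · simp
  · intro c cB
    obtain ⟨S, T, hP, h1⟩ := ga_const (cB 0)
    refine ⟨_, 1, S, T, hQ, one_pos, hP, fun a z => ?_,
      fun j => ⟨_, hP.lin (c (Sum.inl j)), fun z => by simp⟩⟩
    fin_cases a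
    simp only [Fin.zero_eta]
    rw [h1]
    exact one_ne_zero

/-- no boundary, no extra root -/
theorem case_0 (hQ : Q Src.ga ∨ ∀ a b h, Q (Src.ell a b h)) (hδ : δ = 0)
    (hK : ∑ i, (m i - 1) * e i + ∑ j, d j < n) :
    LineCurve Q m e F G B p := by
  refine of_pattern Q (q := 0) (β := 0) m (fun i => by have := hm i; omega) F e hF G d hG B δ hB
    Fin.elim0 (Sum.elim (fun j => m j.1) Fin.elim0) Fin.elim0 ?_ (fun s => s.elim0) (by omega)
    ?_ ?_ ?_ p hp0 hpF hpG hpB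
  · rintro (j | j)
    · have := hm j.1
      simp only [Sum.elim_inl]
      omega
    · exact j.elim0
  · intro j
    simp
  · simp [hδ]
  · intro c cB
    rcases hQ with hQ | hQ
    · obtain ⟨S, T, hP, h1⟩ := ga_const (0 : k)
      exact ⟨_, 1, S, T, hQ, one_pos, hP, fun a => a.elim0,
        fun j => ⟨_, hP.lin (c (Sum.inl j)), fun z => by simp⟩⟩
    · obtain ⟨a, b, h, D, S, T, hD, hP, -⟩ := ell_const (0 : k)
      exact ⟨_, D, S, T, hQ a b h, hD, hP, fun a => a.elim0,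
        fun j => ⟨_, hP.lin (c (Sum.inl j)), fun z => by simp⟩⟩

/-- no boundary, one extra root -/
theorem case_0' (hQ : Q Src.ga ∨ ∀ a b h, Q (Src.ell a b h)) (hδ : δ = 0)
    (hK : ∑ i, (m i - 1) * e i + ∑ j, d j ≤ n)
    (b : Σ i : Fin r, Fin (e i)) : LineCurve Q m e F G B p := by
  classical
  have hb0 := hm b.1
  refine of_pattern Q (q := 1) (β := 0) m (fun i => by have := hm i; omega) F e hF G d hG B δ hB
    ![b] (Sum.elim (fun j => if j = b then m b.1 - 1 else m j.1) ![1]) Fin.elim0 ?_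
    (fun s => s.elim0) (by omega) ?_ (by simp [hδ]) ?_ p hp0 hpF hpG hpB
  · rintro (j | j)
    · simp only [Sum.elim_inl]
      have := hm j.1
      split_ifs <;> omega
    · fin_cases j
      simp
  · intro j
    by_cases hj : b = j
    · subst hj
      simp
      omega
    · have hj' : ¬ j = b := fun h => hj h.symm
      simp [hj, hj']
  · intro c cB
    obtain ⟨s, D, S, T, hs, hD, hP, y, hy, hy'⟩ : ∃ (s : Src k) (D : ℕ) (S T : s.Pt → k), Q s ∧
        0 < D ∧ Par s D S T ∧ ∃ y, s.Reg D y ∧ ∀ t, y t ^ m b.1 =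
          (S t + c (Sum.inl b) * T t) ^ (m b.1 - 1) * (S t + c (Sum.inr 0) * T t) := by
      rcases hQ with hQ | hQ
      · obtain ⟨S, T, hP, h⟩ := ga_rat (c (Sum.inl b)) (c (Sum.inr 0)) (hm b.1)
        exact ⟨_, 1, S, T, hQ, one_pos, hP, h⟩
      · obtain ⟨a, b', h, D, S, T, hD, hP, h'⟩ := ell_rat (c (Sum.inl b)) (c (Sum.inr 0)) (hm b.1)
        exact ⟨_, D, S, T, hQ a b' h, hD, hP, h'⟩
    refine ⟨s, D, S, T, hs, hD, hP, fun a => a.elim0, fun j => ?_⟩
    by_cases hj : b = j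
    · subst hj
      exact ⟨y, hy, fun z => by simp [hy']⟩
    · have hj' : ¬ j = b := fun h => hj h.symm
      exact ⟨_, hP.lin (c (Sum.inl j)), fun z => by simp [hj, hj']⟩

/-- one boundary point and one extra root -/
theorem case_B1' (hQ : Q Src.gm) (hδ : δ = 1) (hK : ∑ i, (m i - 1) * e i + δ + ∑ j, d j ≤ n + 1)
    (b : Σ i : Fin r, Fin (e i)) (μ : ℕ) (hμ : m b.1 = 2 * μ) : LineCurve Q m e F G B p := by
  classical
  have hb0 := hm b.1
  refine of_pattern Q (q := 1) (β := 1) m (fun i => by have := hm i; omega) F e hF G d hG B δ hB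
    ![b] (Sum.elim (fun j => if j = b then μ else m j.1) ![μ]) ![1] ?_
    (fun s => by fin_cases s; simp) (by omega) ?_ (by simp [hδ]) ?_ p hp0 hpF hpG hpB
  · rintro (j | j)
    · simp only [Sum.elim_inl]
      have := hm j.1
      split_ifs <;> omega
    · fin_cases j
      simp
      omega
  · intro j
    by_cases hj : b = j
    · subst hj
      simp
      omega
    · have hj' : ¬ j = b := fun h => hj h.symm
      simp [hj, hj']
  · intro c cB
    obtain ⟨S, T, hP, hU, y, hy, hy'⟩ := gm_half (c (Sum.inl b)) (c (Sum.inr 0)) (cB 0)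
    refine ⟨_, 1, S, T, hQ, one_pos, hP, fun a z => ?_, fun j => ?_⟩
    · fin_cases a
      exact hU z
    by_cases hj : b = j
    · subst hj
      refine ⟨y, hy, fun z => ?_⟩
      rw [hμ, pow_mul, hy', mul_pow]
      simp
    · have hj' : ¬ j = b := fun h => hj h.symm
      exact ⟨_, hP.lin (c (Sum.inl j)), fun z => by simp [hj, hj']⟩

/-- types `(3,3,3)` and `(2,4,4)` -/
theorem case_triple (hQ : ∀ a b h, Q (Src.ell a b h)) (hδ : δ = 0)
    (hK : ∑ i, (m i - 1) * e i + ∑ j, d j ≤ n + 1)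
    (b : Σ i : Fin r, Fin (e i)) (h : 3 ∣ m b.1 ∨ 4 ∣ m b.1) : LineCurve Q m e F G B p := by
  classical
  have hb0 := hm b.1
  obtain ⟨α1, α2, hα1, hα2, hsum, hsol⟩ : ∃ α1 α2 : ℕ, 0 < α1 ∧ 0 < α2 ∧
      α1 + α1 + α2 = m b.1 ∧ ∀ c0 c1 c2 : k, EllMap fun s D S T => ∃ y, s.Reg D y ∧
        ∀ z, y z ^ m b.1 = (S z + c0 * T z) ^ α1 * ((S z + c1 * T z) ^ α1 *
          (S z + c2 * T z) ^ α2) := by
    rcases h with ⟨μ, hμ⟩ | ⟨μ, hμ⟩
    · refine ⟨μ, μ, by omega, by omega, by omega, fun c0 c1 c2 => ?_⟩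
      obtain ⟨a, b', hab, D, S, T, hD, hP, h⟩ := e3' ![c0, c1, c2]
      obtain ⟨M0, y0, hM0, d0, h0⟩ := h 0
      obtain ⟨M1, y1, hM1, d1, h1⟩ := h 1
      obtain ⟨M2, y2, hM2, d2, h2⟩ := h 2
      simp only [Matrix.cons_val] at h0 h1 h2
      refine ⟨a, b', hab, D, S, T, hD, hP, fun z => y0 z * (y1 z * y2 z), ?_, fun z => ?_⟩
      · have := reg_mul d0 (reg_mul d1 d2)
        convert this using 1
        omega
      · rw [h0, h1, h2, hμ, pow_mul]
        ring
    · refine ⟨μ, 2 * μ, by omega, by omega, by omega, fun c0 c1 c2 => ?_⟩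
      obtain ⟨a, b', hab, D, S, T, hD, hP, ⟨M0, y0, hM0, d0, h0⟩, ⟨M1, y1, hM1, d1, h1⟩,
        ⟨M2, y2, hM2, d2, h2⟩⟩ := e42' c0 c1 c2
      refine ⟨a, b', hab, D, S, T, hD, hP, fun z => y0 z * (y1 z * y2 z), ?_, fun z => ?_⟩
      · have := reg_mul d0 (reg_mul d1 d2)
        convert this using 1
        omega
      · rw [h0, h1, h2, hμ, pow_mul]
        ring
  refine of_pattern Q (q := 2) (β := 0) m (fun i => by have := hm i; omega) F e hF G d hG B δ hB
    ![b, b] (Sum.elim (fun j => if j = b then α1 else m j.1) ![α1, α2]) Fin.elim0 ?_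
    (fun s => s.elim0) (by omega) ?_ (by simp [hδ]) ?_ p hp0 hpF hpG hpB
  · rintro (j | j)
    · simp only [Sum.elim_inl]
      have := hm j.1
      split_ifs <;> omega
    · fin_cases j
      · exact hα1
      · exact hα2
  · intro j
    simp only [Sum.elim_inl, Sum.elim_inr, Fin.sum_univ_two, Matrix.cons_val_zero,
      Matrix.cons_val_one]
    by_cases hj : b = j
    · subst hj
      simp
      omega
    · have hj' : ¬ j = b := fun h => hj h.symm
      simp [hj, hj']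
  · intro c cB
    obtain ⟨a, b', hab, D, S, T, hD, hP, y, hy, hy'⟩ :=
      hsol (c (Sum.inl b)) (c (Sum.inr 0)) (c (Sum.inr 1))
    refine ⟨_, D, S, T, hQ a b' hab, hD, hP, fun a => a.elim0, fun j => ?_⟩
    by_cases hj : b = j
    · subst hj
      exact ⟨y, hy, fun z => by simp [hy', Fin.prod_univ_two]⟩
    · have hj' : ¬ j = b := fun h => hj h.symm
      exact ⟨_, hP.lin (c (Sum.inl j)), fun z => by simp [hj, hj']⟩

/-- type `(2,2,2,2)` -/
theorem case_double (hQ : ∀ a b h, Q (Src.ell a b h)) (hδ : δ = 0)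
    (hK : ∑ i, (m i - 1) * e i + ∑ j, d j ≤ n + 1)
    (b0 b1 : Σ i : Fin r, Fin (e i)) (hb : b0 ≠ b1) (μ0 μ1 : ℕ) (h0 : m b0.1 = 2 * μ0)
    (h1 : m b1.1 = 2 * μ1) : LineCurve Q m e F G B p := by
  classical
  have hb0 := hm b0.1
  have hb1 := hm b1.1
  refine of_pattern Q (q := 2) (β := 0) m (fun i => by have := hm i; omega) F e hF G d hG B δ hB
    ![b0, b1] (Sum.elim (fun j => if j = b0 then μ0 else if j = b1 then μ1 else m j.1) ![μ0, μ1])
    Fin.elim0 ?_ (fun s => s.elim0) (by omega) ?_ (by simp [hδ]) ?_ p hp0 hpF hpG hpB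
  · rintro (j | j)
    · simp only [Sum.elim_inl]
      have := hm j.1
      split_ifs <;> omega
    · fin_cases j
      · simp
        omega
      · simp
        omega
  · intro j
    simp only [Sum.elim_inl, Sum.elim_inr, Fin.sum_univ_two, Matrix.cons_val_zero,
      Matrix.cons_val_one]
    by_cases hj : b0 = j
    · subst hj
      simp [hb.symm, h0]
      omega
    · by_cases hj1 : b1 = j
      · subst hj1
        simp [hb, hb.symm, h1]
        omega
      · have hj' : ¬ j = b0 := fun h => hj h.symm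
        have hj1' : ¬ j = b1 := fun h => hj1 h.symm
        simp [hj, hj', hj1, hj1']
  · intro c cB
    obtain ⟨a, b', hab, D, S, T, hD, hP, h⟩ :=
      e4' ![c (Sum.inl b0), c (Sum.inr 0), c (Sum.inl b1), c (Sum.inr 1)]
    obtain ⟨M0, y0, hM0, d0, k0⟩ := h 0
    obtain ⟨M1, y1, hM1, d1, k1⟩ := h 1
    obtain ⟨M2, y2, hM2, d2, k2⟩ := h 2
    obtain ⟨M3, y3, hM3, d3, k3⟩ := h 3
    simp only [Matrix.cons_val] at k0 k1 k2 k3
    refine ⟨_, D, S, T, hQ a b' hab, hD, hP, fun a => a.elim0, fun j => ?_⟩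
    by_cases hj : b0 = j
    · subst hj
      refine ⟨fun z => y0 z * y1 z, ?_, fun z => ?_⟩
      · have := reg_mul d0 d1
        convert this using 1
        omega
      have hb' : ¬ b1 = b0 := hb.symm
      simp only [Sum.elim_inl, Sum.elim_inr, if_true, Matrix.cons_val_zero, Matrix.cons_val_one,
        hb', if_false, mul_one, Fin.prod_univ_two]
      rw [k0, k1, h0, pow_mul]
      ring
    · by_cases hj1 : b1 = j
      · subst hj1
        refine ⟨fun z => y2 z * y3 z, ?_, fun z => ?_⟩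
        · have := reg_mul d2 d3
          convert this using 1
          omega
        simp only [Sum.elim_inl, Sum.elim_inr, if_true, Matrix.cons_val_zero, Matrix.cons_val_one,
          hb.symm, hb, if_false, one_mul, Fin.prod_univ_two]
        rw [k2, k3, h1, pow_mul]
        ring
      · have hj' : ¬ j = b0 := fun h => hj h.symm
        have hj1' : ¬ j = b1 := fun h => hj1 h.symm
        exact ⟨_, hP.lin (c (Sum.inl j)), fun z => by simp [hj, hj', hj1, hj1']⟩

/-- curves of genus at most one, no boundary -/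
theorem line_closed (hQ : ∀ a b h, Q (Src.ell a b h)) (he : ∀ i, 0 < e i) (hδ : δ = 0)
    (hK : ∑ i, (m i - 1) * e i + ∑ j, d j ≤ n + 1)
    (h0 : ∑ i, (m i - 1) * e i + ∑ j, d j = n + 1 →
      (∃ i, 3 ∣ m i ∨ 4 ∣ m i) ∨ 2 ≤ ∑ i with 2 ∣ m i, e i)
    (h0' : ∑ i, (m i - 1) * e i + ∑ j, d j = n → 0 < r) :
    LineCurve Q m e F G B p := by
  classical
  by_cases hlt : ∑ i, (m i - 1) * e i + ∑ j, d j < n
  · exact case_0 m hm F e hF G d hG B δ hB p hp0 hpF hpG hpB Q (Or.inr hQ) hδ hlt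
  by_cases heq : ∑ i, (m i - 1) * e i + ∑ j, d j = n
  · exact case_0' m hm F e hF G d hG B δ hB p hp0 hpF hpG hpB Q (Or.inr hQ) hδ heq.le
      ⟨⟨0, h0' heq⟩, ⟨0, he _⟩⟩
  rcases h0 (by omega) with ⟨i, hi⟩ | h2
  · exact case_triple m hm F e hF G d hG B δ hB p hp0 hpF hpG hpB Q hQ hδ hK
      ⟨i, ⟨0, he i⟩⟩ hi
  · have hcard : 1 < (Finset.univ.filter fun j : Σ i : Fin r, Fin (e i) => 2 ∣ m j.1).card := by
      rw [Finset.card_filter, Fintype.sum_sigma]
      rw [Finset.sum_filter] at h2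
      refine lt_of_lt_of_le h2 (Finset.sum_le_sum fun i _ => ?_)
      split_ifs <;> simp
    obtain ⟨b0, hb0, b1, hb1, hb⟩ := Finset.one_lt_card.1 hcard
    simp only [Finset.mem_filter, Finset.mem_univ, true_and] at hb0 hb1
    obtain ⟨μ0, hμ0⟩ := hb0
    obtain ⟨μ1, hμ1⟩ := hb1
    exact case_double m hm F e hF G d hG B δ hB p hp0 hpF hpG hpB Q hQ hδ hK
      b0 b1 hb μ0 μ1 hμ0 hμ1

/-- affine lines -/
theorem line_affine (hQ : Q Src.ga) (he : ∀ i, 0 < e i)
    (hK : ∑ i, (m i - 1) * e i + δ + ∑ j, d j ≤ n)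
    (h0' : δ = 0 → ∑ i, (m i - 1) * e i + ∑ j, d j = n → 0 < r) :
    LineCurve Q m e F G B p := by
  by_cases hδ : δ = 0
  · have h0' := h0' hδ
    by_cases hlt : ∑ i, (m i - 1) * e i + ∑ j, d j < n
    · exact case_0 m hm F e hF G d hG B δ hB p hp0 hpF hpG hpB Q (Or.inl hQ) hδ hlt
    · exact case_0' m hm F e hF G d hG B δ hB p hp0 hpF hpG hpB Q (Or.inl hQ) hδ (by omega)
        ⟨⟨0, h0' (by omega)⟩, ⟨0, he _⟩⟩
  · exact case_B1 m hm F e hF G d hG B δ hB p hp0 hpF hpG hpB Q hQ (by omega) hK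

/-- all cases -/
theorem line_all (hQ : ∀ s, Q s) (he : ∀ i, 0 < e i)
    (hK : ∑ i, (m i - 1) * e i + δ + ∑ j, d j ≤ n + 1)
    (h0 : δ = 0 → ∑ i, (m i - 1) * e i + ∑ j, d j = n + 1 →
      (∃ i, 3 ∣ m i ∨ 4 ∣ m i) ∨ 2 ≤ ∑ i with 2 ∣ m i, e i)
    (h0' : δ = 0 → ∑ i, (m i - 1) * e i + ∑ j, d j = n → 0 < r)
    (h1 : δ = 1 → ∑ i, (m i - 1) * e i + ∑ j, d j = n → ∃ i, 2 ∣ m i) :
    LineCurve Q m e F G B p := by
  by_cases hδ : δ = 0
  · exact line_closed m hm F e hF G d hG B δ hB p hp0 hpF hpG hpB Q (fun a b h => hQ _) he hδ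
      (by omega) (h0 hδ) (h0' hδ)
  · by_cases hδ2 : 2 ≤ δ
    · exact case_B2 m hm F e hF G d hG B δ hB p hp0 hpF hpG hpB Q (hQ _) hδ2 hK
    · have hδ1 : δ = 1 := by omega
      by_cases hle : ∑ i, (m i - 1) * e i + δ + ∑ j, d j ≤ n
      · exact case_B1 m hm F e hF G d hG B δ hB p hp0 hpF hpG hpB Q (hQ _) (by omega) hle
      · obtain ⟨i, μ, hμ⟩ := h1 hδ1 (by omega)
        exact case_B1' m hm F e hF G d hG B δ hB p hp0 hpF hpG hpB Q (hQ _) hδ1 hK
          ⟨i, ⟨0, he i⟩⟩ μ hμ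

end

end Pool.Agent.W600.Alg
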