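import Pool.Agent.W600.Alg.Pointed

/-!
# Pseudo-geometric hyperbolicity fails for multi-cyclic covers with `K ≤ 0`
-/

set_option autoImplicit false

namespace Pool.Agent.W600.Alg

open MvPolynomial

variable {k : Type} [Field k] {n r g : ℕ}

/-- the value of a polynomial in `x`, `w` -/
noncomputable def value (P : (Fin (n + 1) → k) × (Fin r → k))
    (H : MvPolynomial (Fin (n + 1) ⊕ Fin r) k) : k :=
  eval (Sum.elim P.1 P.2) H

/-- `Ξ` is a Zariski closed subset of `X` -/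
def IsClosedIn (e : Fin r → ℕ) (X Ξ : Set ((Fin (n + 1) → k) × (Fin r → k))) : Prop :=
  ∃ (κ : Type) (H : κ → MvPolynomial (Fin (n + 1) ⊕ Fin r) k) (D : κ → ℕ),
    (∀ l, IsWeightedHomogeneous (Sum.elim (fun _ => 1) e) (H l) (D l)) ∧
      Ξ = {P | P ∈ X ∧ ∀ l, value P (H l) = 0}

/-- `X` is irreducible -/
def Irr (e : Fin r → ℕ) (X : Set ((Fin (n + 1) → k) × (Fin r → k))) : Prop :=
  ∀ (H K : MvPolynomial (Fin (n + 1) ⊕ Fin r) k) (D E : ℕ),
    IsWeightedHomogeneous (Sum.elim (fun _ => 1) e) H D →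
    IsWeightedHomogeneous (Sum.elim (fun _ => 1) e) K E →
    (∀ P ∈ X, value P H * value P K = 0) → (∀ P ∈ X, value P H = 0) ∨ ∀ P ∈ X, value P K = 0

/-- There are a pointed elliptic curve `(E, c)` and infinitely many morphisms `f : E → X` with
`f (c) = x`. -/
def ManyPointedMaps (e : Fin r → ℕ) (X : Set ((Fin (n + 1) → k) × (Fin r → k)))
    (x : (Fin (n + 1) → k) × (Fin r → k)) : Prop :=
  ∃ (a b : k) (h : 4 * a ^ 3 + 27 * b ^ 2 ≠ 0) (c : (Src.ell a b h).Pt)
    (f : ℕ → (Src.ell a b h).Pt → (Fin (n + 1) → k) × (Fin r → k)),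
    (∀ i, (∃ D, IsMor e (Src.ell a b h) D (f i)) ∧ (∀ t, f i t ∈ X) ∧ Same e x (f i c)) ∧
      ∀ i j, i ≠ j → ∃ t, ¬ Same e (f i t) (f j t)

/-- Outside some proper closed subset `Ξ` of `X` there are only finitely many morphisms
`(E, c) → (X, x)` for all pointed elliptic curves `(E, c)`. -/
def PseudoGeomHyp (e : Fin r → ℕ) (X : Set ((Fin (n + 1) → k) × (Fin r → k))) : Prop :=
  ∃ Ξ, IsClosedIn e X Ξ ∧ Ξ ≠ X ∧ ∀ x ∈ X, x ∉ Ξ → ¬ ManyPointedMaps e X x

theorem exists_point {m : Fin r → ℕ}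
    {F : Fin r → MvPolynomial (Fin (n + 1)) k} {e : Fin r → ℕ}
    (hF : ∀ i, (F i).IsHomogeneous (m i * e i))
    {G : Fin g → MvPolynomial (Fin (n + 1)) k} {B : MvPolynomial (Fin (n + 1)) k}
    (hirr : Irr e (Pts m F G B)) (hFX : ∀ i, ∃ P ∈ Pts m F G B, eval P.1 (F i) ≠ 0)
    {H : MvPolynomial (Fin (n + 1) ⊕ Fin r) k} {D : ℕ}
    (hH : IsWeightedHomogeneous (Sum.elim (fun _ => 1) e) H D)
    (hP : ∃ P ∈ Pts m F G B, value P H ≠ 0) :
    ∃ P ∈ Pts m F G B, value P H ≠ 0 ∧ ∀ i, eval P.1 (F i) ≠ 0 := by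
  classical
  have hren : ∀ i, IsWeightedHomogeneous (Sum.elim (fun _ => 1) e)
      (rename (Sum.inl : Fin (n + 1) → Fin (n + 1) ⊕ Fin r) (F i)) (m i * e i) := by
    intro i s hs
    obtain ⟨u, hu, hcu⟩ := coeff_rename_ne_zero _ _ _ hs
    have h1 := hF i hcu
    rw [← h1, ← hu, Finsupp.weight_apply, Finsupp.weight_apply,
      Finsupp.sum_mapDomain_index (by simp) (by intros; simp [add_mul])]
    simp
  have hval : ∀ P : (Fin (n + 1) → k) × (Fin r → k), ∀ i,
      value P (rename (Sum.inl : Fin (n + 1) → Fin (n + 1) ⊕ Fin r) (F i)) = eval P.1 (F i) := by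
    intro P i
    rw [value, eval_rename]
    rfl
  have key : ∀ s : Finset (Fin r), ∃ (K : MvPolynomial (Fin (n + 1) ⊕ Fin r) k) (E : ℕ),
      IsWeightedHomogeneous (Sum.elim (fun _ => 1) e) K E ∧ (∃ P ∈ Pts m F G B, value P K ≠ 0) ∧
      ∀ P ∈ Pts m F G B, value P K ≠ 0 → value P H ≠ 0 ∧ ∀ i ∈ s, eval P.1 (F i) ≠ 0 := by
    intro s
    induction s using Finset.induction_on with
    | empty => exact ⟨H, D, hH, hP, fun P _ h => ⟨h, by simp⟩⟩
    | insert i s his ih =>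
      obtain ⟨K, E, hK, hPK, hKs⟩ := ih
      have hmul : ∀ P : (Fin (n + 1) → k) × (Fin r → k), value P (K * rename Sum.inl (F i)) =
          value P K * value P (rename Sum.inl (F i)) := fun P => by
        rw [value, map_mul]
        rfl
      refine ⟨K * rename Sum.inl (F i), E + m i * e i, hK.mul (hren i), ?_, ?_⟩
      · by_contra hcon
        push Not at hcon
        rcases hirr K _ E _ hK (hren i) (fun P hP => by rw [← hmul]; exact hcon P hP) with h | h
        · obtain ⟨P, hP, hP'⟩ := hPK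
          exact hP' (h P hP)
        · obtain ⟨P, hP, hP'⟩ := hFX i
          exact hP' (by rw [← hval]; exact h P hP)
      · intro P hP hne
        rw [hmul] at hne
        obtain ⟨h1, h2⟩ := hKs P hP (left_ne_zero_of_mul hne)
        refine ⟨h1, fun i' hi' => ?_⟩
        rcases Finset.mem_insert.1 hi' with rfl | h
        · rw [← hval]
          exact right_ne_zero_of_mul hne
        · exact h2 i' h
  obtain ⟨K, E, -, ⟨P, hP, hPK⟩, hKs⟩ := key Finset.univ
  obtain ⟨h1, h2⟩ := hKs P hP hPK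
  exact ⟨P, hP, h1, fun i => h2 i (Finset.mem_univ i)⟩

theorem value_same {e : Fin r → ℕ} {P Q : (Fin (n + 1) → k) × (Fin r → k)}
    (h : Same e P Q) {H : MvPolynomial (Fin (n + 1) ⊕ Fin r) k} {E : ℕ}
    (hH : IsWeightedHomogeneous (Sum.elim (fun _ => 1) e) H E) (hP : value P H ≠ 0) :
    value Q H ≠ 0 := by
  obtain ⟨a, ha, h1, h2⟩ := h
  have e1 : Sum.elim Q.1 Q.2 = fun j => a ^ (Sum.elim (fun _ => 1) e j : ℕ) *
      Sum.elim P.1 P.2 j := by
    funext j
    rcases j with j | j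
    · simp only [Sum.elim_inl, pow_one]
      exact h1 j
    · simp only [Sum.elim_inr]
      exact h2 j
  rw [value, e1, eval_wscale hH]
  exact mul_ne_zero (pow_ne_zero _ ha) hP

/-- the main theorem -/
theorem not_pgh [IsAlgClosed k] [CharZero k] {m : Fin r → ℕ} (hm : ∀ i, 2 ≤ m i)
    {F : Fin r → MvPolynomial (Fin (n + 1)) k} {e : Fin r → ℕ} (he : ∀ i, 0 < e i)
    (hF : ∀ i, (F i).IsHomogeneous (m i * e i))
    {G : Fin g → MvPolynomial (Fin (n + 1)) k} {d : Fin g → ℕ} (hG : ∀ i, (G i).IsHomogeneous (d i))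
    (hK : ∑ i, (m i - 1) * e i + ∑ j, d j ≤ n + 1)
    (h0 : ∑ i, (m i - 1) * e i + ∑ j, d j = n + 1 →
      (∃ i, 3 ∣ m i ∨ 4 ∣ m i) ∨ 2 ≤ ∑ i with 2 ∣ m i, e i)
    (h0' : ∑ i, (m i - 1) * e i + ∑ j, d j = n → 0 < r)
    (hirr : Irr e (Pts m F G 1)) (hFX : ∀ i, ∃ P ∈ Pts m F G 1, eval P.1 (F i) ≠ 0) :
    ¬ PseudoGeomHyp e (Pts m F G 1) := by
  classical
  rintro ⟨Ξ, ⟨κ, H, D', hH, rfl⟩, hne, hfin⟩
  obtain ⟨l, P, hP, hPl⟩ : ∃ l, ∃ P ∈ Pts m F G 1, value P (H l) ≠ 0 := by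
    by_contra hcon
    push Not at hcon
    apply hne
    ext P
    exact ⟨fun h => h.1, fun h => ⟨h, fun l => hcon l P h⟩⟩
  obtain ⟨P, hP, hPl, hPF⟩ := exists_point hF hirr hFX (hH l) ⟨P, hP, hPl⟩
  obtain ⟨v, hv, s, D, S, T, hs, hD, hPar, W, hW, hX⟩ := line_closed m hm F e hF G d hG 1 0
    (isHomogeneous_one _ _)
    P.1 hP.1 hPF hP.2.2.1 hP.2.2.2 (fun s => ∃ a b h, s = Src.ell a b h)
    (fun a b h => ⟨a, b, h, rfl⟩) he rfl hK h0 h0'
  obtain ⟨a, b, h, rfl⟩ := hs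
  obtain ⟨W', hW', hf, hfX, t0, ht0⟩ :=
    exists_map' (fun i => by have := hm i; omega) hF hP hPF hv hPar hW hX
  -- the function on the curve
  have hreg : (Src.ell a b h).Reg (D * D' l) fun t => value ((fun j => S t * P.1 j + T t * v j,
      fun i => W' i t) : (Fin (n + 1) → k) × (Fin r → k)) (H l) := by
    have := reg_comp (s := Src.ell a b h) (E := D)
      (u := fun i t => Sum.elim (fun j => S t * P.1 j + T t * v j) (fun i => W' i t) i)
      (w := Sum.elim (fun _ => 1) e) (by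
        rintro (j | i)
        · simp only [Sum.elim_inl, mul_one]
          exact hf.1 j
        · simp only [Sum.elim_inr]
          exact hf.2 i) (hH l)
    exact this
  obtain ⟨N, hN, hNz⟩ := finite_zeros hreg (P₀ := t0) (value_same ht0 (hH l) hPl)
  obtain ⟨c, hc2, hcN, M, hM, hcM⟩ := exists_periodic a b h N.roots.toFinset
  have hcne : value ((fun j => S c * P.1 j + T c * v j, fun i => W' i c) :
      (Fin (n + 1) → k) × (Fin r → k)) (H l) ≠ 0 := by
    intro h1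
    apply hcN
    have h2 := hNz c (by rw [hc2]; exact one_ne_zero) h1
    rw [hc2, one_pow, div_one] at h2
    rw [Multiset.mem_toFinset, Polynomial.mem_roots hN]
    exact h2
  have hper : ∀ i : ℕ, Eqv (dbl^[M * i] c) c := by
    intro i
    induction i with
    | zero => exact Eqv.refl c
    | succ i ih =>
      have e1 : M * (i + 1) = M * i + M := by ring
      rw [e1, Function.iterate_add_apply]
      exact (eqv_iter hcM _).trans ih
  refine hfin ((fun j => S c * P.1 j + T c * v j, fun i => W' i c) :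
    (Fin (n + 1) → k) × (Fin r → k)) (hfX c) (fun h1 => hcne (h1.2 l)) ⟨a, b, h, c,
    fun i t => (fun j => S (dbl^[M * i] t) * P.1 j + T (dbl^[M * i] t) * v j,
      fun l => W' l (dbl^[M * i] t)), fun i => ⟨⟨D * 4 ^ (M * i), fun j => ?_, fun j => ?_⟩,
        fun t => hfX _, ?_⟩, fun i j hij => ?_⟩
  · exact reg_iter (hf.1 j) (M * i)
  · have := reg_iter (hf.2 j) (M * i)
    have h4 : D * e j * 4 ^ (M * i) = D * 4 ^ (M * i) * e j := by ring
    rwa [h4] at this
  · exact same_of_eqv hf (hper i).symm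
  · rcases Nat.lt_or_gt_of_ne hij with hlt | hlt
    · exact iter_ne hPar hv hf (Nat.mul_lt_mul_of_pos_left hlt hM)
    · obtain ⟨t, ht⟩ := iter_ne hPar hv hf (Nat.mul_lt_mul_of_pos_left hlt hM)
      exact ⟨t, fun h => ht h.symm⟩

end Pool.Agent.W600.Alg
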