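import Pool.Agent.W600.Alg.Points
import Pool.Agent.W600.Alg.PGH

/-!
# Certificates and points with coordinates in finitely generated rings
-/

set_option autoImplicit false

namespace Pool.Agent.W600.Alg

open MvPolynomial

variable {k : Type} [Field k]

/-- the finite set of coefficients -/
noncomputable def cf {σ : Type} (p : MvPolynomial σ k) : Finset k := by
  classical
  exact p.support.image fun d => coeff d p

theorem eval_mem {σ : Type} [Fintype σ] {A : Subring k} {p : MvPolynomial σ k}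
    (hp : (cf p : Set k) ⊆ A) {u : σ → k} (hu : ∀ i, u i ∈ A) : eval u p ∈ A := by
  classical
  rw [eval_eq']
  refine sum_mem fun d hd => mul_mem (hp ?_) (prod_mem fun i _ => pow_mem (hu i) _)
  simp only [cf, Finset.coe_image, Set.mem_image]
  exact ⟨d, hd, rfl⟩

/-- the coordinates generate the unit ideal -/
def Unim {ι : Type} [Fintype ι] (A : Subring k) (u : ι → k) : Prop :=
  (∀ i, u i ∈ A) ∧ ∃ c : ι → k, (∀ i, c i ∈ A) ∧ ∑ i, c i * u i = 1

theorem Unim.pow {ι : Type} [Fintype ι] {A : Subring k} {u : ι → k} (hu : Unim A u) (M : ℕ) :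
    Unim A fun i => u i ^ M := by
  obtain ⟨hA, c, hc, h1⟩ := hu
  let u' : ι → A := fun i => ⟨u i, hA i⟩
  have e1 : Ideal.span (Set.range u') = ⊤ := by
    rw [Ideal.eq_top_iff_one, Ideal.mem_span_range_iff_exists_fun]
    refine ⟨fun i => ⟨c i, hc i⟩, Subtype.ext ?_⟩
    simpa [u'] using h1
  have e2 := Ideal.span_pow_eq_top _ e1 M
  rw [← Set.range_comp, Ideal.eq_top_iff_one, Ideal.mem_span_range_iff_exists_fun] at e2
  obtain ⟨d, hd⟩ := e2
  refine ⟨fun i => pow_mem (hA i) M, fun i => (d i : k), fun i => (d i).2, ?_⟩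
  have e3 := congrArg Subtype.val hd
  simpa [u'] using e3

theorem Unim.of_mem {ι κ : Type} [Fintype ι] [Fintype κ] {A : Subring k} {u : ι → k} {q : κ → k}
    (hu : Unim A u) (hq : ∀ i, q i ∈ A) (C : ι → κ → k) (hC : ∀ i j, C i j ∈ A)
    (H : ∀ i, u i = ∑ j, C i j * q j) : Unim A q := by
  obtain ⟨hA, c, hc, h1⟩ := hu
  refine ⟨hq, fun j => ∑ i, c i * C i j, fun j => sum_mem fun i _ => mul_mem (hc i) (hC i j), ?_⟩
  rw [← h1]
  simp_rw [Finset.sum_mul, H, Finset.mul_sum]
  rw [Finset.sum_comm]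
  refine Finset.sum_congr rfl fun i _ => Finset.sum_congr rfl fun j _ => by ring

/-- Nullstellensatz certificates: polynomials without common zeros -/
theorem exists_cert [IsAlgClosed k] {σ κ : Type} [Fintype σ] [Fintype κ]
    (q : κ → MvPolynomial σ k) (hq : ∀ u : σ → k, (∀ i, eval u (q i) = 0) → u = 0) :
    ∃ (M : ℕ) (C : σ → κ → MvPolynomial σ k), ∀ j, X j ^ M = ∑ i, C j i * q i := by
  have h1 : ∀ j : σ, ∃ M : ℕ, (X j : MvPolynomial σ k) ^ M ∈ Ideal.span (Set.range q) := by
    intro j
    have h2 : (X j : MvPolynomial σ k) ∈ (Ideal.span (Set.range q)).radical := by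
      rw [← vanishingIdeal_zeroLocus_eq_radical (K := k), mem_vanishingIdeal_iff]
      intro u hu
      rw [mem_zeroLocus_iff] at hu
      have h3 : u = 0 := hq u fun i => by
        rw [← MvPolynomial.coe_aeval_eq_eval]
        exact hu (q i) (Ideal.subset_span ⟨i, rfl⟩)
      rw [h3]
      simp
    exact h2
  choose M hM using h1
  refine ⟨∑ j, M j, ?_⟩
  have h3 : ∀ j : σ, (X j : MvPolynomial σ k) ^ (∑ j, M j) ∈ Ideal.span (Set.range q) := by
    intro j
    have h4 : M j ≤ ∑ j, M j := Finset.single_le_sum (fun _ _ => Nat.zero_le _) (Finset.mem_univ j)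
    obtain ⟨l, hl⟩ := Nat.exists_eq_add_of_le h4
    rw [hl, pow_add]
    exact Ideal.mul_mem_right _ _ (hM j)
  choose C hC using fun j => Ideal.mem_span_range_iff_exists_fun.1 (h3 j)
  exact ⟨C, fun j => (hC j).symm⟩

/-- values of polynomials without common zeros on the cone over a curve -/
theorem unim_eval {σ κ : Type} [Fintype σ] [Fintype κ] {A : Subring k}
    {q : κ → MvPolynomial σ k} {c : MvPolynomial σ k} {M : ℕ}
    {C : σ → Option κ → MvPolynomial σ k}
    (H : ∀ j, X j ^ M = ∑ i, C j i * (Option.elim i c q : MvPolynomial σ k))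
    (hC : ∀ j i, (cf (C j i) : Set k) ⊆ A) (hq : ∀ i, (cf (q i) : Set k) ⊆ A) {u : σ → k}
    (hu : Unim A u) (hc : eval u c = 0) : Unim A fun i => eval u (q i) := by
  refine Unim.of_mem (hu.pow M) (fun i => eval_mem (hq i) hu.1)
    (fun j i => eval u (C j (some i))) (fun j i => eval_mem (hC j _) hu.1) fun j => ?_
  have h1 := congrArg (eval u) (H j)
  rw [map_pow, eval_X, map_sum, Fintype.sum_option] at h1
  simp only [Option.elim_none, Option.elim_some, map_mul, hc, mul_zero, zero_add] at h1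
  exact h1

end Pool.Agent.W600.Alg
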