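import Pool.Agent.W600.Alg.Double

/-!
# The cone over an elliptic curve
-/

set_option autoImplicit false

namespace Pool.Agent.W600.Alg

open MvPolynomial

variable {k : Type*} [Field k]

/-- the points of the cone over the elliptic curve -/
abbrev EPt (a b : k) (h : 4 * a ^ 3 + 27 * b ^ 2 ≠ 0) : Type _ := (Src.ell a b h).Pt

variable {a b : k} {h : 4 * a ^ 3 + 27 * b ^ 2 ≠ 0}

theorem EPt.ne (P : EPt a b h) : P.1 ≠ 0 := P.2.1

theorem EPt.eq (P : EPt a b h) : P.1 1 ^ 2 = P.1 0 ^ 3 + a * P.1 0 * P.1 2 ^ 4 + b * P.1 2 ^ 6 :=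
  P.2.2

/-- two points of the cone lie over the same point of the elliptic curve -/
def Eqv (P Q : EPt a b h) : Prop :=
  ∃ c : k, c ≠ 0 ∧ Q.1 0 = c ^ 2 * P.1 0 ∧ Q.1 1 = c ^ 3 * P.1 1 ∧ Q.1 2 = c * P.1 2

theorem Eqv.refl (P : EPt a b h) : Eqv P P := ⟨1, one_ne_zero, by ring, by ring, by ring⟩

theorem Eqv.symm {P Q : EPt a b h} (H : Eqv P Q) : Eqv Q P := by
  obtain ⟨c, hc, h0, h1, h2⟩ := H
  exact ⟨c⁻¹, inv_ne_zero hc, by rw [h0]; field_simp, by rw [h1]; field_simp,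
    by rw [h2]; field_simp⟩

theorem Eqv.trans {P Q R : EPt a b h} (H : Eqv P Q) (H' : Eqv Q R) : Eqv P R := by
  obtain ⟨c, hc, h0, h1, h2⟩ := H
  obtain ⟨d, hd, g0, g1, g2⟩ := H'
  exact ⟨d * c, mul_ne_zero hd hc, by rw [g0, h0]; ring, by rw [g1, h1]; ring,
    by rw [g2, h2]; ring⟩

/-- regular functions are homogeneous -/
theorem reg_eqv {D : ℕ} {f : EPt a b h → k} (hf : (Src.ell a b h).Reg D f) {P Q : EPt a b h} {c : k}
    (h0 : Q.1 0 = c ^ 2 * P.1 0) (h1 : Q.1 1 = c ^ 3 * P.1 1)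
    (h2 : Q.1 2 = c * P.1 2) : f Q = c ^ D * f P := by
  obtain ⟨p, hp, hp'⟩ := hf
  have e1 : Q.1 = fun i => c ^ (![2, 3, 1] i : ℕ) * P.1 i := by
    funext i
    fin_cases i
    · exact h0
    · exact h1
    · simpa using h2
  have e2 : f Q = eval Q.1 p := hp' Q
  have e3 : f P = eval P.1 p := hp' P
  rw [e2, e3, e1, eval_wscale hp]

/-- equivalence in terms of equality of values of ratios -/
theorem eqv_dbl [CharZero k] {P Q : EPt a b h} (H : Eqv P Q) : Eqv (dbl P) (dbl Q) := by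
  obtain ⟨c, hc, h0, h1, h2⟩ := H
  refine ⟨c ^ 4, pow_ne_zero _ hc, ?_, ?_, ?_⟩
  · show dbl3 a Q.1 0 = _ * dbl3 a P.1 0
    simp only [dbl3, Matrix.cons_val, h0, h1, h2]
    ring
  · show dbl3 a Q.1 1 = _ * dbl3 a P.1 1
    simp only [dbl3, Matrix.cons_val, h0, h1, h2]
    ring
  · show dbl3 a Q.1 2 = _ * dbl3 a P.1 2
    simp only [dbl3, Matrix.cons_val, h0, h1, h2]
    ring

theorem eqv_iter [CharZero k] {P Q : EPt a b h} (H : Eqv P Q) (N : ℕ) :
    Eqv (dbl^[N] P) (dbl^[N] Q) := by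
  induction N generalizing P Q with
  | zero => exact H
  | succ N ih =>
    rw [Function.iterate_succ_apply, Function.iterate_succ_apply]
    exact ih (eqv_dbl H)

/-- the negative of a point -/
def neg (P : EPt a b h) : EPt a b h :=
  ⟨![P.1 0, -P.1 1, P.1 2], by
    constructor
    · intro h0
      apply P.ne
      have e0 := congrFun h0 0
      have e1 := congrFun h0 1
      have e2 := congrFun h0 2
      simp only [Matrix.cons_val, Pi.zero_apply, neg_eq_zero] at e0 e1 e2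
      funext i
      fin_cases i
      exacts [e0, e1, e2]
    · simp only [Matrix.cons_val]
      linear_combination P.eq⟩

theorem neg_0 (P : EPt a b h) : (neg P).1 0 = P.1 0 := rfl
theorem neg_1 (P : EPt a b h) : (neg P).1 1 = -P.1 1 := rfl
theorem neg_2 (P : EPt a b h) : (neg P).1 2 = P.1 2 := rfl

theorem neg_neg' (P : EPt a b h) : neg (neg P) = P := by
  apply Subtype.ext
  funext i
  fin_cases i
  · rfl
  · show -(neg P).1 1 = P.1 1
    rw [neg_1, neg_neg]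
  · rfl

theorem eqv_neg {P Q : EPt a b h} (H : Eqv P Q) : Eqv (neg P) (neg Q) := by
  obtain ⟨c, hc, h0, h1, h2⟩ := H
  exact ⟨c, hc, by rw [neg_0, neg_0, h0], by rw [neg_1, neg_1, h1]; ring,
    by rw [neg_2, neg_2, h2]⟩

theorem dbl_neg [CharZero k] (P : EPt a b h) : Eqv (dbl (neg P)) (neg (dbl P)) := by
  refine ⟨-1, neg_ne_zero.2 one_ne_zero, ?_, ?_, ?_⟩
  · show dbl3 a P.1 0 = _ * dbl3 a (neg P).1 0
    simp only [dbl3, Matrix.cons_val, neg_0, neg_1, neg_2]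
    ring
  · show -dbl3 a P.1 1 = _ * dbl3 a (neg P).1 1
    simp only [dbl3, Matrix.cons_val, neg_0, neg_1, neg_2]
    ring
  · show dbl3 a P.1 2 = _ * dbl3 a (neg P).1 2
    simp only [dbl3, Matrix.cons_val, neg_0, neg_1, neg_2]
    ring

theorem iter_neg [CharZero k] (P : EPt a b h) (N : ℕ) :
    Eqv (dbl^[N] (neg P)) (neg (dbl^[N] P)) := by
  induction N generalizing P with
  | zero => exact Eqv.refl _
  | succ N ih =>
    rw [Function.iterate_succ_apply, Function.iterate_succ_apply]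
    exact (eqv_iter (dbl_neg P) N).trans (ih _)

/-- the points at infinity are equivalent -/
theorem eqv_inft {P Q : EPt a b h} (hP : P.1 2 = 0) (hQ : Q.1 2 = 0) : Eqv P Q := by
  have key : ∀ R : EPt a b h, R.1 2 = 0 → R.1 0 ≠ 0 ∧ R.1 1 ≠ 0 ∧ R.1 1 ^ 2 = R.1 0 ^ 3 := by
    intro R hR
    have h1 := R.eq
    rw [hR] at h1
    have h2 : R.1 1 ^ 2 = R.1 0 ^ 3 := by linear_combination h1
    have h3 : R.1 0 ≠ 0 := by
      intro h0
      rw [h0] at h2
      have h4 : R.1 1 = 0 := pow_eq_zero_iff two_ne_zero |>.1 (by linear_combination h2)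
      exact R.ne (funext fun i => by fin_cases i <;> simp [h0, h4, hR])
    refine ⟨h3, ?_, h2⟩
    intro h0
    rw [h0] at h2
    exact pow_ne_zero 3 h3 (by linear_combination -h2)
  obtain ⟨p0, p1, p2⟩ := key P hP
  obtain ⟨q0, q1, q2⟩ := key Q hQ
  -- `R ~ (1, 1, 0)` by scaling with `R 0 / R 1`
  refine ⟨(Q.1 1 * P.1 0) / (Q.1 0 * P.1 1), div_ne_zero (mul_ne_zero q1 p0) (mul_ne_zero q0 p1),
    ?_, ?_, by rw [hP, hQ, mul_zero]⟩
  · rw [div_pow, div_mul_eq_mul_div, eq_div_iff (pow_ne_zero _ (mul_ne_zero q0 p1))]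
    calc Q.1 0 * (Q.1 0 * P.1 1) ^ 2 = Q.1 0 ^ 3 * P.1 1 ^ 2 := by ring
      _ = Q.1 1 ^ 2 * P.1 0 ^ 3 := by rw [p2, q2]
      _ = _ := by ring
  · rw [div_pow, div_mul_eq_mul_div, eq_div_iff (pow_ne_zero _ (mul_ne_zero q0 p1))]
    calc Q.1 1 * (Q.1 0 * P.1 1) ^ 3 = Q.1 1 * Q.1 0 ^ 3 * P.1 1 ^ 2 * P.1 1 := by ring
      _ = Q.1 1 ^ 3 * P.1 0 ^ 3 * P.1 1 := by rw [p2, ← q2]; ring
      _ = _ := by ring

/-- the points with the same first coordinate are equivalent up to sign -/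
theorem eqv_or {P Q : EPt a b h} (hP : P.1 2 ≠ 0) (hQ : Q.1 2 ≠ 0)
    (H : P.1 0 * Q.1 2 ^ 2 = Q.1 0 * P.1 2 ^ 2) : Eqv P Q ∨ Eqv (neg P) Q := by
  have e1 := P.eq
  have e2 := Q.eq
  have e3 : (Q.1 1 * P.1 2 ^ 3 - Q.1 2 ^ 3 * P.1 1) * (Q.1 1 * P.1 2 ^ 3 + Q.1 2 ^ 3 * P.1 1) =
      0 := by
    have h3 : (P.1 0 * Q.1 2 ^ 2) ^ 3 = (Q.1 0 * P.1 2 ^ 2) ^ 3 := by rw [H]
    linear_combination (P.1 2 ^ 6) * e2 - (Q.1 2 ^ 6) * e1 - h3 -
      a * P.1 2 ^ 4 * Q.1 2 ^ 4 * H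
  have g0 : Q.1 0 = (Q.1 2 / P.1 2) ^ 2 * P.1 0 := by
    rw [div_pow, div_mul_eq_mul_div, eq_div_iff (pow_ne_zero _ hP)]
    linear_combination -H
  have g2 : Q.1 2 = Q.1 2 / P.1 2 * P.1 2 := by rw [div_mul_cancel₀ _ hP]
  rcases mul_eq_zero.1 e3 with h4 | h4
  · refine Or.inl ⟨Q.1 2 / P.1 2, div_ne_zero hQ hP, g0, ?_, g2⟩
    rw [div_pow, div_mul_eq_mul_div, eq_div_iff (pow_ne_zero _ hP)]
    linear_combination h4
  · refine Or.inr ⟨Q.1 2 / P.1 2, div_ne_zero hQ hP, g0, ?_, g2⟩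
    rw [neg_1, div_pow, div_mul_eq_mul_div, eq_div_iff (pow_ne_zero _ hP)]
    linear_combination h4

/-- multiplication by two is surjective -/
theorem exists_half [IsAlgClosed k] [CharZero k] (Q : EPt a b h) : ∃ P : EPt a b h,
    Eqv (dbl P) Q := by
  by_cases hQ : Q.1 2 = 0
  · refine ⟨inft a b h, eqv_inft ?_ hQ⟩
    show dbl3 a (inft a b h).1 2 = 0
    simp [dbl3, inft]
  · have r0 : (Src.ell a b h).Reg 8 fun P => (dbl P).1 0 := reg_dbl reg_x
    have r2 : (Src.ell a b h).Reg 4 fun P => (dbl P).1 2 := reg_dbl reg_z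
    have r22 : (Src.ell a b h).Reg 8 fun P => (dbl P).1 2 ^ 2 := reg_pow r2 2
    obtain ⟨P, hP⟩ := exists_zero (by norm_num)
      (reg_sub (reg_cmul (Q.1 2 ^ 2) r0) (reg_cmul (Q.1 0) r22))
    have hP2 : (dbl P).1 2 ≠ 0 := by
      intro h0
      rw [h0] at hP
      have h1 : (dbl P).1 0 = 0 := by
        have : Q.1 2 ^ 2 * (dbl P).1 0 = 0 := by linear_combination hP
        exact (mul_eq_zero.1 this).resolve_left (pow_ne_zero _ hQ)
      have h2 := EPt.eq (dbl P)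
      rw [h0, h1] at h2
      have h3 : (dbl P).1 1 = 0 := pow_eq_zero_iff two_ne_zero |>.1 (by linear_combination h2)
      exact EPt.ne (dbl P) (funext fun i => by fin_cases i <;> simp [h0, h1, h3])
    rcases eqv_or hP2 hQ (by linear_combination hP) with H | H
    · exact ⟨P, H⟩
    · exact ⟨neg P, (dbl_neg P).trans H⟩

end Pool.Agent.W600.Alg
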