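import Pool.Agent.W600.Alg.Main

/-!
# Multiplication by two on elliptic curves
-/

set_option autoImplicit false

namespace Pool.Agent.W600.Alg

open MvPolynomial

variable {k : Type*} [Field k]

theorem reg_sum {s : Src k} {σ : Type*} (t : Finset σ) {D : ℕ} {f : σ → s.Pt → k}
    (hf : ∀ i ∈ t, s.Reg D (f i)) (h0 : s.Reg D fun _ => 0) :
    s.Reg D fun P => ∑ i ∈ t, f i P := by
  classical
  induction t using Finset.induction_on with
  | empty => simpa using h0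
  | insert i t hi ih =>
    have h1 := reg_add (hf i (by simp)) (ih fun j hj => hf j (by simp [hj]))
    refine (congrArg (s.Reg D) (funext fun P => ?_)).mp h1
    rw [Finset.sum_insert hi]

theorem reg_zero (s : Src k) (D : ℕ) : s.Reg D fun _ => 0 := by
  cases s with
  | ga => exact ⟨0, fun t => by simp⟩
  | gm => exact ⟨0, 0, fun t => by simp⟩
  | ell a b h => exact ⟨0, isWeightedHomogeneous_zero _ _ _, fun P => by simp⟩

/-- composition with weighted homogeneous polynomials -/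
theorem reg_eval {s : Src k} {E D : ℕ} {u : Fin 3 → s.Pt → k} (h0 : s.Reg (2 * E) (u 0))
    (h1 : s.Reg (3 * E) (u 1)) (h2 : s.Reg E (u 2)) {p : MvPolynomial (Fin 3) k}
    (hp : IsWeightedHomogeneous ![2, 3, 1] p D) :
    s.Reg (D * E) fun P => eval (fun i => u i P) p := by
  simp_rw [eval_eq']
  refine reg_sum _ (fun c hc => ?_) (reg_zero _ _)
  refine reg_cmul _ ?_
  have hD : 2 * c 0 + (3 * c 1 + c 2) = D := by
    rw [← hp (mem_support_iff.1 hc), Finsupp.weight_apply, Finsupp.sum_fintype _ _ (by simp),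
      Fin.sum_univ_three]
    simp only [Matrix.cons_val, smul_eq_mul, mul_one]
    ring
  have h3 := reg_mul (reg_pow h0 (c 0)) (reg_mul (reg_pow h1 (c 1)) (reg_pow h2 (c 2)))
  have h4 : c 0 * (2 * E) + (c 1 * (3 * E) + c 2 * E) = D * E := by
    rw [← hD]
    ring
  rw [h4] at h3
  refine (congrArg (s.Reg (D * E)) (funext fun P => ?_)).mp h3
  rw [Fin.prod_univ_three, mul_assoc]

/-- the coordinates of the double of a point -/
def dbl3 (a : k) (P : Fin 3 → k) : Fin 3 → k :=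
  ![(3 * P 0 ^ 2 + a * P 2 ^ 4) ^ 2 - 8 * P 0 * P 1 ^ 2,
    (3 * P 0 ^ 2 + a * P 2 ^ 4) * (4 * P 0 * P 1 ^ 2 -
      ((3 * P 0 ^ 2 + a * P 2 ^ 4) ^ 2 - 8 * P 0 * P 1 ^ 2)) - 8 * P 1 ^ 4,
    2 * P 1 * P 2]

theorem dbl3_eq {a b : k} {P : Fin 3 → k}
    (h : P 1 ^ 2 = P 0 ^ 3 + a * P 0 * P 2 ^ 4 + b * P 2 ^ 6) :
    dbl3 a P 1 ^ 2 = dbl3 a P 0 ^ 3 + a * dbl3 a P 0 * dbl3 a P 2 ^ 4 + b * dbl3 a P 2 ^ 6 := by
  simp only [dbl3, Matrix.cons_val]
  linear_combination (64 * P 1 ^ 6) * h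

theorem dbl3_ne {a b : k} (h2 : (2 : k) ≠ 0) (hab : 4 * a ^ 3 + 27 * b ^ 2 ≠ 0) {P : Fin 3 → k}
    (hP : P ≠ 0) (h : P 1 ^ 2 = P 0 ^ 3 + a * P 0 * P 2 ^ 4 + b * P 2 ^ 6) : dbl3 a P ≠ 0 := by
  intro h0
  have e0 := congrFun h0 0
  have e2 := congrFun h0 2
  simp only [dbl3, Matrix.cons_val, Pi.zero_apply] at e0 e2
  rcases mul_eq_zero.1 e2 with e2 | e2
  · have hy : P 1 = 0 := (mul_eq_zero.1 e2).resolve_left h2
    rw [hy] at e0 h
    have hM : 3 * P 0 ^ 2 + a * P 2 ^ 4 = 0 := by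
      have : (3 * P 0 ^ 2 + a * P 2 ^ 4) ^ 2 = 0 := by linear_combination e0
      exact pow_eq_zero_iff two_ne_zero |>.1 this
    have hc : P 0 ^ 3 + a * P 0 * P 2 ^ 4 + b * P 2 ^ 6 = 0 := by linear_combination -h
    have hd : (4 * a ^ 3 + 27 * b ^ 2) * P 2 ^ 12 = 0 := by
      linear_combination (4 * a ^ 2 * P 2 ^ 8 + 6 * a * P 0 ^ 2 * P 2 ^ 4 -
        9 * b * P 0 * P 2 ^ 6) * hM - (18 * a * P 0 * P 2 ^ 4 - 27 * b * P 2 ^ 6) * hc
    have hz : P 2 = 0 := by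
      have := (mul_eq_zero.1 hd).resolve_left hab
      exact pow_eq_zero_iff (by norm_num) |>.1 this
    have hx : P 0 = 0 := by
      rw [hz] at hc
      exact pow_eq_zero_iff three_ne_zero |>.1 (by linear_combination hc)
    exact hP (funext fun i => by fin_cases i <;> simp [hx, hy, hz])
  · have hx : P 0 = 0 := by
      rw [e2] at e0 h
      have h3 : P 1 ^ 2 = P 0 ^ 3 := by linear_combination h
      have : P 0 ^ 4 = 0 := by linear_combination e0 + 8 * P 0 * h3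
      exact pow_eq_zero_iff four_ne_zero |>.1 this
    have hy : P 1 = 0 := by
      rw [e2, hx] at h
      exact pow_eq_zero_iff two_ne_zero |>.1 (by linear_combination h)
    exact hP (funext fun i => by fin_cases i <;> simp [hx, hy, e2])

/-- multiplication by two -/
def dbl [CharZero k] {a b : k} {h : 4 * a ^ 3 + 27 * b ^ 2 ≠ 0} (P : (Src.ell a b h).Pt) :
    (Src.ell a b h).Pt :=
  ⟨dbl3 a P.1, dbl3_ne two_ne_zero h P.2.1 P.2.2, dbl3_eq P.2.2⟩

theorem reg_dbl [CharZero k] {a b : k} {h : 4 * a ^ 3 + 27 * b ^ 2 ≠ 0} {D : ℕ}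
    {f : (Src.ell a b h).Pt → k} (hf : (Src.ell a b h).Reg D f) :
    (Src.ell a b h).Reg (D * 4) fun P => f (dbl P) := by
  obtain ⟨p, hp, hp'⟩ := hf
  have hx := reg_x (a := a) (b := b) (h := h)
  have hy := reg_y (a := a) (b := b) (h := h)
  have hz := reg_z (a := a) (b := b) (h := h)
  have hM : (Src.ell a b h).Reg 4 fun P => 3 * P.1 0 ^ 2 + a * P.1 2 ^ 4 :=
    reg_add (reg_cmul 3 (reg_pow hx 2)) (reg_cmul a (reg_pow hz 4))
  have hxy : (Src.ell a b h).Reg 8 fun P => P.1 0 * P.1 1 ^ 2 := reg_mul hx (reg_pow hy 2)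
  have u0 : (Src.ell a b h).Reg 8 fun P => dbl3 a P.1 0 := by
    have := reg_sub (reg_pow hM 2) (reg_cmul 8 hxy)
    refine (congrArg ((Src.ell a b h).Reg 8) (funext fun P => ?_)).mp this
    simp only [dbl3, Matrix.cons_val]
    ring
  have u1 : (Src.ell a b h).Reg 12 fun P => dbl3 a P.1 1 := by
    have := reg_sub (reg_mul hM (reg_sub (reg_cmul 4 hxy) u0)) (reg_cmul 8 (reg_pow hy 4))
    refine (congrArg ((Src.ell a b h).Reg 12) (funext fun P => ?_)).mp this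
    simp only [dbl3, Matrix.cons_val]
    ring
  have u2 : (Src.ell a b h).Reg 4 fun P => dbl3 a P.1 2 := by
    have := reg_cmul 2 (reg_mul hy hz)
    refine (congrArg ((Src.ell a b h).Reg 4) (funext fun P => ?_)).mp this
    simp only [dbl3, Matrix.cons_val]
    ring
  have := reg_eval (s := Src.ell a b h) (u := fun i P => dbl3 a P.1 i) (E := 4) u0 u1 u2 hp
  refine (congrArg ((Src.ell a b h).Reg (D * 4)) (funext fun P => ?_)).mp this
  exact (hp' (dbl P)).symm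

theorem reg_iter [CharZero k] {a b : k} {h : 4 * a ^ 3 + 27 * b ^ 2 ≠ 0} {D : ℕ}
    {f : (Src.ell a b h).Pt → k} (hf : (Src.ell a b h).Reg D f) (N : ℕ) :
    (Src.ell a b h).Reg (D * 4 ^ N) fun P => f (dbl^[N] P) := by
  induction N with
  | zero => simpa using hf
  | succ N ih =>
    have := reg_dbl ih
    rw [mul_assoc, ← pow_succ] at this
    exact this

/-- a parameter on an elliptic curve -/
theorem par_ell [IsAlgClosed k] {a b : k} {h : 4 * a ^ 3 + 27 * b ^ 2 ≠ 0} {D : ℕ} (hD : 0 < D)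
    {S T : (Src.ell a b h).Pt → k} (hS : (Src.ell a b h).Reg D S) (hT : (Src.ell a b h).Reg D T)
    (hne : ∀ P, S P ≠ 0 ∨ T P ≠ 0) : Par (Src.ell a b h) D S T := by
  obtain ⟨P, hP⟩ := exists_zero hD hT
  obtain ⟨P', hP'⟩ := exists_zero hD hS
  refine ⟨hS, hT, hne, ⟨P, P', ?_⟩, ⟨P, hP⟩⟩
  rw [hP, hP', zero_mul]
  exact mul_ne_zero ((hne P).resolve_right fun h => h hP) ((hne P').resolve_left fun h => h hP')

theorem par_iter [IsAlgClosed k] [CharZero k] {a b : k} {h : 4 * a ^ 3 + 27 * b ^ 2 ≠ 0} {D : ℕ}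
    (hD : 0 < D) {S T : (Src.ell a b h).Pt → k} (hPar : Par (Src.ell a b h) D S T) (N : ℕ) :
    Par (Src.ell a b h) (D * 4 ^ N) (fun P => S (dbl^[N] P)) fun P => T (dbl^[N] P) :=
  par_ell (by positivity) (reg_iter hPar.hS N) (reg_iter hPar.hT N) fun P => hPar.ne _

end Pool.Agent.W600.Alg
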