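import Pool.Agent.W600.Alg.Src

/-!
# Maps from one-dimensional groups to the projective line with Euclidean orbifold structure
-/

set_option autoImplicit false

namespace Pool.Agent.W600.Alg

open MvPolynomial

variable {k : Type*} [Field k]

/-- a non-constant map `[S : T]` of degree `D` to the projective line, that takes the value
`[1 : 0]` -/
structure Par (s : Src k) (D : ℕ) (S T : s.Pt → k) : Prop where
  hS : s.Reg D S
  hT : s.Reg D T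
  ne : ∀ P, S P ≠ 0 ∨ T P ≠ 0
  nc : ∃ P P', S P * T P' ≠ S P' * T P
  hit : ∃ P, T P = 0

/-- `S + c T` is an `N`-th power -/
def PowerOn (s : Src k) (D : ℕ) (S T : s.Pt → k) (c : k) (N : ℕ) : Prop :=
  ∃ (M : ℕ) (h : s.Pt → k), N * M = D ∧ s.Reg M h ∧ ∀ P, S P + c * T P = h P ^ N

theorem PowerOn.mono {s : Src k} {D : ℕ} {S T : s.Pt → k} {c : k} {N M : ℕ}
    (h : PowerOn s D S T c N) (hM : M ∣ N) : PowerOn s D S T c M := by
  obtain ⟨E, y, hE, hy, hy'⟩ := h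
  obtain ⟨q, rfl⟩ := hM
  exact ⟨q * E, fun P => y P ^ q, by rw [← hE, mul_assoc], reg_pow hy q,
    fun P => by rw [hy', mul_comm M q, pow_mul]⟩

/-- from two functions -/
theorem par_of {s : Src k} {D : ℕ} {A B : s.Pt → k} (hA : s.Reg D A) (hB : s.Reg D B)
    (hAB : ∀ P, A P ≠ 0 ∨ B P ≠ 0) (hne : ∃ P P', A P * B P' ≠ A P' * B P)
    (hit : ∃ P, A P = B P) {c0 c1 : k}
    (h : c0 ≠ c1) : ∃ S T, Par s D S T ∧
      ∀ c P, S P + c * T P = ((c - c1) * A P + (c0 - c) * B P) / (c0 - c1) := by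
  have h' : c0 - c1 ≠ 0 := sub_ne_zero.2 h
  refine ⟨fun P => A P - c0 * ((c0 - c1)⁻¹ * (A P - B P)), fun P => (c0 - c1)⁻¹ * (A P - B P),
    ?_, ?_⟩
  · refine ⟨?_, ?_, fun P => ?_, ?_, ?_⟩
    · exact reg_sub hA (reg_cmul _ (reg_cmul _ (reg_sub hA hB)))
    · exact reg_cmul _ (reg_sub hA hB)
    · by_contra hcon
      push Not at hcon
      obtain ⟨e1, e2⟩ := hcon
      rw [e2, mul_zero, sub_zero] at e1
      rw [e1, mul_eq_zero] at e2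
      rcases e2 with e2 | e2
      · exact (inv_ne_zero h') e2
      · rcases hAB P with h3 | h3
        · exact h3 e1
        · exact h3 (by linear_combination -e2)
    · obtain ⟨z, z', hz⟩ := hne
      refine ⟨z, z', fun h2 => hz ?_⟩
      have h3 : (c0 - c1) * (A z * (A z' - B z')) = (c0 - c1) * (A z' * (A z - B z)) := by
        field_simp at h2
        linear_combination h2
      have h4 := mul_left_cancel₀ h' h3
      linear_combination -h4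
    · obtain ⟨P, hP⟩ := hit
      exact ⟨P, by rw [hP, sub_self, mul_zero]⟩
  · intro c P
    field_simp
    ring

theorem powerOn_of [IsAlgClosed k] {s : Src k} {D M : ℕ} {S T h : s.Pt → k} {c a : k} {N : ℕ}
    (hN : N ≠ 0) (hM : N * M = D) (hh : s.Reg M h)
    (H : ∀ P, S P + c * T P = a * h P ^ N) : PowerOn s D S T c N := by
  obtain ⟨ρ, hρ⟩ := IsAlgClosed.exists_pow_nat_eq a (Nat.pos_of_ne_zero hN)
  exact ⟨M, fun P => ρ * h P, hM, reg_cmul ρ hh, fun P => by rw [H, mul_pow, hρ]⟩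

/-- non-proportionality -/
theorem nonprop {s : Src k} {A B : s.Pt → k} {P P' : s.Pt} (h0 : B P = 0) (h1 : B P' ≠ 0)
    (h2 : A P ≠ 0) : ∃ P P', A P * B P' ≠ A P' * B P :=
  ⟨P, P', by rw [h0, mul_zero]; exact mul_ne_zero h2 h1⟩

section

variable [IsAlgClosed k]

/-- the point at infinity -/
def inft (a b : k) (h : 4 * a ^ 3 + 27 * b ^ 2 ≠ 0) : (Src.ell a b h).Pt :=
  ⟨![1, 1, 0], by
    constructor
    · intro h
      have := congrFun h 0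
      simp at this
    · simp⟩

/-- on an elliptic curve two functions of the same positive degree agree at some point -/
theorem hit_ell {a b : k} {h : 4 * a ^ 3 + 27 * b ^ 2 ≠ 0} {D : ℕ} (hD : 0 < D)
    {A B : (Src.ell a b h).Pt → k} (hA : (Src.ell a b h).Reg D A)
    (hB : (Src.ell a b h).Reg D B) : ∃ P, A P = B P := by
  obtain ⟨P, hP⟩ := exists_zero hD (reg_sub hA hB)
  exact ⟨P, sub_eq_zero.1 hP⟩

end

section

variable [IsAlgClosed k] [CharZero k]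

/-- type `(2,2,2,2)` -/
theorem jacobi (lam : k) (h0 : lam ≠ 0) (h1 : lam ≠ 1) :
    ∃ (a b : k) (h : 4 * a ^ 3 + 27 * b ^ 2 ≠ 0) (Φ : Fin 4 → (Src.ell a b h).Pt → k),
      (∀ i, (Src.ell a b h).Reg 4 (Φ i)) ∧ (∀ P, Φ 2 P ^ 2 = Φ 0 P ^ 2 - Φ 1 P ^ 2) ∧
      (∀ P, Φ 3 P ^ 2 = Φ 0 P ^ 2 - lam * Φ 1 P ^ 2) ∧ (∀ P, Φ 0 P ≠ 0 ∨ Φ 1 P ≠ 0) ∧
      ∃ P P', Φ 1 P = 0 ∧ Φ 1 P' ≠ 0 ∧ Φ 0 P ≠ 0 := by
  classical
  have h3 : (3 : k) ≠ 0 := three_ne_zero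
  obtain ⟨e1, he1⟩ : ∃ e : k, 3 * e = -(1 + lam) := ⟨-(1 + lam) / 3, by field_simp⟩
  obtain ⟨e2, he2⟩ : ∃ e : k, e = e1 + 1 := ⟨_, rfl⟩
  obtain ⟨e3, he3⟩ : ∃ e : k, e = e1 + lam := ⟨_, rfl⟩
  have hlam : lam = -(1 + 3 * e1) := by linear_combination he1
  obtain ⟨a, ha⟩ : ∃ a : k, a = e1 * e2 + e1 * e3 + e2 * e3 := ⟨_, rfl⟩
  obtain ⟨b, hb⟩ : ∃ b : k, b = -(e1 * e2 * e3) := ⟨_, rfl⟩
  have hdisc : 4 * a ^ 3 + 27 * b ^ 2 = -(lam * (lam - 1)) ^ 2 := by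
    rw [ha, hb, he3, he2, hlam]
    ring
  have hab : 4 * a ^ 3 + 27 * b ^ 2 ≠ 0 := by
    rw [hdisc, neg_ne_zero]
    exact pow_ne_zero 2 (mul_ne_zero h0 (sub_ne_zero.2 h1))
  have hx : ∀ i : ℕ, (Src.ell a b hab).Reg (i * 2) fun P => P.1 0 ^ i := fun i => reg_pow reg_x i
  have hz : ∀ i : ℕ, (Src.ell a b hab).Reg (i * 1) fun P => P.1 2 ^ i := fun i => reg_pow reg_z i
  have hN : ∀ c c' : k, (Src.ell a b hab).Reg 4
      fun P => P.1 0 ^ 2 + c * (P.1 0 * P.1 2 ^ 2) + c' * P.1 2 ^ 4 := fun c c' =>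
    reg_add (reg_add (hx 2) (reg_cmul c (reg_mul reg_x (hz 2)))) (reg_cmul c' (hz 4))
  -- `(x - e z²)² - d z⁴`
  let Φ0 : (Src.ell a b hab).Pt → k := fun P =>
    P.1 0 ^ 2 + (-2 * e1) * (P.1 0 * P.1 2 ^ 2) + (e1 ^ 2 - lam) * P.1 2 ^ 4
  let Φ1 : (Src.ell a b hab).Pt → k := fun P => 2 * (P.1 1 * P.1 2)
  let Φ2 : (Src.ell a b hab).Pt → k := fun P =>
    P.1 0 ^ 2 + (-2 * e2) * (P.1 0 * P.1 2 ^ 2) + (e2 ^ 2 - (1 - lam)) * P.1 2 ^ 4
  let Φ3 : (Src.ell a b hab).Pt → k := fun P =>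
    P.1 0 ^ 2 + (-2 * e3) * (P.1 0 * P.1 2 ^ 2) + (e3 ^ 2 - lam * (lam - 1)) * P.1 2 ^ 4
  refine ⟨a, b, hab, ![Φ0, Φ1, Φ2, Φ3], ?_, ?_, ?_, ?_, ?_⟩
  · intro i
    fin_cases i
    · exact hN _ _
    · exact reg_cmul 2 (reg_mul reg_y reg_z)
    · exact hN _ _
    · exact hN _ _
  · intro P
    obtain ⟨P, hP0, hP⟩ := P
    show (P 0 ^ 2 + (-2 * e2) * (P 0 * P 2 ^ 2) + (e2 ^ 2 - (1 - lam)) * P 2 ^ 4) ^ 2 =
      (P 0 ^ 2 + (-2 * e1) * (P 0 * P 2 ^ 2) + (e1 ^ 2 - lam) * P 2 ^ 4) ^ 2 -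
        (2 * (P 1 * P 2)) ^ 2
    have e : (2 * (P 1 * P 2)) ^ 2 = 4 * P 2 ^ 2 * (P 0 ^ 3 + a * P 0 * P 2 ^ 4 + b * P 2 ^ 6) := by
      rw [← hP]
      ring
    rw [e, ha, hb, he3, he2, hlam]
    ring
  · intro P
    obtain ⟨P, hP0, hP⟩ := P
    show (P 0 ^ 2 + (-2 * e3) * (P 0 * P 2 ^ 2) + (e3 ^ 2 - lam * (lam - 1)) * P 2 ^ 4) ^ 2 =
      (P 0 ^ 2 + (-2 * e1) * (P 0 * P 2 ^ 2) + (e1 ^ 2 - lam) * P 2 ^ 4) ^ 2 -
        lam * (2 * (P 1 * P 2)) ^ 2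
    have e : (2 * (P 1 * P 2)) ^ 2 = 4 * P 2 ^ 2 * (P 0 ^ 3 + a * P 0 * P 2 ^ 4 + b * P 2 ^ 6) := by
      rw [← hP]
      ring
    rw [e, ha, hb, he3, he2, hlam]
    ring
  · rintro ⟨P, hP0, hP⟩
    by_contra hcon
    push Not at hcon
    obtain ⟨c0, c1⟩ := hcon
    have c0 : P 0 ^ 2 + (-2 * e1) * (P 0 * P 2 ^ 2) + (e1 ^ 2 - lam) * P 2 ^ 4 = 0 := c0
    have c1 : 2 * (P 1 * P 2) = 0 := c1
    have c1' : P 1 = 0 ∨ P 2 = 0 := by
      rcases mul_eq_zero.1 c1 with h | h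
      · exact absurd h two_ne_zero
      · exact mul_eq_zero.1 h
    have hz2 : P 2 = 0 := by
      rcases c1' with h | h
      · -- y = 0
        have hfac : (P 0 - e1 * P 2 ^ 2) * ((P 0 - e2 * P 2 ^ 2) * (P 0 - e3 * P 2 ^ 2)) = 0 := by
          have : (P 0 - e1 * P 2 ^ 2) * ((P 0 - e2 * P 2 ^ 2) * (P 0 - e3 * P 2 ^ 2)) =
              P 0 ^ 3 + a * P 0 * P 2 ^ 4 + b * P 2 ^ 6 := by
            rw [ha, hb, he3, he2, hlam]
            ring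
          rw [this, ← hP, h]
          ring
        have hz4 : P 2 ^ 4 = 0 := by
          rcases mul_eq_zero.1 hfac with h | h
          · have : lam * P 2 ^ 4 = 0 := by
              linear_combination -c0 + (P 0 - e1 * P 2 ^ 2) * h
            exact (mul_eq_zero.1 this).resolve_left h0
          · rcases mul_eq_zero.1 h with h | h
            · have hx : P 0 = e1 * P 2 ^ 2 + P 2 ^ 2 := by rw [he2] at h; linear_combination h
              have : (1 - lam) * P 2 ^ 4 = 0 := by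
                rw [hx] at c0
                linear_combination c0
              exact (mul_eq_zero.1 this).resolve_left (sub_ne_zero.2 h1.symm)
            · have hx : P 0 = e1 * P 2 ^ 2 + lam * P 2 ^ 2 := by
                rw [he3] at h; linear_combination h
              have : (lam * (lam - 1)) * P 2 ^ 4 = 0 := by
                rw [hx] at c0
                linear_combination c0
              exact (mul_eq_zero.1 this).resolve_left (mul_ne_zero h0 (sub_ne_zero.2 h1))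
        exact pow_eq_zero_iff (four_ne_zero) |>.1 hz4
      · exact h
    have hx0 : P 0 = 0 := by
      rw [hz2] at c0
      exact pow_eq_zero_iff (two_ne_zero) |>.1 (by linear_combination c0)
    have hy0 : P 1 = 0 := by
      rw [hz2, hx0] at hP
      exact pow_eq_zero_iff (two_ne_zero) |>.1 (by linear_combination hP)
    exact hP0 (funext fun i => by fin_cases i <;> simp [hx0, hy0, hz2])
  · -- a point with `y z ≠ 0`
    obtain ⟨x, hx⟩ : ∃ x : k, (x - e1) * ((x - e2) * (x - e3)) ≠ 0 := by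
      have := Infinite.exists_notMem_finset ({e1, e2, e3} : Finset k)
      obtain ⟨x, hx⟩ := this
      simp only [Finset.mem_insert, Finset.mem_singleton, not_or] at hx
      exact ⟨x, mul_ne_zero (sub_ne_zero.2 hx.1) (mul_ne_zero (sub_ne_zero.2 hx.2.1)
        (sub_ne_zero.2 hx.2.2))⟩
    obtain ⟨y, hy⟩ := IsAlgClosed.exists_pow_nat_eq ((x - e1) * ((x - e2) * (x - e3))) two_pos
    have hy0 : y ≠ 0 := by
      rintro rfl
      exact hx (by rw [← hy]; simp)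
    refine ⟨inft a b hab, ⟨![x, y, 1], ?_, ?_⟩, ?_, ?_, ?_⟩
    · intro h
      have := congrFun h 2
      simp at this
    · simp only [Matrix.cons_val]
      rw [hy, ha, hb, he3, he2, hlam]
      ring
    · show 2 * ((![(1 : k), 1, 0] : Fin 3 → k) 1 * (![(1 : k), 1, 0] : Fin 3 → k) 2) = 0
      simp
    · show 2 * ((![x, y, 1] : Fin 3 → k) 1 * (![x, y, 1] : Fin 3 → k) 2) ≠ 0
      simp [hy0]
    · show ((![(1 : k), 1, 0] : Fin 3 → k) 0) ^ 2 + (-2 * e1) * ((![(1 : k), 1, 0] : Fin 3 → k) 0 *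
        ((![(1 : k), 1, 0] : Fin 3 → k) 2) ^ 2) + (e1 ^ 2 - lam) *
          ((![(1 : k), 1, 0] : Fin 3 → k) 2) ^ 4 ≠ 0
      simp

/-- type `(3,3,3)` -/
theorem fermat : ∃ (a b : k) (h : 4 * a ^ 3 + 27 * b ^ 2 ≠ 0) (Φ : Fin 3 → (Src.ell a b h).Pt → k),
      (∀ i, (Src.ell a b h).Reg 3 (Φ i)) ∧ (∀ P, Φ 0 P ^ 3 + Φ 1 P ^ 3 + Φ 2 P ^ 3 = 0) ∧
      (∀ P, Φ 0 P ≠ 0 ∨ Φ 2 P ≠ 0) ∧
      ∃ P P', Φ 2 P = 0 ∧ Φ 2 P' ≠ 0 ∧ Φ 0 P ≠ 0 := by
  obtain ⟨c, hc⟩ := IsAlgClosed.exists_pow_nat_eq (-3 : k) two_pos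
  obtain ⟨ρ, hρ⟩ := IsAlgClosed.exists_pow_nat_eq (6 * c : k) three_pos
  have hc0 : c ≠ 0 := by
    rintro rfl
    have : (3 : k) = 0 := by linear_combination hc
    exact three_ne_zero this
  have hρ0 : ρ ≠ 0 := by
    rintro rfl
    have : (6 : k) * c = 0 := by rw [← hρ]; simp
    rcases mul_eq_zero.1 this with h | h
    · norm_num at h
    · exact hc0 h
  have hab : 4 * (0 : k) ^ 3 + 27 * (1 : k) ^ 2 ≠ 0 := by norm_num
  have hz3 : (Src.ell 0 1 hab).Reg 3 fun P => P.1 2 ^ 3 := reg_pow reg_z 3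
  let Φ0 : (Src.ell 0 1 hab).Pt → k := fun P => P.1 1 + (-c) * P.1 2 ^ 3
  let Φ1 : (Src.ell 0 1 hab).Pt → k := fun P => -1 * P.1 1 + (-c) * P.1 2 ^ 3
  let Φ2 : (Src.ell 0 1 hab).Pt → k := fun P => ρ * (P.1 0 * P.1 2)
  refine ⟨0, 1, hab, ![Φ0, Φ1, Φ2], ?_, ?_, ?_, ?_⟩
  · intro i
    fin_cases i
    · exact reg_add reg_y (reg_cmul _ hz3)
    · exact reg_add (reg_cmul _ reg_y) (reg_cmul _ hz3)
    · exact reg_cmul _ (reg_mul reg_x reg_z)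
  · rintro ⟨P, hP0, hP⟩
    show (P 1 + (-c) * P 2 ^ 3) ^ 3 + (-1 * P 1 + (-c) * P 2 ^ 3) ^ 3 + (ρ * (P 0 * P 2)) ^ 3 = 0
    have e : (ρ * (P 0 * P 2)) ^ 3 = 6 * c * (P 2 ^ 3 * (P 1 ^ 2 - P 2 ^ 6)) := by
      rw [hP, mul_pow, hρ]
      ring
    rw [e]
    linear_combination (-2 * c * P 2 ^ 9) * hc
  · rintro ⟨P, hP0, hP⟩
    by_contra hcon
    push Not at hcon
    obtain ⟨c0, c1⟩ := hcon
    have c0 : P 1 + (-c) * P 2 ^ 3 = 0 := c0
    have c1 : ρ * (P 0 * P 2) = 0 := c1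
    have c1' : P 0 = 0 ∨ P 2 = 0 := by
      rcases mul_eq_zero.1 c1 with h | h
      · exact absurd h hρ0
      · exact mul_eq_zero.1 h
    have hy : P 1 = c * P 2 ^ 3 := by linear_combination c0
    have hz : P 2 = 0 := by
      rcases c1' with h | h
      · rw [h, hy] at hP
        have : 4 * P 2 ^ 6 = 0 := by linear_combination (-1 : k) * hP + (P 2 ^ 6) * hc
        rcases mul_eq_zero.1 this with h | h
        · norm_num at h
        · exact pow_eq_zero_iff (by norm_num) |>.1 h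
      · exact h
    have hy0 : P 1 = 0 := by rw [hy, hz]; ring
    have hx0 : P 0 = 0 := by
      rw [hz, hy0] at hP
      exact pow_eq_zero_iff (three_ne_zero) |>.1 (by linear_combination -hP)
    exact hP0 (funext fun i => by fin_cases i <;> simp [hx0, hy0, hz])
  · obtain ⟨y, hy⟩ := IsAlgClosed.exists_pow_nat_eq (2 : k) two_pos
    refine ⟨inft 0 1 hab, ⟨![1, y, 1], ?_, ?_⟩, ?_, ?_, ?_⟩
    · intro h
      have := congrFun h 2
      simp at this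
    · simp only [Matrix.cons_val]
      rw [hy]
      ring
    · show ρ * ((![(1 : k), 1, 0] : Fin 3 → k) 0 * (![(1 : k), 1, 0] : Fin 3 → k) 2) = 0
      simp
    · show ρ * ((![1, y, 1] : Fin 3 → k) 0 * (![1, y, 1] : Fin 3 → k) 2) ≠ 0
      simp [hρ0]
    · show (![(1 : k), 1, 0] : Fin 3 → k) 1 + (-c) * (![(1 : k), 1, 0] : Fin 3 → k) 2 ^ 3 ≠ 0
      simp

/-- type `(2,4,4)` -/
theorem quartic : ∃ (a b : k) (h : 4 * a ^ 3 + 27 * b ^ 2 ≠ 0)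
      (Φ0 Φ1 Φ2 : (Src.ell a b h).Pt → k),
      (Src.ell a b h).Reg 4 Φ0 ∧ (Src.ell a b h).Reg 4 Φ1 ∧ (Src.ell a b h).Reg 8 Φ2 ∧
      (∀ P, Φ0 P ^ 4 + Φ1 P ^ 4 = Φ2 P ^ 2) ∧
      (∀ P, Φ0 P ≠ 0 ∨ Φ1 P ≠ 0) ∧
      ∃ P P', Φ1 P = 0 ∧ Φ1 P' ≠ 0 ∧ Φ0 P ≠ 0 := by
  obtain ⟨ζ, hζ⟩ := IsAlgClosed.exists_pow_nat_eq (-1 : k) four_pos
  have hζ0 : ζ ≠ 0 := by
    rintro rfl
    have : (1 : k) = 0 := by linear_combination hζ
    exact one_ne_zero this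
  have hab : 4 * (-1 : k) ^ 3 + 27 * (0 : k) ^ 2 ≠ 0 := by norm_num
  have hx : ∀ i : ℕ, (Src.ell (-1) 0 hab).Reg (i * 2) fun P => P.1 0 ^ i := fun i => reg_pow reg_x i
  have hz : ∀ i : ℕ, (Src.ell (-1) 0 hab).Reg (i * 1) fun P => P.1 2 ^ i := fun i => reg_pow reg_z i
  have hN : ∀ c c' : k, (Src.ell (-1) 0 hab).Reg 4
      fun P => P.1 0 ^ 2 + c * (P.1 0 * P.1 2 ^ 2) + c' * P.1 2 ^ 4 := fun c c' =>
    reg_add (reg_add (hx 2) (reg_cmul c (reg_mul reg_x (hz 2)))) (reg_cmul c' (hz 4))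
  let Φ0 : (Src.ell (-1) 0 hab).Pt → k := fun P =>
    P.1 0 ^ 2 + 0 * (P.1 0 * P.1 2 ^ 2) + 1 * P.1 2 ^ 4
  let Φ1 : (Src.ell (-1) 0 hab).Pt → k := fun P => (2 * ζ) * (P.1 1 * P.1 2)
  let Φ2 : (Src.ell (-1) 0 hab).Pt → k := fun P =>
    (P.1 0 ^ 2 + 2 * (P.1 0 * P.1 2 ^ 2) + (-1) * P.1 2 ^ 4) *
      (P.1 0 ^ 2 + (-2) * (P.1 0 * P.1 2 ^ 2) + (-1) * P.1 2 ^ 4)
  refine ⟨-1, 0, hab, Φ0, Φ1, Φ2, hN _ _, reg_cmul _ (reg_mul reg_y reg_z),
    reg_mul (hN _ _) (hN _ _), ?_, ?_, ?_⟩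
  · rintro ⟨P, hP0, hP⟩
    show (P 0 ^ 2 + 0 * (P 0 * P 2 ^ 2) + 1 * P 2 ^ 4) ^ 4 + ((2 * ζ) * (P 1 * P 2)) ^ 4 =
      ((P 0 ^ 2 + 2 * (P 0 * P 2 ^ 2) + (-1) * P 2 ^ 4) *
        (P 0 ^ 2 + (-2) * (P 0 * P 2 ^ 2) + (-1) * P 2 ^ 4)) ^ 2
    have e : ((2 * ζ) * (P 1 * P 2)) ^ 4 =
        16 * ζ ^ 4 * P 2 ^ 4 * (P 0 ^ 3 + (-1) * P 0 * P 2 ^ 4 + 0 * P 2 ^ 6) ^ 2 := by
      rw [← hP]
      ring
    rw [e, hζ]
    ring
  · rintro ⟨P, hP0, hP⟩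
    by_contra hcon
    push Not at hcon
    obtain ⟨c0, c1⟩ := hcon
    have c0 : P 0 ^ 2 + 0 * (P 0 * P 2 ^ 2) + 1 * P 2 ^ 4 = 0 := c0
    have c1 : (2 * ζ) * (P 1 * P 2) = 0 := c1
    have c1' : P 1 = 0 ∨ P 2 = 0 := by
      rcases mul_eq_zero.1 c1 with h | h
      · exact absurd h (mul_ne_zero two_ne_zero hζ0)
      · exact mul_eq_zero.1 h
    have hz : P 2 = 0 := by
      rcases c1' with h | h
      · rw [h] at hP
        have hf : P 0 * (P 0 ^ 2 - P 2 ^ 4) = 0 := by linear_combination -hP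
        have hz4 : P 2 ^ 4 = 0 := by
          rcases mul_eq_zero.1 hf with h | h
          · rw [h] at c0
            linear_combination c0
          · have : 2 * P 2 ^ 4 = 0 := by linear_combination c0 - h
            exact (mul_eq_zero.1 this).resolve_left two_ne_zero
        exact pow_eq_zero_iff (four_ne_zero) |>.1 hz4
      · exact h
    have hx0 : P 0 = 0 := by
      rw [hz] at c0
      exact pow_eq_zero_iff (two_ne_zero) |>.1 (by linear_combination c0)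
    have hy0 : P 1 = 0 := by
      rw [hz, hx0] at hP
      exact pow_eq_zero_iff (two_ne_zero) |>.1 (by linear_combination hP)
    exact hP0 (funext fun i => by fin_cases i <;> simp [hx0, hy0, hz])
  · obtain ⟨y, hy⟩ := IsAlgClosed.exists_pow_nat_eq (6 : k) two_pos
    have hy0 : y ≠ 0 := by
      rintro rfl
      have : (6 : k) = 0 := by rw [← hy]; simp
      norm_num at this
    refine ⟨inft (-1) 0 hab, ⟨![2, y, 1], ?_, ?_⟩, ?_, ?_, ?_⟩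
    · intro h
      have := congrFun h 2
      simp at this
    · simp only [Matrix.cons_val]
      rw [hy]
      norm_num
    · show (2 * ζ) * ((![(1 : k), 1, 0] : Fin 3 → k) 1 * (![(1 : k), 1, 0] : Fin 3 → k) 2) = 0
      simp
    · show (2 * ζ) * ((![2, y, 1] : Fin 3 → k) 1 * (![2, y, 1] : Fin 3 → k) 2) ≠ 0
      simp [hζ0, hy0]
    · show (![(1 : k), 1, 0] : Fin 3 → k) 0 ^ 2 + 0 * ((![(1 : k), 1, 0] : Fin 3 → k) 0 *
        (![(1 : k), 1, 0] : Fin 3 → k) 2 ^ 2) + 1 * (![(1 : k), 1, 0] : Fin 3 → k) 2 ^ 4 ≠ 0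
      simp

end

end Pool.Agent.W600.Alg
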