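import Pool.Agent.W600.Alg.Cases

/-!
# Morphisms to multi-cyclic covers of complete intersections
-/

set_option autoImplicit false

namespace Pool.Agent.W600.Alg

open MvPolynomial

section

variable {k : Type*} [Field k]

/-- The cone over the quasi-projective variety `X` with the equations `G = 0`, `w i ^ m i = F i (x)`
and the condition `B (x) ≠ 0`. -/
def Pts {n r g : ℕ} (m : Fin r → ℕ) (F : Fin r → MvPolynomial (Fin (n + 1)) k)
    (G : Fin g → MvPolynomial (Fin (n + 1)) k) (B : MvPolynomial (Fin (n + 1)) k) :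
    Set ((Fin (n + 1) → k) × (Fin r → k)) :=
  {P | P.1 ≠ 0 ∧ (∀ i, P.2 i ^ m i = eval P.1 (F i)) ∧ (∀ i, eval P.1 (G i) = 0) ∧
    eval P.1 B ≠ 0}

/-- two points of the cone lie over the same point of the weighted projective space
`P(1, …, 1, e 1, …, e r)` -/
def Same {n r : ℕ} (e : Fin r → ℕ) (P Q : (Fin (n + 1) → k) × (Fin r → k)) : Prop :=
  ∃ a : k, a ≠ 0 ∧ (∀ j, Q.1 j = a * P.1 j) ∧ ∀ i, Q.2 i = a ^ e i * P.2 i

/-- The coordinates of `f` are regular, and of degree `D`, `D * e i` in the case of an elliptic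
curve. -/
def IsMor {n r : ℕ} (e : Fin r → ℕ) (s : Src k) (D : ℕ)
    (f : s.Pt → (Fin (n + 1) → k) × (Fin r → k)) : Prop :=
  (∀ j, s.Reg D fun t => (f t).1 j) ∧ ∀ i, s.Reg (D * e i) fun t => (f t).2 i

/-- the points of the curve are different -/
theorem not_same {n r : ℕ} {e : Fin r → ℕ} {p v : Fin (n + 1) → k}
    (hv : ∀ a b : k, (fun j => a * p j + b * v j) = 0 → a = 0 ∧ b = 0) {S T S' T' : k}
    {w w' : Fin r → k}
    (h : Same e ((fun j => S * p j + T * v j, w) : (Fin (n + 1) → k) × (Fin r → k))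
      (fun j => S' * p j + T' * v j, w')) : S * T' = S' * T := by
  obtain ⟨a, -, h, -⟩ := h
  obtain ⟨h1, h2⟩ := hv (S' - a * S) (T' - a * T) (by
    funext j
    have := h j
    simp only at this
    simp only [Pi.zero_apply]
    linear_combination this)
  linear_combination -T * h1 + S * h2

end

variable {k : Type*} [Field k] {n r g : ℕ}

/-- a curve through the given point -/
theorem exists_map {m e : Fin r → ℕ} (hm : ∀ i, 0 < m i)
    {F : Fin r → MvPolynomial (Fin (n + 1)) k} (hF : ∀ i, (F i).IsHomogeneous (m i * e i))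
    {G : Fin g → MvPolynomial (Fin (n + 1)) k} {B : MvPolynomial (Fin (n + 1)) k}
    {P : (Fin (n + 1) → k) × (Fin r → k)} (hP : P ∈ Pts m F G B)
    (hPF : ∀ i, eval P.1 (F i) ≠ 0) {v : Fin (n + 1) → k}
    (hv : ∀ a b : k, (fun j => a * P.1 j + b * v j) = 0 → a = 0 ∧ b = 0)
    {s : Src k} {D : ℕ} {S T : s.Pt → k} (hPar : Par s D S T) {W : Fin r → s.Pt → k}
    (hW : ∀ i, s.Reg (D * e i) (W i))
    (hX : ∀ z, (∀ i, W i z ^ m i = eval (fun j => S z * P.1 j + T z * v j) (F i)) ∧
        (∀ i, eval (fun j => S z * P.1 j + T z * v j) (G i) = 0) ∧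
        eval (fun j => S z * P.1 j + T z * v j) B ≠ 0) :
    ∃ f : s.Pt → (Fin (n + 1) → k) × (Fin r → k), IsMor e s D f ∧ (∀ t, f t ∈ Pts m F G B) ∧
      (∃ t, Same e P (f t)) ∧ (∃ t t', ¬ Same e (f t) (f t')) ∧
      ∀ t, (f t).1 ∈ Submodule.span k {P.1, v} := by
  obtain ⟨p, w⟩ := P
  obtain ⟨hp0, hpw, hpG, hpB⟩ := hP
  simp only at hPF hv hpw hX
  obtain ⟨t0, ht0⟩ := hPar.hit
  have hS0 : S t0 ≠ 0 := (hPar.ne t0).resolve_right fun h => h ht0
  have hline : (fun j => S t0 * p j + T t0 * v j) = fun j => S t0 * p j := by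
    funext j
    rw [ht0]
    ring
  have hWz : ∀ i, W i t0 ^ m i = (S t0 ^ e i * w i) ^ m i := by
    intro i
    rw [(hX t0).1 i, hline, eval_scale (hF i), mul_pow, hpw, ← pow_mul, mul_comm (e i)]
  have hWne : ∀ i, W i t0 ≠ 0 := by
    intro i h0
    have h1 := hWz i
    rw [h0, zero_pow (hm i).ne', mul_pow, hpw] at h1
    rcases mul_eq_zero.1 h1.symm with h2 | h2
    · exact pow_ne_zero _ (pow_ne_zero _ hS0) h2
    · exact hPF i h2
  obtain ⟨ζ, hζ⟩ : ∃ ζ : Fin r → k, ∀ i, ζ i = S t0 ^ e i * w i / W i t0 := ⟨_, fun _ => rfl⟩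
  have hζ1 : ∀ i, ζ i ^ m i = 1 := by
    intro i
    rw [hζ, div_pow, ← hWz, div_self (pow_ne_zero _ (hWne i))]
  refine ⟨fun t => (fun j => S t * p j + T t * v j, fun i => ζ i * W i t),
    ⟨fun j => ?_, fun i => reg_cmul _ (hW i)⟩, fun t => ⟨?_, fun i => ?_, (hX t).2.1, (hX t).2.2⟩,
    ⟨t0, S t0, hS0, fun j => ?_, fun i => ?_⟩, ?_, fun t => ?_⟩
  · have := reg_add (reg_cmul (p j) hPar.hS) (reg_cmul (v j) hPar.hT)
    refine (congrArg (s.Reg D) (funext fun t => ?_)).mp this
    ring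
  · intro h0
    obtain ⟨a, b⟩ := hv _ _ h0
    rcases hPar.ne t with h1 | h1
    · exact h1 a
    · exact h1 b
  · simp only
    rw [mul_pow, hζ1, one_mul]
    exact (hX t).1 i
  · simp only
    rw [ht0]
    ring
  · simp only
    rw [hζ, div_mul_cancel₀ _ (hWne i)]
  · obtain ⟨t, t', ht⟩ := hPar.nc
    exact ⟨t, t', fun h => ht (not_same hv h)⟩
  · rw [Submodule.mem_span_pair]
    exact ⟨S t, T t, rfl⟩

/-- from the affine line to the multiplicative group: composition with a translation -/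
theorem reg_ga_gm {D : ℕ} {f : k → k} (h : (Src.ga : Src k).Reg D f) (c : k) :
    (Src.gm : Src k).Reg D fun t => f (t.1 + c) := by
  obtain ⟨p, hp⟩ := h
  refine ⟨p.comp (Polynomial.X + Polynomial.C c), 0, fun t => ?_⟩
  have : f (t.1 + c) = p.eval (t.1 + c) := hp _
  show f (t.1 + c) = _
  rw [this]
  simp

theorem par_ga_gm [Infinite k] {D : ℕ} {S T : k → k} (h : Par (Src.ga : Src k) D S T) :
    ∃ c : k, Par (Src.gm : Src k) D (fun t => S (t.1 + c)) fun t => T (t.1 + c) := by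
  obtain ⟨t0, ht0⟩ := h.hit
  let t0' : k := t0
  have ht0' : T t0' = 0 := ht0
  refine ⟨t0' - 1, reg_ga_gm h.hS _, reg_ga_gm h.hT _, fun t => h.ne (t.1 + (t0' - 1) : k), ?_,
    ⟨⟨1, one_ne_zero⟩, ?_⟩⟩
  · by_contra hcon
    push Not at hcon
    obtain ⟨p, hp⟩ := h.hS
    obtain ⟨q, hq⟩ := h.hT
    have hp' : ∀ t : k, S t = p.eval t := hp
    have hq' : ∀ t : k, T t = q.eval t := hq
    have h1 : ∀ t t' : k, t ≠ t0' - 1 → t' ≠ t0' - 1 → S t * T t' = S t' * T t := by
      intro t t' ht ht'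
      have := hcon ⟨t - (t0' - 1), sub_ne_zero.2 ht⟩ ⟨t' - (t0' - 1), sub_ne_zero.2 ht'⟩
      simpa using this
    have hinf : ∀ c : k, ({c}ᶜ : Set k).Infinite := fun c =>
      Set.Finite.infinite_compl (Set.finite_singleton c)
    have h2 : ∀ t t' : k, t ≠ t0' - 1 → S t * T t' = S t' * T t := by
      intro t t' ht
      have e1 : Polynomial.C (S t) * q = p * Polynomial.C (T t) := by
        refine Polynomial.eq_of_infinite_eval_eq _ _ ((hinf (t0' - 1)).mono fun y hy => ?_)
        show Polynomial.eval y _ = Polynomial.eval y _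
        rw [Polynomial.eval_mul, Polynomial.eval_mul, Polynomial.eval_C, Polynomial.eval_C,
          ← hp', ← hq']
        exact h1 t y ht hy
      have e2 := congrArg (Polynomial.eval t') e1
      rw [Polynomial.eval_mul, Polynomial.eval_mul, Polynomial.eval_C, Polynomial.eval_C,
          ← hp', ← hq'] at e2
      exact e2
    have h3 : ∀ t t' : k, S t * T t' = S t' * T t := by
      intro t t'
      have e1 : p * Polynomial.C (T t') = Polynomial.C (S t') * q := by
        refine Polynomial.eq_of_infinite_eval_eq _ _ ((hinf (t0' - 1)).mono fun y hy => ?_)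
        show Polynomial.eval y _ = Polynomial.eval y _
        rw [Polynomial.eval_mul, Polynomial.eval_mul, Polynomial.eval_C, Polynomial.eval_C,
          ← hp', ← hq']
        exact h2 y t' hy
      have e2 := congrArg (Polynomial.eval t) e1
      rw [Polynomial.eval_mul, Polynomial.eval_mul, Polynomial.eval_C, Polynomial.eval_C,
          ← hp', ← hq'] at e2
      exact e2
    obtain ⟨t, t', ht⟩ := h.nc
    exact ht (h3 t t')
  · show T (1 + (t0' - 1)) = 0
    rw [add_sub_cancel]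
    exact ht0'

/-- the affine line may be replaced by the multiplicative group -/
theorem LineCurve.no_ga [Infinite k] {Q : Src k → Prop} {m e : Fin r → ℕ}
    {F : Fin r → MvPolynomial (Fin (n + 1)) k}
    {G : Fin g → MvPolynomial (Fin (n + 1)) k} {B : MvPolynomial (Fin (n + 1)) k}
    {p : Fin (n + 1) → k} (h : LineCurve Q m e F G B p) :
    LineCurve (fun s => s ≠ Src.ga) m e F G B p := by
  obtain ⟨v, hv, s, D, S, T, hQ, hD, hPar, W, hW, hX⟩ := h
  cases s with
  | ga =>
    obtain ⟨c, hc⟩ := par_ga_gm hPar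
    refine ⟨v, hv, Src.gm, D, _, _, by simp, hD, hc, fun i t => W i (t.1 + c : k),
      fun i => reg_ga_gm (hW i) c, fun z => hX (z.1 + c : k)⟩
  | gm => exact ⟨v, hv, _, D, S, T, by simp, hD, hPar, W, hW, hX⟩
  | ell a b h => exact ⟨v, hv, _, D, S, T, by simp, hD, hPar, W, hW, hX⟩

end Pool.Agent.W600.Alg
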