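import Pool.Agent.W600.Alg.Zeros

/-!
# Periodic points of multiplication by two
-/

set_option autoImplicit false

namespace Pool.Agent.W600.Alg

open Polynomial

variable {k : Type*} [Field k]

/-- the numerator and the denominator of the iterates of the doubling map on the `x`-coordinate -/
noncomputable def AB (a b : k) : ℕ → Polynomial k × Polynomial k
  | 0 => (X, 1)
  | N + 1 =>
    let A := (AB a b N).1
    let B := (AB a b N).2
    (A ^ 4 - C (2 * a) * A ^ 2 * B ^ 2 - C (8 * b) * A * B ^ 3 + C (a ^ 2) * B ^ 4,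
      C 4 * B * (A ^ 3 + C a * A * B ^ 2 + C b * B ^ 3))

theorem AB_zero (a b : k) : AB a b 0 = (X, 1) := rfl

theorem AB_succ1 (a b : k) (N : ℕ) : (AB a b (N + 1)).1 = (AB a b N).1 ^ 4 -
    C (2 * a) * (AB a b N).1 ^ 2 * (AB a b N).2 ^ 2 - C (8 * b) * (AB a b N).1 * (AB a b N).2 ^ 3 +
      C (a ^ 2) * (AB a b N).2 ^ 4 := rfl

theorem AB_succ2 (a b : k) (N : ℕ) : (AB a b (N + 1)).2 = C 4 * (AB a b N).2 *
    ((AB a b N).1 ^ 3 + C a * (AB a b N).1 * (AB a b N).2 ^ 2 + C b * (AB a b N).2 ^ 3) := rfl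

/-- degrees and leading coefficients -/
theorem AB_deg (a b : k) (N : ℕ) : (AB a b N).1.natDegree ≤ 4 ^ N ∧
    (AB a b N).1.coeff (4 ^ N) = 1 ∧ (AB a b N).2.natDegree ≤ 4 ^ N - 1 ∧
    (AB a b N).2.coeff (4 ^ N - 1) = 4 ^ N := by
  induction N with
  | zero => simp [AB_zero]
  | succ N ih =>
    obtain ⟨h1, h2, h3, h4⟩ := ih
    have hpos : 0 < 4 ^ N := by positivity
    obtain ⟨d, hd⟩ : ∃ d, 4 ^ N = d + 1 := ⟨4 ^ N - 1, by omega⟩
    have hd4 : 4 ^ (N + 1) = 4 * d + 4 := by rw [pow_succ, hd]; ring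
    rw [hd] at h1 h2 h3 h4
    rw [Nat.add_sub_cancel] at h3 h4
    rw [hd4, AB_succ1, AB_succ2]
    set A := (AB a b N).1
    set B := (AB a b N).2
    have dA : ∀ i, (A ^ i).natDegree ≤ i * (d + 1) := fun i => natDegree_pow_le_of_le i h1
    have dB : ∀ i, (B ^ i).natDegree ≤ i * d := fun i => natDegree_pow_le_of_le i h3
    have cA : ∀ i, (A ^ i).coeff (i * (d + 1)) = 1 := by
      intro i
      rw [coeff_pow_of_natDegree_le h1, h2, one_pow]
    have cB : ∀ i, (B ^ i).coeff (i * d) = (4 ^ N) ^ i := by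
      intro i
      rw [coeff_pow_of_natDegree_le h3, h4]
    have t1 : (C (2 * a) * A ^ 2 * B ^ 2).natDegree ≤ 4 * d + 2 := by
      rw [mul_assoc]
      refine (natDegree_C_mul_le _ _).trans (natDegree_mul_le_of_le (dA 2) (dB 2)|>.trans ?_)
      omega
    have t2 : (C (8 * b) * A * B ^ 3).natDegree ≤ 4 * d + 1 := by
      rw [mul_assoc]
      refine (natDegree_C_mul_le _ _).trans (natDegree_mul_le_of_le h1 (dB 3)|>.trans ?_)
      omega
    have t3 : (C (a ^ 2) * B ^ 4).natDegree ≤ 4 * d :=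
      (natDegree_C_mul_le _ _).trans (dB 4)
    have u1 : (A ^ 3).natDegree ≤ 3 * d + 3 := (dA 3).trans (by omega)
    have u2 : (C a * A * B ^ 2).natDegree ≤ 3 * d + 1 := by
      rw [mul_assoc]
      refine (natDegree_C_mul_le _ _).trans (natDegree_mul_le_of_le h1 (dB 2)|>.trans ?_)
      omega
    have u3 : (C b * B ^ 3).natDegree ≤ 3 * d := (natDegree_C_mul_le _ _).trans (dB 3)
    have u4 : (A ^ 3 + C a * A * B ^ 2 + C b * B ^ 3).natDegree ≤ 3 * d + 3 :=
      natDegree_add_le_of_degree_le (natDegree_add_le_of_degree_le u1 (u2.trans (by omega)))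
        (u3.trans (by omega))
    have u5 : (A ^ 3 + C a * A * B ^ 2 + C b * B ^ 3).coeff (3 * d + 3) = 1 := by
      rw [coeff_add, coeff_add, coeff_eq_zero_of_natDegree_lt (u2.trans_lt (by omega)),
        coeff_eq_zero_of_natDegree_lt (u3.trans_lt (by omega)), add_zero, add_zero]
      have := cA 3
      rwa [mul_add, mul_one] at this
    have v1 : (C (4 : k) * B).natDegree ≤ d := (natDegree_C_mul_le _ _).trans h3
    refine ⟨?_, ?_, ?_, ?_⟩
    · have w1 := natDegree_sub_le_of_le (dA 4) t1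
      have w2 := natDegree_sub_le_of_le w1 t2
      exact natDegree_add_le_of_degree_le (w2.trans (by omega)) (t3.trans (by omega))
    · rw [coeff_add, coeff_sub, coeff_sub, coeff_eq_zero_of_natDegree_lt (t1.trans_lt (by omega)),
        coeff_eq_zero_of_natDegree_lt (t2.trans_lt (by omega)),
        coeff_eq_zero_of_natDegree_lt (t3.trans_lt (by omega))]
      have := cA 4
      rw [mul_add, mul_one] at this
      rw [this]
      ring
    · refine (natDegree_mul_le_of_le v1 u4).trans ?_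
      omega
    · have e1 : 4 * d + 4 - 1 = d + (3 * d + 3) := by omega
      rw [e1, coeff_mul_add_eq_of_natDegree_le v1 u4, u5, coeff_C_mul, h4, pow_succ]
      ring

/-- the Wronskian -/
theorem AB_wronskian (a b : k) (N : ℕ) :
    (derivative (AB a b N).1 * (AB a b N).2 - (AB a b N).1 * derivative (AB a b N).2) ^ 2 *
      cub a b = C ((4 : k) ^ N) * ((AB a b N).2 * ((AB a b N).1 ^ 3 +
        C a * (AB a b N).1 * (AB a b N).2 ^ 2 + C b * (AB a b N).2 ^ 3)) := by
  induction N with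
  | zero => simp [AB_zero, cub]
  | succ N ih =>
    have e1 : derivative (AB a b (N + 1)).1 * (AB a b (N + 1)).2 -
        (AB a b (N + 1)).1 * derivative (AB a b (N + 1)).2 =
        4 * ((AB a b N).1 ^ 6 + 5 * C a * (AB a b N).1 ^ 4 * (AB a b N).2 ^ 2 +
          20 * C b * (AB a b N).1 ^ 3 * (AB a b N).2 ^ 3 -
          5 * C a ^ 2 * (AB a b N).1 ^ 2 * (AB a b N).2 ^ 4 -
          4 * C a * C b * (AB a b N).1 * (AB a b N).2 ^ 5 -
          (8 * C b ^ 2 + C a ^ 3) * (AB a b N).2 ^ 6) *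
        (derivative (AB a b N).1 * (AB a b N).2 - (AB a b N).1 * derivative (AB a b N).2) := by
      rw [AB_succ1, AB_succ2]
      have c2 : (C (2 * a) : k[X]) = 2 * C a := by rw [C_mul]; rfl
      have c8 : (C (8 * b) : k[X]) = 8 * C b := by rw [C_mul]; rfl
      have c4 : (C 4 : k[X]) = 4 := rfl
      have ca : (C (a ^ 2) : k[X]) = C a ^ 2 := C_pow
      have d2 : derivative (2 : k[X]) = 0 := derivative_ofNat 2
      have d4 : derivative (4 : k[X]) = 0 := derivative_ofNat 4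
      have d8 : derivative (8 : k[X]) = 0 := derivative_ofNat 8
      rw [c2, c8, c4, ca]
      simp only [derivative_add, derivative_sub, derivative_mul, derivative_pow, derivative_C,
        d2, d4, d8, Nat.cast_ofNat, map_ofNat]
      ring
    have cN : (C ((4 : k) ^ (N + 1)) : k[X]) = C (4 ^ N) * 4 := by rw [pow_succ, C_mul]; rfl
    rw [e1, mul_pow, mul_assoc, ih, AB_succ1, AB_succ2, cN]
    have c2 : (C (2 * a) : k[X]) = 2 * C a := by rw [C_mul]; rfl
    have c8 : (C (8 * b) : k[X]) = 8 * C b := by rw [C_mul]; rfl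
    have c4 : (C 4 : k[X]) = 4 := rfl
    have ca : (C (a ^ 2) : k[X]) = C a ^ 2 := C_pow
    rw [c2, c8, c4, ca]
    ring

variable {a b : k} {h : 4 * a ^ 3 + 27 * b ^ 2 ≠ 0}

/-- the iterates of the doubling map -/
theorem iter_AB [CharZero k] (P : EPt a b h) (hP : P.1 2 = 1) (N : ℕ) :
    (dbl^[N] P).1 0 = (AB a b N).1.eval (P.1 0) ∧
      (dbl^[N] P).1 2 ^ 2 = (AB a b N).2.eval (P.1 0) := by
  induction N with
  | zero => simp [AB_zero, hP]
  | succ N ih =>
    obtain ⟨h1, h2⟩ := ih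
    rw [Function.iterate_succ_apply']
    set Q := dbl^[N] P
    have hQ := EPt.eq Q
    constructor
    · show dbl3 a Q.1 0 = _
      rw [AB_succ1]
      simp only [eval_add, eval_sub, eval_mul, eval_pow, eval_C, ← h1, ← h2, dbl3, Matrix.cons_val]
      linear_combination (-8 * Q.1 0) * hQ
    · show dbl3 a Q.1 2 ^ 2 = _
      rw [AB_succ2]
      simp only [eval_add, eval_mul, eval_pow, eval_C, ← h1, ← h2, dbl3, Matrix.cons_val]
      linear_combination (4 * Q.1 2 ^ 2) * hQ

theorem dbl_inft [CharZero k] {P : EPt a b h} (hP : P.1 2 = 0) (N : ℕ) :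
    (dbl^[N] P).1 2 = 0 := by
  induction N with
  | zero => exact hP
  | succ N ih =>
    rw [Function.iterate_succ_apply']
    show dbl3 a (dbl^[N] P).1 2 = 0
    simp [dbl3, ih]

/-- points at infinity have non-zero first coordinate -/
theorem x_ne_of_inft {P : EPt a b h} (hP : P.1 2 = 0) : P.1 0 ≠ 0 := by
  intro h0
  have h2 := P.eq
  rw [hP, h0] at h2
  have h3 : P.1 1 = 0 := pow_eq_zero_iff two_ne_zero |>.1 (by linear_combination h2)
  exact P.ne (funext fun i => by fin_cases i <;> simp [h0, h3, hP])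

/-- There are infinitely many periodic points of multiplication by two. -/
theorem exists_periodic [IsAlgClosed k] [CharZero k] (a b : k) (h : 4 * a ^ 3 + 27 * b ^ 2 ≠ 0)
    (Z : Finset k) : ∃ P : EPt a b h, P.1 2 = 1 ∧ P.1 0 ∉ Z ∧ ∃ M : ℕ, 0 < M ∧
      Eqv (dbl^[M] P) P := by
  classical
  obtain ⟨N, hN⟩ : ∃ N : ℕ, Z.card < 4 ^ N ∧ 0 < N := by
    refine ⟨Z.card + 1, ?_, by omega⟩
    exact (Nat.lt_succ_self _).trans (Nat.lt_pow_self (by norm_num))
  obtain ⟨hN, hN0⟩ := hN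
  obtain ⟨h1, h2, h3, h4⟩ := AB_deg a b N
  set A := (AB a b N).1 with hA
  set B := (AB a b N).2 with hB
  have hpos : 0 < 4 ^ N := by positivity
  let F := A - X * B
  have hFc : F.coeff (4 ^ N) = 1 - 4 ^ N := by
    obtain ⟨d, hd⟩ : ∃ d, 4 ^ N = d + 1 := ⟨4 ^ N - 1, by omega⟩
    have h4' := h4
    simp only [F, coeff_sub, h2]
    rw [hd] at h4' ⊢
    rw [coeff_X_mul]
    rw [Nat.add_sub_cancel] at h4'
    rw [h4']
  have h41 : (1 : k) - 4 ^ N ≠ 0 := by
    intro h0
    have h5 : (4 : k) ^ N = 1 := by linear_combination -h0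
    have h6 : (4 : ℕ) ^ N = 1 := by exact_mod_cast h5
    have h7 : 1 < (4 : ℕ) ^ N := Nat.one_lt_pow hN0.ne' (by norm_num)
    omega
  have hF0 : F ≠ 0 := by
    intro h0
    rw [h0, coeff_zero] at hFc
    exact h41 hFc.symm
  have hdeg : 4 ^ N ≤ F.natDegree := le_natDegree_of_ne_zero (by rw [hFc]; exact h41)
  -- the points over the roots
  have hpt : ∀ ξ : k, ∃ P : EPt a b h, P.1 0 = ξ ∧ P.1 2 = 1 := by
    intro ξ
    obtain ⟨y, hy⟩ := IsAlgClosed.exists_pow_nat_eq (ξ ^ 3 + a * ξ + b) two_pos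
    refine ⟨⟨![ξ, y, 1], ?_, ?_⟩, rfl, rfl⟩
    · intro h0
      have := congrFun h0 2
      simp at this
    · simp only [Matrix.cons_val]
      rw [hy]
      ring
  have hroot : ∀ ξ : k, F.eval ξ = 0 → ∀ P : EPt a b h, P.1 0 = ξ → P.1 2 = 1 →
      (dbl^[N] P).1 2 ≠ 0 ∧ (dbl^[N] P).1 0 = ξ * (dbl^[N] P).1 2 ^ 2 := by
    intro ξ hξ P hP0 hP2
    obtain ⟨k1, k2⟩ := iter_AB P hP2 N
    rw [hP0] at k1 k2
    have k3 : (dbl^[N] P).1 0 = ξ * (dbl^[N] P).1 2 ^ 2 := by
      rw [k1, k2]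
      simp only [F, eval_sub, eval_mul, eval_X] at hξ
      exact sub_eq_zero.1 hξ
    refine ⟨fun h0 => ?_, k3⟩
    rw [h0] at k3
    exact x_ne_of_inft h0 (by rw [k3]; ring)
  -- simple roots
  have hsimple : ∀ ξ : k, F.eval ξ = 0 → (derivative F).eval ξ ≠ 0 := by
    intro ξ hξ hξ'
    obtain ⟨P, hP0, hP2⟩ := hpt ξ
    obtain ⟨k1, k2⟩ := hroot ξ hξ P hP0 hP2
    obtain ⟨k3, k4⟩ := iter_AB P hP2 N
    rw [hP0, ← hA] at k3
    rw [hP0, ← hB] at k4
    have hBne : B.eval ξ ≠ 0 := by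
      rw [← k4]
      exact pow_ne_zero _ k1
    have hAB : A.eval ξ = ξ * B.eval ξ := by
      rw [← k3, ← k4]
      exact k2
    have hc : ξ ^ 3 + a * ξ + b ≠ 0 := by
      intro hc
      have hy : P.1 1 = 0 := by
        have := P.eq
        rw [hP0, hP2] at this
        exact pow_eq_zero_iff two_ne_zero |>.1 (by linear_combination this + hc)
      apply k1
      obtain ⟨N', rfl⟩ : ∃ N', N = N' + 1 := ⟨N - 1, by omega⟩
      rw [Function.iterate_succ_apply]
      refine dbl_inft ?_ N'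
      show dbl3 a P.1 2 = 0
      simp [dbl3, hy]
    have hW := congrArg (Polynomial.eval ξ) (AB_wronskian a b N)
    rw [← hA, ← hB] at hW
    simp only [F, derivative_sub, derivative_mul, derivative_X, one_mul, eval_sub, eval_add,
      eval_mul, eval_X] at hξ'
    simp only [eval_sub, eval_add, eval_mul, eval_pow, eval_C, eval_cub] at hW
    have e1 : (derivative A).eval ξ * B.eval ξ - A.eval ξ * (derivative B).eval ξ =
        B.eval ξ ^ 2 := by
      rw [hAB]
      linear_combination (B.eval ξ) * hξ'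
    rw [e1, hAB] at hW
    have e2 : (B.eval ξ) ^ 4 * (ξ ^ 3 + a * ξ + b) * (1 - 4 ^ N) = 0 := by
      linear_combination hW
    rcases mul_eq_zero.1 e2 with e3 | e3
    · rcases mul_eq_zero.1 e3 with e4 | e4
      · exact pow_ne_zero _ hBne e4
      · exact hc e4
    · exact h41 e3
  -- a root outside `Z`
  obtain ⟨ξ, hξ, hξZ⟩ : ∃ ξ, F.eval ξ = 0 ∧ ξ ∉ Z := by
    by_contra hcon
    push Not at hcon
    have hnodup : F.roots.Nodup := by
      rw [Multiset.nodup_iff_count_le_one]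
      intro ξ
      rw [count_roots]
      by_contra hlt
      push Not at hlt
      obtain ⟨r1, r2⟩ := (one_lt_rootMultiplicity_iff_isRoot hF0).1 hlt
      exact hsimple ξ r1 r2
    have hcard : F.roots.card = F.natDegree :=
      (splits_iff_card_roots.1 (IsAlgClosed.splits F))
    have h5 : F.roots.toFinset ⊆ Z := by
      intro ξ hξ
      rw [Multiset.mem_toFinset, mem_roots hF0] at hξ
      exact hcon ξ hξ
    have h6 := Finset.card_le_card h5
    rw [Multiset.toFinset_card_of_nodup hnodup, hcard] at h6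
    omega
  obtain ⟨P, hP0, hP2⟩ := hpt ξ
  obtain ⟨k1, k2⟩ := hroot ξ hξ P hP0 hP2
  refine ⟨P, hP2, by rw [hP0]; exact hξZ, N + N, by omega, ?_⟩
  rw [Function.iterate_add_apply]
  have hP2' : P.1 2 ≠ 0 := by rw [hP2]; exact one_ne_zero
  rcases eqv_or k1 hP2' (by rw [k2, hP0, hP2]; ring) with H | H
  · exact (eqv_iter H N).trans H
  · have H' : Eqv (dbl^[N] P) (neg P) := by
      have := eqv_neg H
      rwa [neg_neg'] at this
    exact (eqv_iter H' N).trans ((iter_neg P N).trans H)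

end Pool.Agent.W600.Alg
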