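import Pool.Agent.W600.Alg.Periodic

/-!
# Infinitely many pointed maps from elliptic curves
-/

set_option autoImplicit false

namespace Pool.Agent.W600.Alg

open MvPolynomial

variable {k : Type*} [Field k]

/-- composition with weighted homogeneous polynomials -/
theorem reg_comp {s : Src k} {σ : Type*} [Fintype σ] {E M : ℕ} {w : σ → ℕ} {u : σ → s.Pt → k}
    (hu : ∀ i, s.Reg (E * w i) (u i)) {p : MvPolynomial σ k} (hp : IsWeightedHomogeneous w p M) :
    s.Reg (E * M) fun P => eval (fun i => u i P) p := by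
  classical
  simp_rw [eval_eq']
  refine reg_sum _ (fun c hc => ?_) (reg_zero _ _)
  refine reg_cmul _ ?_
  have hD : ∑ i, c i * w i = M := by
    rw [← hp (mem_support_iff.1 hc), Finsupp.weight_apply, Finsupp.sum_fintype _ _ (by simp)]
    rfl
  have key : ∀ t : Finset σ, s.Reg (E * ∑ i ∈ t, c i * w i) fun P => ∏ i ∈ t, u i P ^ c i := by
    intro t
    induction t using Finset.induction_on with
    | empty => simpa using reg_const s 1
    | insert i t hi ih =>
      have h1 := reg_mul (reg_pow (hu i) (c i)) ih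
      rw [Finset.sum_insert hi]
      have h2 : c i * (E * w i) + E * ∑ i ∈ t, c i * w i = E * (c i * w i + ∑ i ∈ t, c i * w i) := by
        ring
      rw [h2] at h1
      refine (congrArg (s.Reg _) (funext fun P => ?_)).mp h1
      rw [Finset.prod_insert hi]
  have := key Finset.univ
  rwa [hD] at this

variable {a b : k} {h : 4 * a ^ 3 + 27 * b ^ 2 ≠ 0}

theorem exists_iter_half [IsAlgClosed k] [CharZero k] (q : ℕ) (Q : EPt a b h) :
    ∃ P : EPt a b h, Eqv (dbl^[q] P) Q := by
  induction q generalizing Q with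
  | zero => exact ⟨Q, Eqv.refl Q⟩
  | succ q ih =>
    obtain ⟨P, hP⟩ := exists_half Q
    obtain ⟨P', hP'⟩ := ih P
    refine ⟨P', ?_⟩
    rw [Function.iterate_succ_apply']
    exact (eqv_dbl hP').trans hP

theorem eqv_z {P Q : EPt a b h} (H : Eqv P Q) : P.1 2 = 0 ↔ Q.1 2 = 0 := by
  obtain ⟨c, hc, -, -, h2⟩ := H
  rw [h2]
  simp [hc]

/-- there are many points whose iterates are the point at infinity -/
theorem exists_torsion [IsAlgClosed k] [CharZero k] (a b : k) (h : 4 * a ^ 3 + 27 * b ^ 2 ≠ 0)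
    {q : ℕ} (hq : 0 < q) {N : Polynomial k} (hN : N ≠ 0) : ∃ u : EPt a b h, u.1 2 ≠ 0 ∧
      N.eval (u.1 0 / u.1 2 ^ 2) ≠ 0 ∧ ∃ l : ℕ, (dbl^[q * l] u).1 2 = 0 := by
  classical
  -- a point of order two
  obtain ⟨u1, hu1, hu1'⟩ : ∃ u : EPt a b h, u.1 2 ≠ 0 ∧ (dbl^[q] u).1 2 = 0 := by
    obtain ⟨ξ, hξ⟩ := IsAlgClosed.exists_root (cub a b) (by
      intro h0
      have h1 := Polynomial.natDegree_eq_zero_iff_degree_le_zero.2 h0.le
      rw [cub_natDegree] at h1
      omega)
    have hξ' : ξ ^ 3 + a * ξ + b = 0 := by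
      rw [← eval_cub]
      exact hξ
    obtain ⟨u, hu⟩ : ∃ u : EPt a b h, u.1 = ![ξ, 0, 1] := by
      refine ⟨⟨![ξ, 0, 1], ?_, ?_⟩, rfl⟩
      · intro h0
        have := congrFun h0 2
        simp at this
      · simp only [Matrix.cons_val]
        linear_combination -hξ'
    refine ⟨u, ?_, ?_⟩
    · rw [hu]
      show (1 : k) ≠ 0
      exact one_ne_zero
    · obtain ⟨q', rfl⟩ : ∃ q', q = q' + 1 := ⟨q - 1, by omega⟩
      rw [Function.iterate_succ_apply]
      refine dbl_inft ?_ q'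
      show dbl3 a u.1 2 = 0
      simp [dbl3, hu]
  -- the sequence
  choose half hhalf using fun Q : EPt a b h => exists_iter_half (a := a) (b := b) (h := h) q Q
  let u : ℕ → EPt a b h := fun l => half^[l] u1
  have hu0 : u 0 = u1 := rfl
  have husucc : ∀ l, Eqv (dbl^[q] (u (l + 1))) (u l) := by
    intro l
    show Eqv (dbl^[q] (half^[l + 1] u1)) _
    rw [Function.iterate_succ_apply']
    exact hhalf _
  have hiter : ∀ l j, Eqv (dbl^[q * j] (u (l + j))) (u l) := by
    intro l j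
    induction j with
    | zero => exact Eqv.refl _
    | succ j ih =>
      have e1 : q * (j + 1) = q * j + q := by ring
      rw [e1, Function.iterate_add_apply, ← add_assoc]
      exact (eqv_iter (husucc _) _).trans ih
  have hne : ∀ l, (u l).1 2 ≠ 0 := by
    intro l h0
    have h1 := hiter 0 l
    rw [zero_add, hu0] at h1
    exact hu1 ((eqv_z h1).1 (dbl_inft h0 _))
  have hinf : ∀ l, (dbl^[q * (l + 1)] (u l)).1 2 = 0 := by
    intro l
    have h1 := hiter 0 l
    rw [zero_add, hu0] at h1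
    have e1 : q * (l + 1) = q + q * l := by ring
    rw [e1, Function.iterate_add_apply]
    exact (eqv_z (eqv_iter h1 q)).2 hu1'
  by_contra hcon
  push Not at hcon
  have hroot : ∀ l, N.eval ((u l).1 0 / (u l).1 2 ^ 2) = 0 := by
    intro l
    by_contra hl
    exact hcon (u l) (hne l) hl (l + 1) (hinf l)
  obtain ⟨l, l', hll, heq⟩ : ∃ l l', l < l' ∧ (u l).1 0 / (u l).1 2 ^ 2 =
      (u l').1 0 / (u l').1 2 ^ 2 := by
    obtain ⟨l, l', hll, heq⟩ := Finite.exists_ne_map_eq_of_infinite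
      (fun l : ℕ => (⟨(u l).1 0 / (u l).1 2 ^ 2, by
        rw [Multiset.mem_toFinset, Polynomial.mem_roots hN]
        exact hroot l⟩ : {x // x ∈ N.roots.toFinset}))
    have heq' := congrArg Subtype.val heq
    rcases Nat.lt_or_gt_of_ne hll with h1 | h1
    · exact ⟨l, l', h1, heq'⟩
    · exact ⟨l', l, h1, heq'.symm⟩
  have hor := eqv_or (hne l) (hne l') (by
    rw [div_eq_div_iff (pow_ne_zero _ (hne l)) (pow_ne_zero _ (hne l'))] at heq
    exact heq)
  -- apply the iterate that kills `u l`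
  have h1 : (dbl^[q * (l + 1)] (u l')).1 2 = 0 := by
    rcases hor with H | H
    · exact (eqv_z (eqv_iter H _)).1 (hinf l)
    · refine (eqv_z (eqv_iter H _)).1 ?_
      exact (eqv_z (iter_neg (u l) _)).2 (hinf l)
  obtain ⟨j, rfl⟩ : ∃ j, l' = j + (l + 1) := ⟨l' - (l + 1), by omega⟩
  exact hne j ((eqv_z (hiter j (l + 1))).1 h1)

variable {n r g : ℕ}

/-- a curve through the given point, explicit form -/
theorem exists_map' {m e : Fin r → ℕ} (hm : ∀ i, 0 < m i)
    {F : Fin r → MvPolynomial (Fin (n + 1)) k} (hF : ∀ i, (F i).IsHomogeneous (m i * e i))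
    {G : Fin g → MvPolynomial (Fin (n + 1)) k} {B : MvPolynomial (Fin (n + 1)) k}
    {P : (Fin (n + 1) → k) × (Fin r → k)} (hP : P ∈ Pts m F G B)
    (hPF : ∀ i, eval P.1 (F i) ≠ 0) {v : Fin (n + 1) → k}
    (hv : ∀ a b : k, (fun j => a * P.1 j + b * v j) = 0 → a = 0 ∧ b = 0)
    {s : Src k} {D : ℕ} {S T : s.Pt → k} (hPar : Par s D S T) {W : Fin r → s.Pt → k}
    (hW : ∀ i, s.Reg (D * e i) (W i))
    (hX : ∀ z, (∀ i, W i z ^ m i = eval (fun j => S z * P.1 j + T z * v j) (F i)) ∧
        (∀ i, eval (fun j => S z * P.1 j + T z * v j) (G i) = 0) ∧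
        eval (fun j => S z * P.1 j + T z * v j) B ≠ 0) :
    ∃ W' : Fin r → s.Pt → k, (∀ i, s.Reg (D * e i) (W' i)) ∧
      IsMor e s D (fun t => ((fun j => S t * P.1 j + T t * v j, fun i => W' i t) :
        (Fin (n + 1) → k) × (Fin r → k))) ∧
      (∀ t, ((fun j => S t * P.1 j + T t * v j, fun i => W' i t) :
        (Fin (n + 1) → k) × (Fin r → k)) ∈ Pts m F G B) ∧
      ∃ t, Same e P (fun j => S t * P.1 j + T t * v j, fun i => W' i t) := by
  obtain ⟨p, w⟩ := P
  obtain ⟨hp0, hpw, hpG, hpB⟩ := hP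
  simp only at hPF hv hpw hX
  obtain ⟨t0, ht0⟩ := hPar.hit
  have hS0 : S t0 ≠ 0 := (hPar.ne t0).resolve_right fun h => h ht0
  have hline : (fun j => S t0 * p j + T t0 * v j) = fun j => S t0 * p j := by
    funext j
    rw [ht0]
    ring
  have hWz : ∀ i, W i t0 ^ m i = (S t0 ^ e i * w i) ^ m i := by
    intro i
    rw [(hX t0).1 i, hline, eval_scale (hF i), mul_pow, hpw, ← pow_mul, mul_comm (e i)]
  have hWne : ∀ i, W i t0 ≠ 0 := by
    intro i h0
    have h1 := hWz i
    rw [h0, zero_pow (hm i).ne', mul_pow, hpw] at h1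
    rcases mul_eq_zero.1 h1.symm with h2 | h2
    · exact pow_ne_zero _ (pow_ne_zero _ hS0) h2
    · exact hPF i h2
  obtain ⟨ζ, hζ⟩ : ∃ ζ : Fin r → k, ∀ i, ζ i = S t0 ^ e i * w i / W i t0 := ⟨_, fun _ => rfl⟩
  have hζ1 : ∀ i, ζ i ^ m i = 1 := by
    intro i
    rw [hζ, div_pow, ← hWz, div_self (pow_ne_zero _ (hWne i))]
  refine ⟨fun i t => ζ i * W i t, fun i => reg_cmul _ (hW i),
    ⟨fun j => ?_, fun i => reg_cmul _ (hW i)⟩, fun t => ⟨?_, fun i => ?_, (hX t).2.1, (hX t).2.2⟩,
    t0, S t0, hS0, fun j => ?_, fun i => ?_⟩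
  · have := reg_add (reg_cmul (p j) hPar.hS) (reg_cmul (v j) hPar.hT)
    refine (congrArg (s.Reg D) (funext fun t => ?_)).mp this
    ring
  · intro h0
    obtain ⟨a, b⟩ := hv _ _ h0
    rcases hPar.ne t with h1 | h1
    · exact h1 a
    · exact h1 b
  · simp only
    rw [mul_pow, hζ1, one_mul]
    exact (hX t).1 i
  · simp only
    rw [ht0]
    ring
  · simp only
    rw [hζ, div_mul_cancel₀ _ (hWne i)]

/-- morphisms respect the equivalence of points -/
theorem same_of_eqv {e : Fin r → ℕ} {D : ℕ}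
    {f : EPt a b h → (Fin (n + 1) → k) × (Fin r → k)} (hf : IsMor e (Src.ell a b h) D f)
    {P Q : EPt a b h} (H : Eqv P Q) : Same e (f P) (f Q) := by
  obtain ⟨c, hc, h0, h1, h2⟩ := H
  refine ⟨c ^ D, pow_ne_zero _ hc, fun j => ?_, fun i => ?_⟩
  · exact reg_eqv (hf.1 j) h0 h1 h2
  · have := reg_eqv (hf.2 i) h0 h1 h2
    rw [← pow_mul]
    exact this

theorem Same.symm {e : Fin r → ℕ} {P Q : (Fin (n + 1) → k) × (Fin r → k)} (H : Same e P Q) :
    Same e Q P := by
  obtain ⟨c, hc, h1, h2⟩ := H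
  refine ⟨c⁻¹, inv_ne_zero hc, fun j => by rw [h1]; field_simp, fun i => ?_⟩
  rw [h2, ← mul_assoc, ← mul_pow, inv_mul_cancel₀ hc, one_pow, one_mul]

theorem Same.trans {e : Fin r → ℕ} {P Q R : (Fin (n + 1) → k) × (Fin r → k)} (H : Same e P Q)
    (H' : Same e Q R) : Same e P R := by
  obtain ⟨c, hc, h1, h2⟩ := H
  obtain ⟨d, hd, g1, g2⟩ := H'
  exact ⟨d * c, mul_ne_zero hd hc, fun j => by rw [g1, h1]; ring,
    fun i => by rw [g2, h2, mul_pow]; ring⟩

/-- different iterates give different morphisms -/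
theorem iter_ne [IsAlgClosed k] [CharZero k] {e : Fin r → ℕ} {D : ℕ}
    {S T : EPt a b h → k} (hPar : Par (Src.ell a b h) D S T) {p v : Fin (n + 1) → k}
    (hv : ∀ a b : k, (fun j => a * p j + b * v j) = 0 → a = 0 ∧ b = 0)
    {W : Fin r → EPt a b h → k}
    (hf : IsMor e (Src.ell a b h) D (fun t => ((fun j => S t * p j + T t * v j, fun i => W i t) :
        (Fin (n + 1) → k) × (Fin r → k)))) {i j : ℕ} (hij : i < j) :
    ∃ t : EPt a b h, ¬ Same e ((fun j => S (dbl^[i] t) * p j + T (dbl^[i] t) * v j,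
      fun l => W l (dbl^[i] t)) : (Fin (n + 1) → k) × (Fin r → k))
      (fun l => S (dbl^[j] t) * p l + T (dbl^[j] t) * v l, fun l => W l (dbl^[j] t)) := by
  by_contra hcon
  push Not at hcon
  obtain ⟨q, hq, rfl⟩ : ∃ q, 0 < q ∧ j = q + i := ⟨j - i, by omega, by omega⟩
  -- invariance under the `q`-th iterate
  have h1 : ∀ u : EPt a b h, Same e ((fun j => S u * p j + T u * v j, fun l => W l u) :
      (Fin (n + 1) → k) × (Fin r → k)) (fun l => S (dbl^[q] u) * p l + T (dbl^[q] u) * v l,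
      fun l => W l (dbl^[q] u)) := by
    intro u
    obtain ⟨t, ht⟩ := exists_iter_half i u
    have h2 := hcon t
    rw [Function.iterate_add_apply] at h2
    exact (same_of_eqv hf ht).symm.trans (h2.trans (same_of_eqv hf (eqv_iter ht q)))
  have h2 : ∀ (l : ℕ) (u : EPt a b h), Same e ((fun j => S u * p j + T u * v j, fun l => W l u) :
      (Fin (n + 1) → k) × (Fin r → k)) (fun j => S (dbl^[q * l] u) * p j + T (dbl^[q * l] u) * v j,
      fun i => W i (dbl^[q * l] u)) := by
    intro l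
    induction l with
    | zero => exact fun u => same_of_eqv hf (Eqv.refl u)
    | succ l ih =>
      intro u
      have e1 : q * (l + 1) = q + q * l := by ring
      rw [e1, Function.iterate_add_apply]
      exact (ih u).trans (h1 _)
  let O : EPt a b h := inft a b h
  have hO : O.1 2 = 0 := rfl
  have hreg : (Src.ell a b h).Reg D fun u => T O * S u - S O * T u :=
    reg_sub (reg_cmul _ hPar.hS) (reg_cmul _ hPar.hT)
  have hall : ∀ u, T O * S u - S O * T u = 0 := by
    by_contra hne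
    push Not at hne
    obtain ⟨u0, hu0⟩ := hne
    obtain ⟨N, hN, hNz⟩ := finite_zeros hreg hu0
    obtain ⟨u, hu2, huN, l, hl⟩ := exists_torsion a b h hq hN
    apply huN
    refine hNz u hu2 ?_
    have h3 := (h2 l u).trans (same_of_eqv hf (eqv_inft hl hO))
    have h4 := not_same hv h3
    linear_combination h4
  obtain ⟨t, t', ht⟩ := hPar.nc
  apply ht
  have e1 := hall t
  have e2 := hall t'
  rcases hPar.ne O with h3 | h3
  · have : S O * (S t * T t' - S t' * T t) = 0 := by linear_combination S t' * e1 - S t * e2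
    exact sub_eq_zero.1 ((mul_eq_zero.1 this).resolve_left h3)
  · have : T O * (S t * T t' - S t' * T t) = 0 := by linear_combination T t' * e1 - T t * e2
    exact sub_eq_zero.1 ((mul_eq_zero.1 this).resolve_left h3)

end Pool.Agent.W600.Alg
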