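import Pool.Agent.W600.Alg.Zeros

/-!
# Points of infinite order on elliptic curves
-/

set_option autoImplicit false

namespace Pool.Agent.W600.Alg

variable {k : Type} [Field k] {a b : k} {h : 4 * a ^ 3 + 27 * b ^ 2 ≠ 0}

/-- a valuation with `v 2 < 1` -/
theorem exists_val [CharZero k] : ∃ (Γ : Type) (_ : LinearOrderedCommGroupWithZero Γ)
    (v : Valuation k Γ), v 2 < 1 := by
  let A : Subring k := (Int.castRingHom k).range
  have h2A : (2 : k) ∈ A := ⟨2, by simp⟩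
  obtain ⟨B, hB, hB'⟩ := Ideal.image_subset_nonunits_valuationSubring
    (Ideal.span {(⟨2, h2A⟩ : A)}) (by
      intro htop
      have h1 : (1 : A) ∈ Ideal.span {(⟨2, h2A⟩ : A)} := by
        rw [htop]
        exact Submodule.mem_top
      rw [Ideal.mem_span_singleton] at h1
      obtain ⟨⟨c, n, hn⟩, hc⟩ := h1
      have h3 : (1 : k) = 2 * c := congrArg Subtype.val hc
      have h4 : (1 : k) = 2 * (n : k) := by
        rw [h3]
        congr 1
        exact hn.symm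
      have h5 : (1 : ℤ) = 2 * n := by exact_mod_cast h4
      omega)
  refine ⟨B.ValueGroup, inferInstance, B.valuation, ?_⟩
  have h3 : (2 : k) ∈ B.nonunits := hB' ⟨⟨2, h2A⟩, Ideal.subset_span rfl, rfl⟩
  exact (ValuationSubring.mem_nonunits_iff (A := B)).1 h3

/-- the doubling map increases large values -/
theorem val_dbl [CharZero k] {Γ : Type} [LinearOrderedCommGroupWithZero Γ] (v : Valuation k Γ)
    (hv : v 2 < 1) {P : EPt a b h} (hz : P.1 2 ≠ 0) (h1 : 1 < v (P.1 0 / P.1 2 ^ 2))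
    (ha : v a < v (P.1 0 / P.1 2 ^ 2)) (hb : v b < v (P.1 0 / P.1 2 ^ 2)) :
    (dbl P).1 2 ≠ 0 ∧
      v (P.1 0 / P.1 2 ^ 2) < v ((dbl P).1 0 / (dbl P).1 2 ^ 2) := by
  obtain ⟨ξ, hξ⟩ : ∃ ξ, ξ = P.1 0 / P.1 2 ^ 2 := ⟨_, rfl⟩
  rw [← hξ] at h1 ha hb ⊢
  have h40k : (4 : k) ≠ 0 := by norm_num
  have hP0 : P.1 0 = ξ * P.1 2 ^ 2 := by
    rw [hξ, div_mul_cancel₀ _ (pow_ne_zero _ hz)]
  have hPeq := P.eq
  rw [hP0] at hPeq
  have hξ0 : ξ ≠ 0 := by
    intro h0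
    rw [h0, map_zero] at h1
    exact absurd h1 (not_lt.2 zero_le)
  have hvξ : 0 < v ξ := zero_lt_one.trans h1
  have hv2 : v 2 ≤ 1 := hv.le
  have hle : ∀ i j : ℕ, i ≤ j → v ξ ^ i ≤ v ξ ^ j := fun i j hij => pow_le_pow_right₀ h1.le hij
  have hpos : ∀ i : ℕ, 0 < v ξ ^ i := fun i => pow_pos hvξ i
  -- the cubic
  have hc : v (ξ ^ 3 + a * ξ + b) = v ξ ^ 3 := by
    have e1 : v (a * ξ) < v (ξ ^ 3) := by
      rw [map_mul, map_pow]
      calc v a * v ξ < v ξ * v ξ := mul_lt_mul_of_pos_right ha hvξ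
        _ = v ξ ^ 2 := (sq _).symm
        _ ≤ v ξ ^ 3 := hle 2 3 (by norm_num)
    have e2 : v b < v (ξ ^ 3) := by
      rw [map_pow]
      calc v b < v ξ := hb
        _ = v ξ ^ 1 := (pow_one _).symm
        _ ≤ v ξ ^ 3 := hle 1 3 (by norm_num)
    have e3 : v (ξ ^ 3 + a * ξ) = v (ξ ^ 3) := Valuation.map_add_eq_of_lt_left v e1
    rw [Valuation.map_add_eq_of_lt_left v (by rw [e3]; exact e2), e3, map_pow]
  have hc0 : ξ ^ 3 + a * ξ + b ≠ 0 := by
    intro h0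
    rw [h0, map_zero] at hc
    exact (hpos 3).ne hc
  have hy : P.1 1 ≠ 0 := by
    intro h0
    rw [h0] at hPeq
    have : (ξ ^ 3 + a * ξ + b) * P.1 2 ^ 6 = 0 := by linear_combination -hPeq
    rcases mul_eq_zero.1 this with h3 | h3
    · exact hc0 h3
    · exact pow_ne_zero _ hz h3
  have hd2 : (dbl P).1 2 = 2 * P.1 1 * P.1 2 := rfl
  have hd0 : (dbl P).1 0 = (3 * P.1 0 ^ 2 + a * P.1 2 ^ 4) ^ 2 - 8 * P.1 0 * P.1 1 ^ 2 := rfl
  have hne : (dbl P).1 2 ≠ 0 := by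
    rw [hd2]
    exact mul_ne_zero (mul_ne_zero two_ne_zero hy) hz
  refine ⟨hne, ?_⟩
  have hnum : v (ξ ^ 4 + (-(2 * a * ξ ^ 2) + (-(8 * b * ξ) + a ^ 2))) = v ξ ^ 4 := by
    have e0 : v (2 * a * ξ ^ 2) < v ξ ^ 4 := by
      rw [map_mul, map_mul, map_pow]
      calc v 2 * v a * v ξ ^ 2 ≤ 1 * v a * v ξ ^ 2 := by gcongr
        _ = v a * v ξ ^ 2 := by rw [one_mul]
        _ < v ξ * v ξ ^ 2 := mul_lt_mul_of_pos_right ha (hpos 2)
        _ = v ξ ^ 3 := (pow_succ' _ _).symm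
        _ ≤ v ξ ^ 4 := hle 3 4 (by norm_num)
    have e1 : v (8 * b * ξ) < v ξ ^ 4 := by
      have h8 : v (8 : k) ≤ 1 := by
        have : (8 : k) = 2 ^ 3 := by norm_num
        rw [this, map_pow]
        exact pow_le_one₀ zero_le hv2
      rw [map_mul, map_mul]
      calc v 8 * v b * v ξ ≤ 1 * v b * v ξ := by gcongr
        _ = v b * v ξ := by rw [one_mul]
        _ < v ξ * v ξ := mul_lt_mul_of_pos_right hb hvξ
        _ = v ξ ^ 2 := (sq _).symm
        _ ≤ v ξ ^ 4 := hle 2 4 (by norm_num)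
    have e2 : v (a ^ 2) < v ξ ^ 4 := by
      rw [map_pow]
      calc v a ^ 2 < v ξ ^ 2 := pow_lt_pow_left₀ ha zero_le two_ne_zero
        _ ≤ v ξ ^ 4 := hle 2 4 (by norm_num)
    rw [Valuation.map_add_eq_of_lt_left v, map_pow]
    rw [map_pow]
    refine Valuation.map_add_lt v (by rwa [Valuation.map_neg]) (Valuation.map_add_lt v
      (by rwa [Valuation.map_neg]) e2)
  have hval : (dbl P).1 0 / (dbl P).1 2 ^ 2 =
      (ξ ^ 4 + (-(2 * a * ξ ^ 2) + (-(8 * b * ξ) + a ^ 2))) / (4 * (ξ ^ 3 + a * ξ + b)) := by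
    rw [div_eq_div_iff (pow_ne_zero _ hne) (mul_ne_zero h40k hc0), hd0, hd2, hP0]
    have e1 : (2 * P.1 1 * P.1 2) ^ 2 = 4 * P.1 2 ^ 2 * (P.1 1 ^ 2) := by ring
    rw [e1, hPeq]
    ring
  rw [hval, map_div₀, hnum, map_mul, hc]
  have h4 : v (4 : k) < 1 := by
    have : (4 : k) = 2 ^ 2 := by norm_num
    rw [this, map_pow]
    exact pow_lt_one₀ zero_le hv two_ne_zero
  have h40 : 0 < v (4 : k) := by
    rw [zero_lt_iff]
    exact (Valuation.ne_zero_iff v).2 h40k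
  rw [lt_div_iff₀ (mul_pos h40 (hpos 3))]
  calc v ξ * (v 4 * v ξ ^ 3) = v 4 * v ξ ^ 4 := by rw [mul_left_comm, ← pow_succ']
    _ < 1 * v ξ ^ 4 := mul_lt_mul_of_pos_right h4 (hpos 4)
    _ = v ξ ^ 4 := one_mul _

/-- There is a point with pairwise different iterates under multiplication by two. -/
theorem exists_infinite_order [IsAlgClosed k] [CharZero k] (a b : k)
    (h : 4 * a ^ 3 + 27 * b ^ 2 ≠ 0) : ∃ P : EPt a b h, P.1 2 = 1 ∧
      (∀ N, (dbl^[N] P).1 2 ≠ 0) ∧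
      Function.Injective fun N : ℕ => (dbl^[N] P).1 0 / (dbl^[N] P).1 2 ^ 2 := by
  obtain ⟨Γ, _, v, hv⟩ := exists_val (k := k)
  obtain ⟨μ, hμ1, hμa, hμb⟩ : ∃ μ : k, 1 ≤ v μ ∧ v a ≤ v μ ∧ v b ≤ v μ := by
    rcases le_total (v a) (v b) with h1 | h1
    · rcases le_total 1 (v b) with h2 | h2
      · exact ⟨b, h2, h1, le_rfl⟩
      · exact ⟨1, by rw [map_one], by rw [map_one]; exact h1.trans h2, by rw [map_one]; exact h2⟩
    · rcases le_total 1 (v a) with h2 | h2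
      · exact ⟨a, h2, le_rfl, h1⟩
      · exact ⟨1, by rw [map_one], by rw [map_one]; exact h2, by rw [map_one]; exact h1.trans h2⟩
  let x : k := μ / 2
  have hμ0 : 0 < v μ := zero_lt_one.trans_le hμ1
  have h20 : 0 < v (2 : k) := by
    rw [zero_lt_iff]
    exact (Valuation.ne_zero_iff v).2 two_ne_zero
  have hx : v μ < v x := by
    show v μ < v (μ / 2)
    rw [map_div₀, lt_div_iff₀ h20]
    calc v μ * v 2 < v μ * 1 := mul_lt_mul_of_pos_left hv hμ0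
      _ = v μ := mul_one _
  obtain ⟨y, hy⟩ := IsAlgClosed.exists_pow_nat_eq (x ^ 3 + a * x + b) two_pos
  obtain ⟨P, hP⟩ : ∃ P : EPt a b h, P.1 = ![x, y, 1] := by
    refine ⟨⟨![x, y, 1], ?_, ?_⟩, rfl⟩
    · intro h0
      have := congrFun h0 2
      simp at this
    · simp only [Matrix.cons_val]
      rw [hy]
      ring
  have hP0 : P.1 0 / P.1 2 ^ 2 = x := by
    rw [hP]
    simp
  have hP2 : P.1 2 = 1 := by
    rw [hP]
    rfl
  have key : ∀ N, (dbl^[N] P).1 2 ≠ 0 ∧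
      v μ < v ((dbl^[N] P).1 0 / (dbl^[N] P).1 2 ^ 2) ∧
      (dbl^[N + 1] P).1 2 ≠ 0 ∧ v ((dbl^[N] P).1 0 / (dbl^[N] P).1 2 ^ 2) <
        v ((dbl^[N + 1] P).1 0 / (dbl^[N + 1] P).1 2 ^ 2) := by
    intro N
    induction N with
    | zero =>
      have e0 : (dbl^[0] P) = P := rfl
      have e1 : (dbl^[0 + 1] P) = dbl P := rfl
      rw [e0, e1, hP0]
      have h1 := val_dbl v hv (P := P) (by rw [hP2]; exact one_ne_zero)
        (by rw [hP0]; exact hμ1.trans_lt hx) (by rw [hP0]; exact hμa.trans_lt hx)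
        (by rw [hP0]; exact hμb.trans_lt hx)
      rw [hP0] at h1
      exact ⟨by rw [hP2]; exact one_ne_zero, hx, h1.1, h1.2⟩
    | succ N ih =>
      obtain ⟨i1, i2, i3, i4⟩ := ih
      have h2 := i2.trans i4
      have h1 := val_dbl v hv (P := dbl^[N + 1] P) i3 (hμ1.trans_lt h2) (hμa.trans_lt h2)
        (hμb.trans_lt h2)
      rw [← Function.iterate_succ_apply' (f := dbl)] at h1
      exact ⟨i3, h2, h1.1, h1.2⟩
  refine ⟨P, hP2, fun N => (key N).1, ?_⟩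
  have hmono : StrictMono fun N : ℕ => v ((dbl^[N] P).1 0 / (dbl^[N] P).1 2 ^ 2) :=
    strictMono_nat_of_lt_succ fun N => (key N).2.2.2
  intro N N' hNN
  exact hmono.injective (congrArg v hNN)

end Pool.Agent.W600.Alg
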