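import Mathlib
import Pool.Agent.H952R2.Sextic.CommonZero

/-!
# Maps from the multiplicative group and from elliptic curves

Regular functions on the multiplicative group and homogeneous functions on the cone over an
elliptic curve `y² = x³ + a x z⁴ + b z⁶` in `P(2, 3, 1)`.
-/

set_option autoImplicit false

namespace Pool.Agent.W600.Alg

open MvPolynomial

/-- The one-dimensional connected algebraic groups: the affine line, the multiplicative group, and
the elliptic curves `y² = x³ + a x z⁴ + b z⁶` in the weighted projective plane `P(2, 3, 1)`. -/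
inductive Src (k : Type*) [Field k]
  | ga
  | gm
  | ell (a b : k) (h : 4 * a ^ 3 + 27 * b ^ 2 ≠ 0)

variable {k : Type*} [Field k]

/-- The points `t` of the affine line, the points `t ≠ 0` of the multiplicative group, and the
points `(x, y, z) ≠ 0` of the cone over the elliptic curve. -/
def Src.Pt : Src k → Type _
  | .ga => k
  | .gm => {t : k // t ≠ 0}
  | .ell a b _ => {P : Fin 3 → k // P ≠ 0 ∧ P 1 ^ 2 = P 0 ^ 3 + a * P 0 * P 2 ^ 4 + b * P 2 ^ 6}

/-- The polynomials on the affine line, the Laurent polynomials on the multiplicative group (for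
both the number `D` plays no role), and the homogeneous polynomials of degree `D` on the cone over
the elliptic curve, where `x`, `y`, `z` have the degrees `2`, `3`, `1`. -/
def Src.Reg : (s : Src k) → ℕ → (s.Pt → k) → Prop
  | .ga, _, f => ∃ p : Polynomial k, ∀ t : k, f t = p.eval t
  | .gm, _, f => ∃ (p : Polynomial k) (N : ℕ), ∀ t : {t : k // t ≠ 0}, f t = p.eval t.1 / t.1 ^ N
  | .ell a b _, D, f => ∃ p : MvPolynomial (Fin 3) k, IsWeightedHomogeneous ![2, 3, 1] p D ∧
      ∀ P : {P : Fin 3 → k // P ≠ 0 ∧ P 1 ^ 2 = P 0 ^ 3 + a * P 0 * P 2 ^ 4 + b * P 2 ^ 6},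
        f P = eval P.1 p

theorem reg_const (s : Src k) (c : k) : s.Reg 0 fun _ => c := by
  cases s with
  | ga => exact ⟨Polynomial.C c, fun t => by simp⟩
  | gm => exact ⟨Polynomial.C c, 0, fun t => by simp⟩
  | ell a b h => exact ⟨C c, isWeightedHomogeneous_C _ _, fun P => by simp⟩

theorem reg_add {s : Src k} {D : ℕ} {f g : s.Pt → k} (hf : s.Reg D f) (hg : s.Reg D g) :
    s.Reg D fun P => f P + g P := by
  cases s with
  | ga =>
    obtain ⟨p, hp⟩ := hf
    obtain ⟨q, hq⟩ := hg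
    refine ⟨p + q, fun t => ?_⟩
    show f t + g t = _
    rw [hp, hq, Polynomial.eval_add]
  | gm =>
    obtain ⟨p, N, hp⟩ := hf
    obtain ⟨q, M, hq⟩ := hg
    refine ⟨p * Polynomial.X ^ M + q * Polynomial.X ^ N, N + M, fun t => ?_⟩
    have ht : t.1 ≠ 0 := t.2
    show f t + g t = _
    rw [hp, hq]
    simp only [Polynomial.eval_add, Polynomial.eval_mul, Polynomial.eval_pow, Polynomial.eval_X]
    field_simp
    ring
  | ell a b h =>
    obtain ⟨p, hp, hp'⟩ := hf
    obtain ⟨q, hq, hq'⟩ := hg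
    exact ⟨p + q, hp.add hq, fun P => by rw [map_add, ← hp', ← hq']⟩

theorem reg_mul {s : Src k} {D E : ℕ} {f g : s.Pt → k} (hf : s.Reg D f) (hg : s.Reg E g) :
    s.Reg (D + E) fun P => f P * g P := by
  cases s with
  | ga =>
    obtain ⟨p, hp⟩ := hf
    obtain ⟨q, hq⟩ := hg
    refine ⟨p * q, fun t => ?_⟩
    show f t * g t = _
    rw [hp, hq, Polynomial.eval_mul]
  | gm =>
    obtain ⟨p, N, hp⟩ := hf
    obtain ⟨q, M, hq⟩ := hg
    refine ⟨p * q, N + M, fun t => ?_⟩
    have ht : t.1 ≠ 0 := t.2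
    show f t * g t = _
    rw [hp, hq]
    simp only [Polynomial.eval_mul]
    field_simp
    ring
  | ell a b h =>
    obtain ⟨p, hp, hp'⟩ := hf
    obtain ⟨q, hq, hq'⟩ := hg
    exact ⟨p * q, hp.mul hq, fun P => by rw [map_mul, ← hp', ← hq']⟩

theorem reg_cmul {s : Src k} {D : ℕ} {f : s.Pt → k} (c : k) (hf : s.Reg D f) :
    s.Reg D fun P => c * f P := by
  have := reg_mul (reg_const s c) hf
  rwa [zero_add] at this

theorem reg_sub {s : Src k} {D : ℕ} {f g : s.Pt → k} (hf : s.Reg D f) (hg : s.Reg D g) :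
    s.Reg D fun P => f P - g P := by
  have := reg_add hf (reg_cmul (-1) hg)
  refine (congrArg (s.Reg D) (funext fun P => ?_)).mp this
  ring

theorem reg_pow {s : Src k} {D : ℕ} {f : s.Pt → k} (hf : s.Reg D f) (N : ℕ) :
    s.Reg (N * D) fun P => f P ^ N := by
  induction N with
  | zero => simpa using reg_const s 1
  | succ N ih =>
    have := reg_mul ih hf
    rw [Nat.succ_mul]
    refine (congrArg (s.Reg (N * D + D)) (funext fun P => ?_)).mp this
    rw [pow_succ]

theorem reg_prod {s : Src k} {σ : Type*} (t : Finset σ) {D : ℕ} {f : σ → s.Pt → k}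
    (hf : ∀ i ∈ t, s.Reg D (f i)) : s.Reg (D * t.card) fun P => ∏ i ∈ t, f i P := by
  classical
  induction t using Finset.induction_on with
  | empty => simpa using reg_const s 1
  | insert i t hi ih =>
    have h1 := reg_mul (hf i (by simp)) (ih fun j hj => hf j (by simp [hj]))
    rw [Finset.card_insert_of_notMem hi, mul_add, mul_one, add_comm]
    refine (congrArg (s.Reg (D + D * t.card)) (funext fun P => ?_)).mp h1
    rw [Finset.prod_insert hi]

/-- The coordinates are homogeneous. -/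
theorem reg_ell {a b : k} {h : 4 * a ^ 3 + 27 * b ^ 2 ≠ 0} (p : MvPolynomial (Fin 3) k) {D : ℕ}
    (hp : IsWeightedHomogeneous ![2, 3, 1] p D) :
    (Src.ell a b h).Reg D fun P => eval P.1 p := ⟨p, hp, fun _ => rfl⟩

theorem reg_x {a b : k} {h : 4 * a ^ 3 + 27 * b ^ 2 ≠ 0} :
    (Src.ell a b h).Reg 2 fun P => P.1 0 :=
  ⟨X 0, isWeightedHomogeneous_X _ _ _, fun P => by simp⟩

theorem reg_y {a b : k} {h : 4 * a ^ 3 + 27 * b ^ 2 ≠ 0} :
    (Src.ell a b h).Reg 3 fun P => P.1 1 :=
  ⟨X 1, isWeightedHomogeneous_X _ _ _, fun P => by simp⟩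

theorem reg_z {a b : k} {h : 4 * a ^ 3 + 27 * b ^ 2 ≠ 0} :
    (Src.ell a b h).Reg 1 fun P => P.1 2 :=
  ⟨X 2, isWeightedHomogeneous_X _ _ _, fun P => by simp⟩

theorem reg_t (D : ℕ) : (Src.gm : Src k).Reg D fun t => t.1 :=
  ⟨Polynomial.X, 0, fun t => by simp⟩

theorem reg_gm_weight {D E : ℕ} {f : (Src.gm : Src k).Pt → k} (h : (Src.gm : Src k).Reg D f) :
    (Src.gm : Src k).Reg E f := h

theorem reg_poly (D : ℕ) (p : Polynomial k) : (Src.ga : Src k).Reg D fun t => p.eval t :=
  ⟨p, fun _ => rfl⟩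

theorem reg_ga_weight {D E : ℕ} {f : (Src.ga : Src k).Pt → k} (h : (Src.ga : Src k).Reg D f) :
    (Src.ga : Src k).Reg E f := h

/-- a homogeneous function of positive degree on an elliptic curve has a zero -/
theorem exists_zero [IsAlgClosed k] {a b : k} {h : 4 * a ^ 3 + 27 * b ^ 2 ≠ 0} {D : ℕ} (hD : 0 < D)
    {f : (Src.ell a b h).Pt → k} (hf : (Src.ell a b h).Reg D f) : ∃ P, f P = 0 := by
  obtain ⟨p, hp, hp'⟩ := hf
  let q : MvPolynomial (Fin 3) k := bind₁ ![X 0 ^ 2, X 1 ^ 3, X 2] p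
  let c : MvPolynomial (Fin 3) k :=
    X 1 ^ 6 - (X 0 ^ 6 + C a * X 0 ^ 2 * X 2 ^ 4 + C b * X 2 ^ 6)
  have hq : ∀ u : Fin 3 → k, eval u q = eval ![u 0 ^ 2, u 1 ^ 3, u 2] p := by
    intro u
    simp only [q]
    rw [← coe_aeval_eq_eval, RingHom.coe_coe, aeval_bind₁, ← coe_aeval_eq_eval, RingHom.coe_coe]
    congr 2
    funext i
    fin_cases i <;> simp
  have hp0 : eval ![(0 : k) ^ 2, 0 ^ 3, 0] p = 0 := by
    have h0 : (![(0 : k) ^ 2, 0 ^ 3, 0] : Fin 3 → k) = 0 := by
      funext i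
      fin_cases i <;> simp
    rw [h0, eval_zero]
    by_contra hne
    have := hp hne
    simp at this
    omega
  obtain ⟨u, hu0, hu⟩ := Pool.Agent.H952R2.Sextic.exists_common_zero (K := k) (ι := Fin 3)
    (κ := Fin 2) (by simp) ![q, c] (by
      intro i
      fin_cases i
      · show eval 0 q = 0
        rw [hq]
        exact hp0
      · show eval 0 c = 0
        simp [c])
  have h1 : eval u q = 0 := hu 0
  have h2 : eval u c = 0 := hu 1
  rw [hq] at h1
  refine ⟨⟨![u 0 ^ 2, u 1 ^ 3, u 2], ?_, ?_⟩, ?_⟩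
  · intro h3
    apply hu0
    have e0 := congrFun h3 0
    have e1 := congrFun h3 1
    have e2 := congrFun h3 2
    simp only [Matrix.cons_val, Pi.zero_apply] at e0 e1 e2
    funext i
    fin_cases i
    · exact pow_eq_zero_iff (two_ne_zero) |>.1 e0
    · exact pow_eq_zero_iff (three_ne_zero) |>.1 e1
    · exact e2
  · simp only [c, map_sub, map_add, map_mul, map_pow, eval_X, eval_C] at h2
    simp only [Matrix.cons_val]
    linear_combination h2
  · rw [hp']
    exact h1

end Pool.Agent.W600.Alg
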