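import Pool.Agent.W600.Alg.Double
import Pool.Agent.W600.Ell.GGL

/-!
# Affine lines and elliptic curves in multi-cyclic covers of complete intersections
-/

set_option autoImplicit false

namespace Pool.Agent.W600.Alg

open MvPolynomial

variable {k : Type*} [Field k] [IsAlgClosed k] [CharZero k] {n r g : ℕ}

/-- affine lines through the points off the branch locus -/
theorem affine_lines {m e : Fin r → ℕ} (hm : ∀ i, 2 ≤ m i) (he : ∀ i, 0 < e i)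
    {F : Fin r → MvPolynomial (Fin (n + 1)) k} (hF : ∀ i, (F i).IsHomogeneous (m i * e i))
    {G : Fin g → MvPolynomial (Fin (n + 1)) k} {d : Fin g → ℕ} (hG : ∀ i, (G i).IsHomogeneous (d i))
    {B : MvPolynomial (Fin (n + 1)) k} {δ : ℕ} (hB : B.IsHomogeneous δ)
    (hK : ∑ i, (m i - 1) * e i + δ + ∑ j, d j ≤ n)
    (h0' : δ = 0 → ∑ i, (m i - 1) * e i + ∑ j, d j = n → 0 < r)
    {P : (Fin (n + 1) → k) × (Fin r → k)} (hP : P ∈ Pts m F G B)
    (hPF : ∀ i, eval P.1 (F i) ≠ 0) :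
    ∃ (p : Fin (n + 1) → Polynomial k) (q : Fin r → Polynomial k),
      (∀ t : k, ((fun j => (p j).eval t, fun i => (q i).eval t) :
        (Fin (n + 1) → k) × (Fin r → k)) ∈ Pts m F G B) ∧
      Same e P (fun j => (p j).eval 0, fun i => (q i).eval 0) ∧
      ∃ t : k, ¬ Same e P (fun j => (p j).eval t, fun i => (q i).eval t) := by
  obtain ⟨v, hv, s, D, S, T, rfl, hD, hPar, W, hW, hX⟩ := line_affine m hm F e hF G d hG B δ hB
    P.1 hP.1 hPF hP.2.2.1 hP.2.2.2 (fun s => s = Src.ga) rfl he hK h0'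
  obtain ⟨f, ⟨hf1, hf2⟩, hfX, ⟨t0, ht0⟩, ⟨t1, t2, h12⟩, -⟩ :=
    exists_map (fun i => by have := hm i; omega) hF hP hPF hv hPar hW hX
  choose p hp using hf1
  choose q hq using hf2
  have hp' : ∀ j (t : k), (f t).1 j = (p j).eval t := hp
  have hq' : ∀ j (t : k), (f t).2 j = (q j).eval t := hq
  have hf : ∀ t : k, f t = (fun j => (p j).eval t, fun i => (q i).eval t) := fun t =>
    Prod.ext (funext fun j => hp' j t) (funext fun j => hq' j t)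
  let t0' : k := t0
  have h0 : Same e P (f t0') := ht0
  have he1 : ∀ t : k, ((fun j => ((p j).comp (Polynomial.X + Polynomial.C t0')).eval t,
      fun i => ((q i).comp (Polynomial.X + Polynomial.C t0')).eval t) :
      (Fin (n + 1) → k) × (Fin r → k)) = f (t + t0' : k) := by
    intro t
    rw [hf]
    simp
  refine ⟨fun j => (p j).comp (Polynomial.X + Polynomial.C t0'),
    fun j => (q j).comp (Polynomial.X + Polynomial.C t0'), fun t => ?_, ?_, ?_⟩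
  · rw [he1]
    exact hfX _
  · rw [he1, zero_add]
    exact h0
  · by_contra hcon
    push Not at hcon
    have h3 : ∀ t : k, Same e P (f t) := by
      intro t
      have := hcon (t - t0')
      rwa [he1, sub_add_cancel] at this
    apply h12
    obtain ⟨a, ha, ha1, ha2⟩ := h3 t1
    obtain ⟨b, hb, hb1, hb2⟩ := h3 t2
    refine ⟨b / a, div_ne_zero hb ha, fun j => ?_, fun j => ?_⟩
    · rw [hb1, ha1]
      field_simp
    · rw [hb2, ha2, div_pow, ← mul_assoc, div_mul_cancel₀ _ (pow_ne_zero _ ha)]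

/-- There are an elliptic curve `E` and, for every `N`, a non-constant morphism `E → X` of degree
`D * 4 ^ N` whose image contains the point `P`. -/
def EllipticThrough {k : Type*} [Field k] {n r : ℕ} (e : Fin r → ℕ)
    (X : Set ((Fin (n + 1) → k) × (Fin r → k))) (P : (Fin (n + 1) → k) × (Fin r → k)) : Prop :=
  ∃ (a b : k) (h : 4 * a ^ 3 + 27 * b ^ 2 ≠ 0) (D : ℕ), 0 < D ∧ ∀ N : ℕ,
    ∃ f : (Src.ell a b h).Pt → (Fin (n + 1) → k) × (Fin r → k),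
      IsMor e (Src.ell a b h) (D * 4 ^ N) f ∧ (∀ t, f t ∈ X) ∧
      (∃ t, Same e P (f t)) ∧ ∃ t t', ¬ Same e (f t) (f t')

/-- elliptic curves of arbitrary high degree through the points off the branch locus -/
theorem elliptic {m e : Fin r → ℕ} (hm : ∀ i, 2 ≤ m i) (he : ∀ i, 0 < e i)
    {F : Fin r → MvPolynomial (Fin (n + 1)) k} (hF : ∀ i, (F i).IsHomogeneous (m i * e i))
    {G : Fin g → MvPolynomial (Fin (n + 1)) k} {d : Fin g → ℕ} (hG : ∀ i, (G i).IsHomogeneous (d i))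
    (hK : ∑ i, (m i - 1) * e i + ∑ j, d j ≤ n + 1)
    (h0 : ∑ i, (m i - 1) * e i + ∑ j, d j = n + 1 →
      (∃ i, 3 ∣ m i ∨ 4 ∣ m i) ∨ 2 ≤ ∑ i with 2 ∣ m i, e i)
    (h0' : ∑ i, (m i - 1) * e i + ∑ j, d j = n → 0 < r)
    {P : (Fin (n + 1) → k) × (Fin r → k)} (hP : P ∈ Pts m F G 1)
    (hPF : ∀ i, eval P.1 (F i) ≠ 0) :
    EllipticThrough e (Pts m F G 1) P := by
  obtain ⟨v, hv, s, D, S, T, hs, hD, hPar, W, hW, hX⟩ := line_closed m hm F e hF G d hG 1 0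
    (isHomogeneous_one _ _)
    P.1 hP.1 hPF hP.2.2.1 hP.2.2.2 (fun s => ∃ a b h, s = Src.ell a b h)
    (fun a b h => ⟨a, b, h, rfl⟩) he rfl hK h0 h0'
  obtain ⟨a, b, h, rfl⟩ := hs
  refine ⟨a, b, h, D, hD, fun N => ?_⟩
  obtain ⟨f, hf, hfX, hft, hfn, -⟩ :=
    exists_map (fun i => by have := hm i; omega) hF hP hPF hv (par_iter hD hPar N)
      (W := fun i z => W i (dbl^[N] z)) (fun i => by
        have := reg_iter (hW i) N
        have h4 : D * e i * 4 ^ N = D * 4 ^ N * e i := by ring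
        rwa [h4] at this) (fun z => hX _)
  exact ⟨f, hf, hfX, hft, hfn⟩

/-! ### Special sets -/

section special

/-- the Zariski closure in `X` of the set `A` -/
def zclosure {n r : ℕ} (e : Fin r → ℕ) (X A : Set ((Fin (n + 1) → ℂ) × (Fin r → ℂ))) :
    Set ((Fin (n + 1) → ℂ) × (Fin r → ℂ)) :=
  {P | P ∈ X ∧ ∀ (H : MvPolynomial (Fin (n + 1) ⊕ Fin r) ℂ) (E : ℕ),
    IsWeightedHomogeneous (Sum.elim (fun _ => 1) e) H E → (∀ Q ∈ A, Ell.val Q H = 0) →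
      Ell.val P H = 0}

/-- The Zariski closure of the union of the images of the non-constant morphisms from
one-dimensional semi-abelian varieties to `X`. -/
def SpSab {n r : ℕ} (e : Fin r → ℕ) (X : Set ((Fin (n + 1) → ℂ) × (Fin r → ℂ))) :
    Set ((Fin (n + 1) → ℂ) × (Fin r → ℂ)) :=
  zclosure e X {Q | ∃ (s : Src ℂ) (D : ℕ) (f : s.Pt → (Fin (n + 1) → ℂ) × (Fin r → ℂ)),
    s ≠ Src.ga ∧ IsMor e s D f ∧ (∀ t, f t ∈ X) ∧ (∃ t t', ¬ Same e (f t) (f t')) ∧ ∃ t, Q = f t}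

/-- The Zariski closure of the union of the images of the non-constant entire curves in `X`. -/
def SpHol {n r : ℕ} (e : Fin r → ℕ) (X : Set ((Fin (n + 1) → ℂ) × (Fin r → ℂ))) :
    Set ((Fin (n + 1) → ℂ) × (Fin r → ℂ)) :=
  zclosure e X {Q | ∃ f : ℂ → (Fin (n + 1) → ℂ) × (Fin r → ℂ), Differentiable ℂ f ∧
    (∀ z, f z ∈ X) ∧ (∃ z z', ¬ Same e (f z) (f z')) ∧ ∃ z, Q = f z}

/-- The Zariski closure of the union of the images of the holomorphic maps from the punctured disc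
to `X` that have no holomorphic extension from the disc to the compactification `Y` of `X`. -/
def SpPic {n r : ℕ} (e : Fin r → ℕ) (X Y : Set ((Fin (n + 1) → ℂ) × (Fin r → ℂ))) :
    Set ((Fin (n + 1) → ℂ) × (Fin r → ℂ)) :=
  zclosure e X {Q | ∃ f : ℂ → (Fin (n + 1) → ℂ) × (Fin r → ℂ),
    DifferentiableOn ℂ f (Metric.ball 0 1 \ {0}) ∧ (∀ z ∈ Metric.ball (0 : ℂ) 1 \ {0}, f z ∈ X) ∧
    (¬ ∃ F : ℂ → (Fin (n + 1) → ℂ) × (Fin r → ℂ), DifferentiableOn ℂ F (Metric.ball 0 1) ∧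
      (∀ z ∈ Metric.ball (0 : ℂ) 1, F z ∈ Y) ∧
      ∀ z ∈ Metric.ball (0 : ℂ) 1 \ {0}, Same e (f z) (F z)) ∧
    ∃ z ∈ Metric.ball (0 : ℂ) 1 \ {0}, Q = f z}

theorem zclosure_closed {n r : ℕ} (e : Fin r → ℕ)
    (X A : Set ((Fin (n + 1) → ℂ) × (Fin r → ℂ))) : Ell.IsClosedIn e X (zclosure e X A) := by
  refine ⟨{HE : MvPolynomial (Fin (n + 1) ⊕ Fin r) ℂ × ℕ //
    IsWeightedHomogeneous (Sum.elim (fun _ => 1) e) HE.1 HE.2 ∧ ∀ Q ∈ A, Ell.val Q HE.1 = 0},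
    fun HE => HE.1.1, fun HE => HE.1.2, fun HE => HE.2.1, ?_⟩
  ext P
  constructor
  · rintro ⟨h1, h2⟩
    exact ⟨h1, fun HE => h2 _ _ HE.2.1 HE.2.2⟩
  · rintro ⟨h1, h2⟩
    exact ⟨h1, fun H E hH hA => h2 ⟨(H, E), hH, hA⟩⟩

theorem subset_zclosure {n r : ℕ} {e : Fin r → ℕ}
    {X A : Set ((Fin (n + 1) → ℂ) × (Fin r → ℂ))} (h : A ⊆ X) : A ⊆ zclosure e X A :=
  fun _ hP => ⟨h hP, fun _ _ _ hA => hA _ hP⟩

theorem val_same {n r : ℕ} {e : Fin r → ℕ} {P Q : (Fin (n + 1) → ℂ) × (Fin r → ℂ)}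
    (h : Same e P Q) {H : MvPolynomial (Fin (n + 1) ⊕ Fin r) ℂ} {E : ℕ}
    (hH : IsWeightedHomogeneous (Sum.elim (fun _ => 1) e) H E) (hP : Ell.val P H ≠ 0) :
    Ell.val Q H ≠ 0 := by
  obtain ⟨a, ha, h1, h2⟩ := h
  have e1 : Sum.elim Q.1 Q.2 = fun j => a ^ (Sum.elim (fun _ => 1) e j : ℕ) *
      Sum.elim P.1 P.2 j := by
    funext j
    rcases j with j | j
    · simp only [Sum.elim_inl, pow_one]
      exact h1 j
    · simp only [Sum.elim_inr]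
      exact h2 j
  rw [Ell.val, e1, eval_wscale hH]
  exact mul_ne_zero (pow_ne_zero _ ha) hP

/-- the special sets are everything -/
theorem special {n r g : ℕ} {m : Fin r → ℕ} (hm : ∀ i, 2 ≤ m i)
    {F : Fin r → MvPolynomial (Fin (n + 1)) ℂ} {e : Fin r → ℕ} (he : ∀ i, 0 < e i)
    (hF : ∀ i, (F i).IsHomogeneous (m i * e i))
    {G : Fin g → MvPolynomial (Fin (n + 1)) ℂ} {d : Fin g → ℕ} (hG : ∀ i, (G i).IsHomogeneous (d i))
    {B : MvPolynomial (Fin (n + 1)) ℂ} {δ : ℕ} (hB : B.IsHomogeneous δ)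
    (hK : ∑ i, (m i - 1) * e i + δ + ∑ j, d j ≤ n + 1)
    (h0 : δ = 0 → ∑ i, (m i - 1) * e i + ∑ j, d j = n + 1 →
      (∃ i, 3 ∣ m i ∨ 4 ∣ m i) ∨ 2 ≤ ∑ i with 2 ∣ m i, e i)
    (h0' : δ = 0 → ∑ i, (m i - 1) * e i + ∑ j, d j = n → 0 < r)
    (h1 : δ = 1 → ∑ i, (m i - 1) * e i + ∑ j, d j = n → ∃ i, 2 ∣ m i)
    (hirr : Ell.Irr e (Ell.Pts m F G B)) (hFX : ∀ i, ∃ P ∈ Ell.Pts m F G B, eval P.1 (F i) ≠ 0) :
    SpSab e (Ell.Pts m F G B) = Ell.Pts m F G B ∧ SpHol e (Ell.Pts m F G B) = Ell.Pts m F G B ∧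
      SpPic e (Ell.Pts m F G B) (Ell.Pts m F G 1) = Ell.Pts m F G B := by
  obtain ⟨b1, b2, -⟩ := Ell.main hm he hF hG hB hK h0 h0' h1 hirr hFX
  refine ⟨?_, ?_, ?_⟩
  · refine Set.Subset.antisymm (fun P hP => hP.1) fun P hP => ⟨hP, fun H E hH hA => ?_⟩
    by_contra hne
    obtain ⟨P', hP', hPH, hPF⟩ := Ell.exists_point hF hirr hFX hH ⟨P, hP, hne⟩
    obtain ⟨v, hv, s, D, S, T, hs, hD, hPar, W, hW, hX⟩ := (line_all m hm F e hF G d hG B δ hB
      P'.1 hP'.1 hPF hP'.2.2.1 hP'.2.2.2 (fun _ => True) (fun _ => trivial) he hK h0 h0' h1).no_ga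
    obtain ⟨f, hf, hfX, ⟨t0, ht0⟩, hfn, -⟩ :=
      exists_map (fun i => by have := hm i; omega) hF hP' hPF hv hPar hW hX
    exact val_same ht0 hH hPH (hA _ ⟨s, D, f, hs, hf, hfX, hfn, t0, rfl⟩)
  · by_contra hne
    refine b1 ⟨_, zclosure_closed e _ _, hne, fun f hf hfX hfn z => subset_zclosure ?_
      ⟨f, hf, hfX, hfn, z, rfl⟩⟩
    rintro _ ⟨f, -, hfX, -, z, rfl⟩
    exact hfX z
  · by_contra hne
    refine b2 ⟨_, zclosure_closed e _ _, hne, fun f hf hfX hfn => ?_⟩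
    by_contra hcon
    obtain ⟨z, hz, hz'⟩ := hfn
    refine hz' (subset_zclosure ?_ ⟨f, hf, hfX, hcon, z, hz, rfl⟩)
    rintro _ ⟨f, -, hfX, -, z, hz, rfl⟩
    exact hfX z hz

end special

end Pool.Agent.W600.Alg
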