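import Pool.Agent.W600.Alg.Forms

/-!
# Elliptic curves over the projective line with four or three given orbifold points
-/

set_option autoImplicit false

namespace Pool.Agent.W600.Alg

open MvPolynomial

variable {k : Type*} [Field k] [IsAlgClosed k] [CharZero k]

/-- the source is an elliptic curve -/
def Src.IsEll : Src k → Prop
  | .ga => False
  | .gm => False
  | .ell _ _ _ => True

/-- the source is an elliptic curve and the degree is positive; there is a map to the projective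
line with the given powers -/
def EllMap (Q : (s : Src k) → ℕ → (s.Pt → k) → (s.Pt → k) → Prop) : Prop :=
  ∃ (a b : k) (h : 4 * a ^ 3 + 27 * b ^ 2 ≠ 0) (D : ℕ) (S T : (Src.ell a b h).Pt → k), 0 < D ∧
    Par (Src.ell a b h) D S T ∧ Q (Src.ell a b h) D S T

theorem e4 (c0 c1 c2 c3 : k) (h01 : c0 ≠ c1) (h02 : c0 ≠ c2) (h03 : c0 ≠ c3) (h12 : c1 ≠ c2)
    (h13 : c1 ≠ c3) (h23 : c2 ≠ c3) : EllMap fun s D S T => PowerOn s D S T c0 2 ∧
      PowerOn s D S T c1 2 ∧ PowerOn s D S T c2 2 ∧ PowerOn s D S T c3 2 := by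
  have k01 := sub_ne_zero.2 h01
  have k02 := sub_ne_zero.2 h02
  have k03 := sub_ne_zero.2 h03
  have k12 := sub_ne_zero.2 h12
  have k13 := sub_ne_zero.2 h13
  have k23 := sub_ne_zero.2 h23
  obtain ⟨lam, hlam⟩ : ∃ l : k, l = (c0 - c3) * (c1 - c2) / ((c1 - c3) * (c0 - c2)) := ⟨_, rfl⟩
  have hl0 : lam ≠ 0 := by
    rw [hlam]
    exact div_ne_zero (mul_ne_zero k03 k12) (mul_ne_zero k13 k02)
  have hl1 : lam ≠ 1 := by
    intro h
    rw [hlam, div_eq_one_iff_eq (mul_ne_zero k13 k02)] at h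
    have : (c0 - c1) * (c2 - c3) = 0 := by linear_combination -h
    rcases mul_eq_zero.1 this with h' | h'
    · exact k01 h'
    · exact k23 h'
  obtain ⟨a, b, hab, Φ, hd, E1, E2, hnz, z0, z1, hz0, hz1, hz2⟩ := jacobi lam hl0 hl1
  have r0 : (Src.ell a b hab).Reg 8 fun z => (c0 - c2) * Φ 0 z ^ 2 := reg_cmul _ (reg_pow (hd 0) 2)
  have r1 : (Src.ell a b hab).Reg 8 fun z => (c1 - c2) * Φ 1 z ^ 2 := reg_cmul _ (reg_pow (hd 1) 2)
  obtain ⟨S, T, hP, hST⟩ := par_of r0 r1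
    (fun z => (hnz z).imp (fun h => mul_ne_zero k02 (pow_ne_zero 2 h))
      (fun h => mul_ne_zero k12 (pow_ne_zero 2 h)))
    (nonprop (P := z0) (P' := z1) (by simp [hz0]) (mul_ne_zero k12 (pow_ne_zero 2 hz1))
      (mul_ne_zero k02 (pow_ne_zero 2 hz2))) (hit_ell (by norm_num) r0 r1) h01
  refine ⟨a, b, hab, 8, S, T, by norm_num, hP, ?_, ?_, ?_, ?_⟩
  · exact powerOn_of (a := c0 - c2) two_ne_zero rfl (hd 0) fun z => by
      rw [hST]; field_simp; ring
  · exact powerOn_of (a := c1 - c2) two_ne_zero rfl (hd 1) fun z => by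
      rw [hST]; field_simp; ring
  · refine powerOn_of (a := (c2 - c1) * (c0 - c2) / (c0 - c1)) two_ne_zero rfl (hd 2) fun z => ?_
    rw [hST, E1 z]
    field_simp
    ring
  · refine powerOn_of (a := (c3 - c1) * (c0 - c2) / (c0 - c1)) two_ne_zero rfl (hd 3) fun z => ?_
    rw [hST, E2 z, hlam]
    field_simp
    ring

theorem e3 (c0 c1 c2 : k) (h01 : c0 ≠ c1) (h02 : c0 ≠ c2) (h12 : c1 ≠ c2) :
    EllMap fun s D S T => PowerOn s D S T c0 3 ∧ PowerOn s D S T c1 3 ∧
      PowerOn s D S T c2 3 := by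
  have k01 := sub_ne_zero.2 h01
  have k02 := sub_ne_zero.2 h02
  have k12 := sub_ne_zero.2 h12
  have k21 := sub_ne_zero.2 h12.symm
  obtain ⟨a, b, hab, Φ, hd, E, hnz, z0, z1, hz0, hz1, hz2⟩ := fermat (k := k)
  have r0 : (Src.ell a b hab).Reg 9 fun z => (c0 - c2) * Φ 0 z ^ 3 := reg_cmul _ (reg_pow (hd 0) 3)
  have r1 : (Src.ell a b hab).Reg 9 fun z => (c2 - c1) * Φ 2 z ^ 3 := reg_cmul _ (reg_pow (hd 2) 3)
  obtain ⟨S, T, hP, hST⟩ := par_of r0 r1
    (fun z => (hnz z).imp (fun h => mul_ne_zero k02 (pow_ne_zero 3 h))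
      (fun h => mul_ne_zero k21 (pow_ne_zero 3 h)))
    (nonprop (P := z0) (P' := z1) (by simp [hz0]) (mul_ne_zero k21 (pow_ne_zero 3 hz1))
      (mul_ne_zero k02 (pow_ne_zero 3 hz2))) (hit_ell (by norm_num) r0 r1) h01
  refine ⟨a, b, hab, 9, S, T, by norm_num, hP, ?_, ?_, ?_⟩
  · exact powerOn_of (a := c0 - c2) three_ne_zero rfl (hd 0) fun z => by
      rw [hST]; field_simp; ring
  · exact powerOn_of (a := c2 - c1) three_ne_zero rfl (hd 2) fun z => by
      rw [hST]; field_simp; ring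
  · refine powerOn_of (a := - ((c2 - c1) * (c0 - c2) / (c0 - c1))) three_ne_zero rfl (hd 1)
      fun z => ?_
    have : Φ 1 z ^ 3 = - (Φ 0 z ^ 3 + Φ 2 z ^ 3) := by linear_combination E z
    rw [hST, this]
    field_simp

theorem e42 (c0 c1 c2 : k) (h01 : c0 ≠ c1) (h02 : c0 ≠ c2) (h12 : c1 ≠ c2) :
    EllMap fun s D S T => PowerOn s D S T c0 4 ∧ PowerOn s D S T c1 4 ∧
      PowerOn s D S T c2 2 := by
  have k01 := sub_ne_zero.2 h01
  have k02 := sub_ne_zero.2 h02
  have k12 := sub_ne_zero.2 h12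
  have k21 := sub_ne_zero.2 h12.symm
  obtain ⟨a, b, hab, Φ0, Φ1, Φ2, d0, d1, d2, E, hnz, z0, z1, hz0, hz1, hz2⟩ := quartic (k := k)
  have r0 : (Src.ell a b hab).Reg 16 fun z => (c0 - c2) * Φ0 z ^ 4 := reg_cmul _ (reg_pow d0 4)
  have r1 : (Src.ell a b hab).Reg 16 fun z => (c2 - c1) * Φ1 z ^ 4 := reg_cmul _ (reg_pow d1 4)
  obtain ⟨S, T, hP, hST⟩ := par_of r0 r1
    (fun z => (hnz z).imp (fun h => mul_ne_zero k02 (pow_ne_zero 4 h))
      (fun h => mul_ne_zero k21 (pow_ne_zero 4 h)))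
    (nonprop (P := z0) (P' := z1) (by simp [hz0]) (mul_ne_zero k21 (pow_ne_zero 4 hz1))
      (mul_ne_zero k02 (pow_ne_zero 4 hz2))) (hit_ell (by norm_num) r0 r1) h01
  refine ⟨a, b, hab, 16, S, T, by norm_num, hP, ?_, ?_, ?_⟩
  · exact powerOn_of (a := c0 - c2) four_ne_zero rfl d0 fun z => by
      rw [hST]; field_simp; ring
  · exact powerOn_of (a := c2 - c1) four_ne_zero rfl d1 fun z => by
      rw [hST]; field_simp; ring
  · refine powerOn_of (a := (c2 - c1) * (c0 - c2) / (c0 - c1)) two_ne_zero rfl d2 fun z => ?_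
    rw [hST, ← E z]
    field_simp

/-- arbitrary parameters -/
theorem e4' (c : Fin 4 → k) : EllMap fun s D S T => ∀ i, PowerOn s D S T (c i) 2 := by
  classical
  obtain ⟨s, hs, hcard⟩ := Infinite.exists_superset_card_eq (Finset.univ.image c) 4
    (Finset.card_image_le.trans (by simp))
  obtain ⟨e⟩ : Nonempty (s ≃ Fin 4) := ⟨Finset.equivFinOfCardEq hcard⟩
  have hinj : ∀ i j : Fin 4, i ≠ j → ((e.symm i : s) : k) ≠ (e.symm j : s) := fun i j hij h =>
    hij (e.symm.injective (Subtype.ext h))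
  obtain ⟨a, b, hab, D, S, T, hD, hP, p0, p1, p2, p3⟩ :=
    e4 (e.symm 0 : k) (e.symm 1) (e.symm 2) (e.symm 3)
    (hinj _ _ (by decide)) (hinj _ _ (by decide)) (hinj _ _ (by decide)) (hinj _ _ (by decide))
    (hinj _ _ (by decide)) (hinj _ _ (by decide))
  refine ⟨a, b, hab, D, S, T, hD, hP, fun i => ?_⟩
  have hall : ∀ j : Fin 4, PowerOn _ D S T (e.symm j : s) 2 := by
    intro j
    fin_cases j
    exacts [p0, p1, p2, p3]
  have := hall (e ⟨c i, hs (by simp)⟩)
  simpa using this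

theorem e3' (c : Fin 3 → k) : EllMap fun s D S T => ∀ i, PowerOn s D S T (c i) 3 := by
  classical
  obtain ⟨s, hs, hcard⟩ := Infinite.exists_superset_card_eq (Finset.univ.image c) 3
    (Finset.card_image_le.trans (by simp))
  obtain ⟨e⟩ : Nonempty (s ≃ Fin 3) := ⟨Finset.equivFinOfCardEq hcard⟩
  have hinj : ∀ i j : Fin 3, i ≠ j → ((e.symm i : s) : k) ≠ (e.symm j : s) := fun i j hij h =>
    hij (e.symm.injective (Subtype.ext h))
  obtain ⟨a, b, hab, D, S, T, hD, hP, p0, p1, p2⟩ := e3 (e.symm 0 : k) (e.symm 1) (e.symm 2)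
    (hinj _ _ (by decide)) (hinj _ _ (by decide)) (hinj _ _ (by decide))
  refine ⟨a, b, hab, D, S, T, hD, hP, fun i => ?_⟩
  have hall : ∀ j : Fin 3, PowerOn _ D S T (e.symm j : s) 3 := by
    intro j
    fin_cases j
    exacts [p0, p1, p2]
  have := hall (e ⟨c i, hs (by simp)⟩)
  simpa using this

theorem e42' (c0 c1 c2 : k) : EllMap fun s D S T => PowerOn s D S T c0 4 ∧
    PowerOn s D S T c1 4 ∧ PowerOn s D S T c2 2 := by
  classical
  obtain ⟨b, hb0, hb2⟩ : ∃ b : k, b ≠ c0 ∧ b ≠ c2 := by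
    have := Infinite.exists_notMem_finset ({c0, c2} : Finset k)
    simpa using this
  obtain ⟨b', hb0', hb1'⟩ : ∃ b : k, b ≠ c0 ∧ b ≠ c1 := by
    have := Infinite.exists_notMem_finset ({c0, c1} : Finset k)
    simpa using this
  obtain ⟨b'', hb0'', hb1''⟩ : ∃ b' : k, b' ≠ c0 ∧ b' ≠ b := by
    have := Infinite.exists_notMem_finset ({c0, b} : Finset k)
    simpa using this
  by_cases h01 : c0 = c1
  · subst h01
    by_cases h02 : c0 = c2
    · subst h02
      obtain ⟨x, y, hxy, D, S, T, hD, hP, p0, p1, p2⟩ :=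
        e42 c0 b b'' hb0.symm hb0''.symm hb1''.symm
      exact ⟨x, y, hxy, D, S, T, hD, hP, p0, p0, p0.mono (by norm_num)⟩
    · obtain ⟨x, y, hxy, D, S, T, hD, hP, p0, p1, p2⟩ := e42 c0 b c2 hb0.symm h02 hb2
      exact ⟨x, y, hxy, D, S, T, hD, hP, p0, p0, p2⟩
  · by_cases h02 : c0 = c2
    · subst h02
      obtain ⟨x, y, hxy, D, S, T, hD, hP, p0, p1, p2⟩ := e42 c0 c1 b' h01 hb0'.symm hb1'.symm
      exact ⟨x, y, hxy, D, S, T, hD, hP, p0, p1, p0.mono (by norm_num)⟩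
    · by_cases h12 : c1 = c2
      · subst h12
        obtain ⟨x, y, hxy, D, S, T, hD, hP, p0, p1, p2⟩ := e42 c0 c1 b' h01 hb0'.symm hb1'.symm
        exact ⟨x, y, hxy, D, S, T, hD, hP, p0, p1, p1.mono (by norm_num)⟩
      · exact e42 c0 c1 c2 h01 h02 h12

omit [IsAlgClosed k] [CharZero k] in
theorem reg_id (D : ℕ) : (Src.ga : Src k).Reg D fun t : k => t :=
  ⟨Polynomial.X, fun t => by simp⟩

omit [IsAlgClosed k] in
/-- the affine line -/
theorem ga_const (c : k) : ∃ S T, Par (Src.ga : Src k) 1 S T ∧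
    ∀ t : (Src.ga : Src k).Pt, S t + c * T t = 1 := by
  have r1 : (Src.ga : Src k).Reg 1 fun _ => 1 := reg_ga_weight (reg_const _ 1)
  have rS : (Src.ga : Src k).Reg 1 fun t : k => 1 - c * t := reg_sub r1 (reg_cmul c (reg_id 1))
  refine ⟨fun t : k => 1 - c * t, fun t : k => t, ⟨rS, reg_id 1, fun t : k => ?_,
    ⟨(1 : k), (0 : k), ?_⟩, ⟨(0 : k), rfl⟩⟩, fun t : k => ?_⟩
  · by_cases ht : t = 0
    · left
      show 1 - c * t ≠ 0
      rw [ht]
      simp
    · right
      exact ht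
  · show (1 - c * (1 : k)) * 0 ≠ (1 - c * 0) * 1
    simp
  · show 1 - c * t + c * t = 1
    ring

/-- a cyclic cover ramified over two points, seen from the affine line -/
theorem ga_rat (c c' : k) {m : ℕ} (hm : 2 ≤ m) : ∃ S T, Par (Src.ga : Src k) 1 S T ∧
    ∃ y, (Src.ga : Src k).Reg 1 y ∧
      ∀ t, y t ^ m = (S t + c * T t) ^ (m - 1) * (S t + c' * T t) := by
  by_cases h : c = c'
  · subst h
    obtain ⟨S, T, hP, hc⟩ := ga_const c
    refine ⟨S, T, hP, fun _ => 1, reg_ga_weight (reg_const _ 1), fun t => ?_⟩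
    rw [hc]
    simp
  have h' := sub_ne_zero.2 h
  have hm0 : m ≠ 0 := by omega
  have r1 : (Src.ga : Src k).Reg 1 fun _ => 1 := reg_ga_weight (reg_const _ 1)
  have rt : (Src.ga : Src k).Reg 1 fun t : k => t ^ m := reg_ga_weight (reg_pow (reg_id 1) m)
  obtain ⟨S, T, hP, hST⟩ := par_of r1 rt (fun t => Or.inl one_ne_zero)
    ⟨(1 : k), (0 : k), by
      show (1 : k) * 0 ^ m ≠ 1 * 1 ^ m
      simp [hm0]⟩ ⟨(1 : k), by
      show (1 : k) = 1 ^ m
      simp⟩ h
  have e1 : ∀ t, S t + c * T t = 1 := fun t => by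
    rw [hST]
    field_simp
    ring
  have e2 : ∀ t : k, S t + c' * T t = t ^ m := fun t => by
    have := hST c' t
    rw [this]
    show ((c' - c') * 1 + (c - c') * t ^ m) / (c - c') = t ^ m
    field_simp
    ring
  have e3 : ∀ t : k, t ^ m = (S t + c * T t) ^ (m - 1) * (S t + c' * T t) := fun t => by
    have h1 := e1 t
    have h2 := e2 t
    calc t ^ m = 1 ^ (m - 1) * t ^ m := by rw [one_pow, one_mul]
      _ = _ := by rw [← h2, ← h1]
  exact ⟨S, T, hP, fun t : k => t, reg_id 1, e3⟩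

omit [IsAlgClosed k] in
theorem gm_two (a b : k) : ∃ S T, Par (Src.gm : Src k) 1 S T ∧ (∀ t, S t + a * T t ≠ 0) ∧
    ∀ t, S t + b * T t ≠ 0 := by
  have r1 : (Src.gm : Src k).Reg 1 fun _ => 1 := reg_gm_weight (reg_const _ 1)
  have rt : (Src.gm : Src k).Reg 1 fun t => t.1 := reg_t 1
  have h2 : (-1 : k) ≠ 1 := by
    intro h
    have : (2 : k) = 0 := by linear_combination -h
    exact two_ne_zero this
  let t1 : (Src.gm : Src k).Pt := ⟨1, one_ne_zero⟩
  let tm : (Src.gm : Src k).Pt := ⟨-1, neg_ne_zero.2 one_ne_zero⟩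
  by_cases h : a = b
  · subst h
    have rs : (Src.gm : Src k).Reg 1 fun t => 1 - a * (t.1 - 1) :=
      reg_sub r1 (reg_cmul a (reg_sub rt r1))
    refine ⟨_, _, ⟨rs, reg_sub rt r1, fun t => ?_, ⟨tm, t1, ?_⟩, ⟨t1, ?_⟩⟩, fun t => ?_,
      fun t => ?_⟩
    · by_cases ht : t.1 - 1 = 0
      · left
        show 1 - a * (t.1 - 1) ≠ 0
        rw [ht]
        simp
      · right
        exact ht
    · show (1 - a * ((-1 : k) - 1)) * (1 - 1) ≠ (1 - a * (1 - 1)) * ((-1 : k) - 1)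
      simp only [sub_self, mul_zero, sub_zero, one_mul]
      intro h
      exact h2 (sub_eq_zero.1 h.symm)
    · show (1 : k) - 1 = 0
      simp
    · have : 1 - a * (t.1 - 1) + a * (t.1 - 1) = 1 := by ring
      show 1 - a * (t.1 - 1) + a * (t.1 - 1) ≠ 0
      rw [this]
      exact one_ne_zero
    · have : 1 - a * (t.1 - 1) + a * (t.1 - 1) = 1 := by ring
      show 1 - a * (t.1 - 1) + a * (t.1 - 1) ≠ 0
      rw [this]
      exact one_ne_zero
  · have h' := sub_ne_zero.2 h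
    obtain ⟨S, T, hP, hST⟩ := par_of rt r1 (fun t => Or.inl t.2)
      ⟨t1, tm, by
        show (1 : k) * 1 ≠ -1 * 1
        intro h
        exact h2 (by linear_combination -h)⟩ ⟨t1, rfl⟩ h
    refine ⟨S, T, hP, fun t => ?_, fun t => ?_⟩
    · have : S t + a * T t = t.1 := by
        rw [hST]
        field_simp
        ring
      rw [this]
      exact t.2
    · have : S t + b * T t = 1 := by
        rw [hST]
        field_simp
        ring
      rw [this]
      exact one_ne_zero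

/-- one omitted point and a double cover -/
theorem gm_half (c c' γ : k) : ∃ S T, Par (Src.gm : Src k) 1 S T ∧ (∀ t, S t + γ * T t ≠ 0) ∧
    ∃ y, (Src.gm : Src k).Reg 1 y ∧ ∀ t, y t ^ 2 = (S t + c * T t) * (S t + c' * T t) := by
  have r1 : (Src.gm : Src k).Reg 1 fun _ => 1 := reg_gm_weight (reg_const _ 1)
  have rt : (Src.gm : Src k).Reg 1 fun t => t.1 := reg_t 1
  have rt2 : (Src.gm : Src k).Reg 1 fun t => (t.1 - 1) ^ 2 := reg_gm_weight (reg_pow (reg_sub rt r1) 2)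
  have h2 : (-1 : k) ≠ 1 := by
    intro h
    have : (2 : k) = 0 := by linear_combination -h
    exact two_ne_zero this
  let t1 : (Src.gm : Src k).Pt := ⟨1, one_ne_zero⟩
  let tm : (Src.gm : Src k).Pt := ⟨-1, neg_ne_zero.2 one_ne_zero⟩
  let t2 : (Src.gm : Src k).Pt := ⟨2, two_ne_zero⟩
  by_cases h : c = c'
  · subst h
    obtain ⟨S, T, hP, h1, h2⟩ := gm_two γ γ
    exact ⟨S, T, hP, h1, _, reg_add hP.hS (reg_cmul c hP.hT), fun t => sq _⟩
  have h' := sub_ne_zero.2 h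
  by_cases h1 : γ = c
  · subst h1
    obtain ⟨S, T, hP, hST⟩ := par_of r1 rt2 (fun t => Or.inl one_ne_zero)
      ⟨tm, t1, by
        show (1 : k) * (1 - 1) ^ 2 ≠ 1 * (-1 - 1) ^ 2
        norm_num⟩ ⟨t2, by
        show (1 : k) = (2 - 1) ^ 2
        norm_num⟩ h
    have e1 : ∀ t, S t + γ * T t = 1 := fun t => by
      rw [hST]
      field_simp
      ring
    have e2 : ∀ t, S t + c' * T t = (t.1 - 1) ^ 2 := fun t => by
      rw [hST]
      field_simp
      ring
    exact ⟨S, T, hP, fun t => by rw [e1]; exact one_ne_zero, _, reg_sub rt r1,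
      fun t => by rw [e1, e2, one_mul]⟩
  by_cases h1' : γ = c'
  · subst h1'
    have h'' := sub_ne_zero.2 (Ne.symm h)
    obtain ⟨S, T, hP, hST⟩ := par_of r1 rt2 (fun t => Or.inl one_ne_zero)
      ⟨tm, t1, by
        show (1 : k) * (1 - 1) ^ 2 ≠ 1 * (-1 - 1) ^ 2
        norm_num⟩ ⟨t2, by
        show (1 : k) = (2 - 1) ^ 2
        norm_num⟩ (Ne.symm h)
    have e1 : ∀ t, S t + γ * T t = 1 := fun t => by
      rw [hST]
      field_simp
      ring
    have e2 : ∀ t, S t + c * T t = (t.1 - 1) ^ 2 := fun t => by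
      rw [hST]
      field_simp
      ring
    exact ⟨S, T, hP, fun t => by rw [e1]; exact one_ne_zero, _, reg_sub rt r1,
      fun t => by rw [e1, e2, mul_one]⟩
  have k1 : c - γ ≠ 0 := sub_ne_zero.2 (Ne.symm h1)
  have k2 : c' - γ ≠ 0 := sub_ne_zero.2 (Ne.symm h1')
  -- `h² - g² = t`
  let hh : (Src.gm : Src k).Pt → k := fun t => (1 + t.1) / 2
  let gg : (Src.gm : Src k).Pt → k := fun t => (t.1 - 1) / 2
  have rh : (Src.gm : Src k).Reg 1 hh := by
    have := reg_cmul (1 / 2 : k) (reg_add r1 rt)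
    refine (congrArg ((Src.gm : Src k).Reg 1) (funext fun t => ?_)).mp this
    simp only [hh]
    ring
  have rg : (Src.gm : Src k).Reg 1 gg := by
    have := reg_cmul (1 / 2 : k) (reg_sub rt r1)
    refine (congrArg ((Src.gm : Src k).Reg 1) (funext fun t => ?_)).mp this
    simp only [gg]
    ring
  have hne : ∀ z, hh z ≠ 0 ∨ gg z ≠ 0 := by
    intro z
    by_contra hcon
    push Not at hcon
    have : hh z - gg z = 1 := by
      simp only [hh, gg]
      ring
    rw [hcon.1, hcon.2, sub_zero] at this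
    exact zero_ne_one this
  have rA : (Src.gm : Src k).Reg 1 fun z => (c - γ) * hh z ^ 2 :=
    reg_gm_weight (reg_cmul _ (reg_pow rh 2))
  have rB : (Src.gm : Src k).Reg 1 fun z => (c' - γ) * gg z ^ 2 :=
    reg_gm_weight (reg_cmul _ (reg_pow rg 2))
  -- a point where both agree
  have hit : ∃ t, (c - γ) * hh t ^ 2 = (c' - γ) * gg t ^ 2 := by
    obtain ⟨κ, hκ⟩ := IsAlgClosed.exists_pow_nat_eq ((c' - γ) / (c - γ)) two_pos
    have hκ1 : κ ≠ 1 := by
      rintro rfl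
      rw [one_pow, eq_comm, div_eq_one_iff_eq k1] at hκ
      exact h (by linear_combination -hκ)
    have hκm : κ + 1 ≠ 0 := by
      intro h0
      have : κ = -1 := by linear_combination h0
      rw [this, neg_one_sq, eq_comm, div_eq_one_iff_eq k1] at hκ
      exact h (by linear_combination -hκ)
    have hκ1' : κ - 1 ≠ 0 := sub_ne_zero.2 hκ1
    refine ⟨⟨(κ + 1) / (κ - 1), div_ne_zero hκm hκ1'⟩, ?_⟩
    simp only [hh, gg]
    have e : c' - γ = (c - γ) * κ ^ 2 := by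
      rw [hκ]
      field_simp
    rw [e]
    field_simp
    ring
  obtain ⟨S, T, hP, hST⟩ := par_of rA rB
    (fun z => (hne z).imp (fun h => mul_ne_zero k1 (pow_ne_zero 2 h))
      (fun h => mul_ne_zero k2 (pow_ne_zero 2 h)))
    (nonprop (P := t1) (P' := tm) (by simp [gg, t1]) (by
      simp only [gg, tm]
      exact mul_ne_zero k2 (by norm_num)) (by
      simp only [hh, t1]
      exact mul_ne_zero k1 (by norm_num))) hit h
  obtain ⟨ρ, hρ⟩ := IsAlgClosed.exists_pow_nat_eq ((c - γ) * (c' - γ)) two_pos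
  refine ⟨S, T, hP, fun z => ?_, fun z => ρ * (hh z * gg z),
    reg_gm_weight (reg_cmul ρ (reg_mul rh rg)), fun z => ?_⟩
  · have : S z + γ * T z = (γ - c') * (c - γ) / (c - c') * z.1 := by
      have e0 : hh z ^ 2 - gg z ^ 2 = z.1 := by
        simp only [hh, gg]
        ring
      rw [hST, ← e0]
      field_simp
      ring
    rw [this]
    refine mul_ne_zero (div_ne_zero (mul_ne_zero ?_ k1) h') z.2
    rw [← neg_ne_zero, neg_sub]
    exact k2
  · have e1 : S z + c * T z = (c - γ) * hh z ^ 2 := by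
      rw [hST]
      field_simp
      ring
    have e2 : S z + c' * T z = (c' - γ) * gg z ^ 2 := by
      rw [hST]
      field_simp
      ring
    rw [e1, e2, mul_pow, hρ]
    ring

/-- a rational curve, seen from an elliptic curve -/
theorem ell_const (c : k) : EllMap fun s D S T => ∃ f, s.Reg 1 f ∧ D = 2 ∧
    ∀ P, S P + c * T P = f P ^ 2 := by
  have hab : 4 * (0 : k) ^ 3 + 27 * (1 : k) ^ 2 ≠ 0 := by norm_num
  have hz : (Src.ell 0 1 hab).Reg 2 fun P => P.1 2 ^ 2 := reg_pow reg_z 2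
  refine ⟨0, 1, hab, 2, fun P => P.1 2 ^ 2 - c * P.1 0, fun P => P.1 0, by norm_num,
    ⟨reg_sub hz (reg_cmul c reg_x), reg_x, ?_, ?_, exists_zero (by norm_num) reg_x⟩,
    fun P => P.1 2, reg_z, rfl, fun P => by ring⟩
  · rintro ⟨P, hP0, hP⟩
    by_contra hcon
    push Not at hcon
    obtain ⟨c0, c1⟩ := hcon
    have c0 : P 2 ^ 2 - c * P 0 = 0 := c0
    have c1 : P 0 = 0 := c1
    have hz0 : P 2 = 0 := by
      rw [c1] at c0
      exact pow_eq_zero_iff (two_ne_zero) |>.1 (by linear_combination c0)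
    have hy0 : P 1 = 0 := by
      rw [hz0, c1] at hP
      exact pow_eq_zero_iff (two_ne_zero) |>.1 (by linear_combination hP)
    exact hP0 (funext fun i => by fin_cases i <;> simp [c1, hy0, hz0])
  · refine ⟨inft 0 1 hab, ⟨![0, 1, 1], ?_, ?_⟩, ?_⟩
    · intro h
      have := congrFun h 2
      simp at this
    · simp
    · show ((![(1 : k), 1, 0] : Fin 3 → k) 2 ^ 2 - c * (![(1 : k), 1, 0] : Fin 3 → k) 0) *
        (![(0 : k), 1, 1] : Fin 3 → k) 0 ≠
        ((![(0 : k), 1, 1] : Fin 3 → k) 2 ^ 2 - c * (![(0 : k), 1, 1] : Fin 3 → k) 0) *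
        (![(1 : k), 1, 0] : Fin 3 → k) 0
      simp

/-- a cyclic cover ramified over two points, seen from an elliptic curve -/
theorem ell_rat (c c' : k) {m : ℕ} (hm : 2 ≤ m) : EllMap fun s D S T =>
    ∃ y, s.Reg D y ∧ ∀ P, y P ^ m = (S P + c * T P) ^ (m - 1) * (S P + c' * T P) := by
  by_cases h : c = c'
  · subst h
    obtain ⟨a, b, hab, D, S, T, hD, hP, f, hf, rfl, hf'⟩ := ell_const c
    refine ⟨a, b, hab, 2, S, T, hD, hP, fun P => f P ^ 2, reg_pow hf 2, fun P => ?_⟩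
    rw [← pow_succ, hf']
    congr 1
    omega
  have h' := sub_ne_zero.2 h
  have hm0 : m ≠ 0 := by omega
  have hab : 4 * (0 : k) ^ 3 + 27 * (1 : k) ^ 2 ≠ 0 := by norm_num
  have rz : (Src.ell 0 1 hab).Reg (m * 2) fun P => (P.1 2 ^ 2) ^ m :=
    reg_pow (D := 2) (reg_pow reg_z 2) m
  have rx : (Src.ell 0 1 hab).Reg (m * 2) fun P => P.1 0 ^ m := reg_pow reg_x m
  obtain ⟨S, T, hP, hST⟩ := par_of rz rx (by
      rintro ⟨P, hP0, hP⟩
      by_contra hcon
      push Not at hcon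
      obtain ⟨c0, c1⟩ := hcon
      have c0 : (P 2 ^ 2) ^ m = 0 := c0
      have c1 : P 0 ^ m = 0 := c1
      have hz0 : P 2 = 0 := by
        have := pow_eq_zero_iff hm0 |>.1 c0
        exact pow_eq_zero_iff (two_ne_zero) |>.1 this
      have hx0 : P 0 = 0 := pow_eq_zero_iff hm0 |>.1 c1
      have hy0 : P 1 = 0 := by
        rw [hz0, hx0] at hP
        exact pow_eq_zero_iff (two_ne_zero) |>.1 (by linear_combination hP)
      exact hP0 (funext fun i => by fin_cases i <;> simp [hx0, hy0, hz0])) (by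
      refine nonprop (P := ⟨![0, 1, 1], ?_, ?_⟩) (P' := inft 0 1 hab) ?_ ?_ ?_
      · intro h
        have := congrFun h 2
        simp at this
      · simp
      · show (![(0 : k), 1, 1] : Fin 3 → k) 0 ^ m = 0
        simp [hm0]
      · show (![(1 : k), 1, 0] : Fin 3 → k) 0 ^ m ≠ 0
        simp
      · show ((![(0 : k), 1, 1] : Fin 3 → k) 2 ^ 2) ^ m ≠ 0
        simp) (hit_ell (by omega) rz rx) h
  have e1 : ∀ z, S z + c * T z = (z.1 2 ^ 2) ^ m := fun z => by
    rw [hST]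
    field_simp
    ring
  have e2 : ∀ z, S z + c' * T z = z.1 0 ^ m := fun z => by
    rw [hST]
    field_simp
    ring
  refine ⟨0, 1, hab, m * 2, S, T, by omega, hP, fun P => (P.1 2 ^ 2) ^ (m - 1) * P.1 0, ?_, ?_⟩
  · have h1 : (Src.ell 0 1 hab).Reg ((m - 1) * 2) fun P => (P.1 2 ^ 2) ^ (m - 1) :=
      reg_pow (D := 2) (reg_pow reg_z 2) (m - 1)
    have h2 := reg_mul h1 reg_x
    have h3 : (m - 1) * 2 + 2 = m * 2 := by omega
    rwa [h3] at h2
  · intro P
    rw [e1, e2, mul_pow]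
    ring

end Pool.Agent.W600.Alg
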