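import Pool.Agent.W600.Alg.Cone

/-!
# Zeros of homogeneous functions on an elliptic curve
-/

set_option autoImplicit false

namespace Pool.Agent.W600.Alg

open MvPolynomial

variable {k : Type*} [Field k] {a b : k} {h : 4 * a ^ 3 + 27 * b ^ 2 ≠ 0}

/-- the cubic polynomial -/
noncomputable def cub (a b : k) : Polynomial k :=
  Polynomial.X ^ 3 + Polynomial.C a * Polynomial.X + Polynomial.C b

theorem eval_cub (a b x : k) : (cub a b).eval x = x ^ 3 + a * x + b := by simp [cub]

theorem cub_natDegree (a b : k) : (cub a b).natDegree = 3 := by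
  unfold cub
  compute_degree!

theorem exists_ab (a b : k) (p : MvPolynomial (Fin 3) k) : ∃ α β : Polynomial k, ∀ x y : k,
    y ^ 2 = (cub a b).eval x → eval ![x, y, 1] p = α.eval x + y * β.eval x := by
  induction p using MvPolynomial.induction_on with
  | C c => exact ⟨Polynomial.C c, 0, fun x y _ => by simp⟩
  | add p q hp hq =>
    obtain ⟨α, β, H⟩ := hp
    obtain ⟨α', β', H'⟩ := hq
    refine ⟨α + α', β + β', fun x y hxy => ?_⟩
    rw [map_add, H x y hxy, H' x y hxy, Polynomial.eval_add, Polynomial.eval_add]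
    ring
  | mul_X p i hp =>
    obtain ⟨α, β, H⟩ := hp
    fin_cases i
    · refine ⟨α * Polynomial.X, β * Polynomial.X, fun x y hxy => ?_⟩
      simp only [map_mul, H x y hxy, eval_X, Polynomial.eval_mul, Polynomial.eval_X]
      simp only [Fin.zero_eta, Matrix.cons_val]
      ring
    · refine ⟨β * cub a b, α, fun x y hxy => ?_⟩
      simp only [map_mul, H x y hxy, eval_X, Polynomial.eval_mul, ← hxy]
      simp only [Fin.mk_one, Matrix.cons_val]
      ring
    · refine ⟨α, β, fun x y hxy => ?_⟩
      simp only [map_mul, H x y hxy, eval_X]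
      simp only [Fin.reduceFinMk, Matrix.cons_val]
      ring

/-- a homogeneous function that vanishes at all finite points vanishes at infinity -/
theorem zero_at_inft [IsAlgClosed k] {D : ℕ} {f : EPt a b h → k} (hf : (Src.ell a b h).Reg D f)
    (H : ∀ P : EPt a b h, P.1 2 ≠ 0 → f P = 0) (P : EPt a b h) : f P = 0 := by
  by_cases hP : P.1 2 = 0
  · rcases Nat.eq_zero_or_pos D with rfl | hD
    · -- constant functions
      obtain ⟨p, hp, hp'⟩ := hf
      have e1 : ∀ Q : EPt a b h, f Q = coeff 0 p := by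
        intro Q
        have e2 : f Q = eval Q.1 p := hp' Q
        rw [e2]
        have e3 : p = C (coeff 0 p) := by
          ext d
          rw [coeff_C]
          split_ifs with hd
          · rw [← hd]
          · by_contra hne
            have h1 := hp hne
            rw [Finsupp.weight_apply, Finsupp.sum_fintype _ _ (by simp), Fin.sum_univ_three] at h1
            simp only [Matrix.cons_val, smul_eq_mul, mul_one] at h1
            apply hd
            ext i
            fin_cases i
            · show 0 = d 0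
              omega
            · show 0 = d 1
              omega
            · show 0 = d 2
              omega
        rw [e3]
        simp
      obtain ⟨Q, hQ⟩ : ∃ Q : EPt a b h, Q.1 2 ≠ 0 := by
        obtain ⟨y, hy⟩ := IsAlgClosed.exists_pow_nat_eq b two_pos
        refine ⟨⟨![0, y, 1], ?_, ?_⟩, ?_⟩
        · intro h0
          have := congrFun h0 2
          simp at this
        · simp only [Matrix.cons_val]
          rw [hy]
          ring
        · show (1 : k) ≠ 0
          exact one_ne_zero
      rw [e1 P, ← e1 Q]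
      exact H Q hQ
    · obtain ⟨Q, hQ⟩ := exists_zero hD (reg_sub hf (reg_pow reg_z D |> fun h' => by
        rwa [mul_one] at h'))
      by_cases hQ2 : Q.1 2 = 0
      · have h1 : f Q = 0 := by
          have : f Q - Q.1 2 ^ D = 0 := hQ
          rwa [hQ2, zero_pow hD.ne', sub_zero] at this
        obtain ⟨c, hc, g0, g1, g2⟩ := eqv_inft hQ2 hP
        rw [reg_eqv hf g0 g1 g2, h1, mul_zero]
      · exfalso
        have h1 : f Q - Q.1 2 ^ D = 0 := hQ
        rw [H Q hQ2, zero_sub, neg_eq_zero] at h1
        exact pow_ne_zero _ hQ2 h1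
  · exact H P hP

/-- the normalised representative of a finite point -/
theorem exists_normal (P : EPt a b h) (hP : P.1 2 ≠ 0) : ∃ Q : EPt a b h,
    Q.1 = ![P.1 0 / P.1 2 ^ 2, P.1 1 / P.1 2 ^ 3, 1] ∧ Eqv P Q := by
  have h0 := P.eq
  refine ⟨⟨![P.1 0 / P.1 2 ^ 2, P.1 1 / P.1 2 ^ 3, 1], ?_, ?_⟩, rfl, (P.1 2)⁻¹, inv_ne_zero hP,
    ?_, ?_, ?_⟩
  · intro h1
    have := congrFun h1 2
    simp at this
  · simp only [Matrix.cons_val]
    field_simp
    linear_combination h0
  · show P.1 0 / P.1 2 ^ 2 = _
    field_simp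
  · show P.1 1 / P.1 2 ^ 3 = _
    field_simp
  · show (1 : k) = _
    field_simp

/-- a homogeneous function which is not identically zero has finitely many zeros -/
theorem finite_zeros [IsAlgClosed k] {D : ℕ} {f : EPt a b h → k}
    (hf : (Src.ell a b h).Reg D f) {P₀ : EPt a b h} (h0 : f P₀ ≠ 0) :
    ∃ N : Polynomial k, N ≠ 0 ∧
      ∀ P : EPt a b h, P.1 2 ≠ 0 → f P = 0 → N.eval (P.1 0 / P.1 2 ^ 2) = 0 := by
  obtain ⟨p, hp, hp'⟩ := id hf
  obtain ⟨α, β, H⟩ := exists_ab a b p
  have hval : ∀ P Q : EPt a b h, Q.1 = ![P.1 0 / P.1 2 ^ 2, P.1 1 / P.1 2 ^ 3, 1] →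
      f Q = α.eval (P.1 0 / P.1 2 ^ 2) + P.1 1 / P.1 2 ^ 3 * β.eval (P.1 0 / P.1 2 ^ 2) := by
    intro P Q hQ
    have e1 : f Q = eval Q.1 p := hp' Q
    rw [e1, hQ, H]
    have e2 := Q.eq
    rw [hQ] at e2
    simp only [Matrix.cons_val] at e2
    rw [eval_cub]
    linear_combination e2
  refine ⟨α ^ 2 - cub a b * β ^ 2, ?_, ?_⟩
  · intro hN
    have hαβ : α = 0 ∧ β = 0 := by
      by_cases hβ : β = 0
      · refine ⟨?_, hβ⟩
        rw [hβ] at hN
        exact pow_eq_zero_iff two_ne_zero |>.1 (by linear_combination hN)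
      · exfalso
        have h1 : α ^ 2 = cub a b * β ^ 2 := sub_eq_zero.1 hN
        have hc : cub a b ≠ 0 := by
          intro h2
          have := cub_natDegree a b
          rw [h2, Polynomial.natDegree_zero] at this
          omega
        have h2 := congrArg Polynomial.natDegree h1
        rw [Polynomial.natDegree_pow, Polynomial.natDegree_mul hc (pow_ne_zero _ hβ),
          Polynomial.natDegree_pow, cub_natDegree] at h2
        omega
    apply h0
    refine zero_at_inft hf (fun P hP => ?_) P₀
    obtain ⟨Q, hQ, hPQ⟩ := exists_normal P hP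
    obtain ⟨c, hc, g0, g1, g2⟩ := hPQ.symm
    rw [reg_eqv hf g0 g1 g2, hval P Q hQ, hαβ.1, hαβ.2]
    simp
  · intro P hP hfP
    obtain ⟨Q, hQ, c, hc, g0, g1, g2⟩ := exists_normal P hP
    have h1 := reg_eqv hf g0 g1 g2
    rw [hfP, mul_zero, hval P Q hQ] at h1
    have e2 := Q.eq
    rw [hQ] at e2
    simp only [Matrix.cons_val] at e2
    simp only [Polynomial.eval_sub, Polynomial.eval_pow, Polynomial.eval_mul, eval_cub]
    linear_combination (α.eval (P.1 0 / P.1 2 ^ 2) -
      P.1 1 / P.1 2 ^ 3 * β.eval (P.1 0 / P.1 2 ^ 2)) * h1 +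
      (β.eval (P.1 0 / P.1 2 ^ 2)) ^ 2 * e2

end Pool.Agent.W600.Alg
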